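import Pool.Agent.NRP.TargetsF

/-!
# NRP: ALQ (MP_552896_co), all `n ≥ 2`
-/

set_option autoImplicit false

open Finset Classical

namespace Pool.Agent.NRP

open Pool.Agent.Lib.Recon Pool.Agent.RNB Pool.Agent.NRC

namespace ALQ_

/-- at most `2 ^ (n * n)` graphs -/
theorem card_le {V ι : Type} [Fintype V] [Fintype ι] (H : ι → SimpleGraph V)
    (hne : ∀ i j, i ≠ j → ¬ ∃ α : V ≃ V, ∀ x y, (H i).Adj x y ↔ (H j).Adj (α x) (α y)) :
    Fintype.card ι ≤ 2 ^ (Fintype.card V * Fintype.card V) := by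
  have hinj : Function.Injective
      (fun i => univ.filter fun p : V × V => (H i).Adj p.1 p.2) := by
    intro i j hij
    by_contra h
    refine hne i j h ⟨Equiv.refl V, fun x y => ?_⟩
    have := Finset.ext_iff.1 hij (x, y)
    simpa using this
  have h := Fintype.card_le_of_injective _ hinj
  rwa [Fintype.card_finset, Fintype.card_prod] at h

end ALQ_

open ALQ_ in
/-- ALQ: all `n ≥ 2`. -/
theorem p_ALQ (h1 : T_BIQ) : T_ALQ := by
  obtain ⟨C, n0, hB⟩ := h1
  refine ⟨max C (n0 * n0), ?_⟩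
  intro V ι _ _ G H hV hdeck hne
  have hV1 : 1 ≤ Fintype.card V := by omega
  by_cases hbig : n0 ≤ Fintype.card V
  · exact (hB V ι G H hbig hdeck hne).trans (Nat.pow_le_pow_right hV1 (le_max_left _ _))
  · rw [not_le] at hbig
    calc Fintype.card ι ≤ 2 ^ (Fintype.card V * Fintype.card V) := card_le H hne
      _ ≤ 2 ^ (n0 * n0) :=
        Nat.pow_le_pow_right (by norm_num) (Nat.mul_le_mul hbig.le hbig.le)
      _ ≤ 2 ^ max C (n0 * n0) := Nat.pow_le_pow_right (by norm_num) (le_max_right _ _)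
      _ ≤ Fintype.card V ^ max C (n0 * n0) := Nat.pow_le_pow_left hV _

end Pool.Agent.NRP
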