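import Pool.Agent.NRP.Targets

/-!
# NRP-ARR: class mates over the current set and their differences
-/

set_option autoImplicit false

open Finset Classical

namespace Pool.Agent.NRP

open Pool.Agent.Lib.Recon Pool.Agent.RNB Pool.Agent.NRC Pool.Agent.NRQ

namespace ARR_

variable {V : Type} [Fintype V]

theorem mem_cl (G : SimpleGraph V) (B : Finset V) (v y : V) :
    y ∈ cl G B v ↔ y ∉ B ∧ ∀ b ∈ B, (G.Adj b v ↔ G.Adj b y) := by
  simp [cl]

theorem mem_IN (G : SimpleGraph V) (k : ℕ) (A : Finset V) (y z : V) :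
    z ∈ IN G k A y ↔ z ∉ A ∧ z ≠ y ∧ (cl G (insert z A) y).card ≤ k := by
  simp [IN]

theorem mem_EE (G : SimpleGraph V) (g : ℕ) (A : Finset V) (z : V) :
    z ∈ EE G g A ↔ z ∉ A ∧ ∃ y y', y ∉ A ∧ y ≠ z ∧ y' ≠ z ∧ y' ∈ cl G A y ∧
    ¬ (G.Adj z y ↔ G.Adj z y') ∧ g < (cl G (insert z A) y).card ∧
    g < (cl G (insert z A) y').card := by
  simp only [EE, mem_filter, mem_univ, true_and]

theorem mem_LA (G : SimpleGraph V) (g q : ℕ) (A : Finset V) (y : V) :
    y ∈ LA G g q A ↔ y ∉ A ∪ EE G g A ∧ q < (cl G (A ∪ EE G g A) y).card := by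
  simp only [LA, mem_filter, mem_univ, true_and]

theorem mem_PL (G : SimpleGraph V) (g q : ℕ) (A T0 : Finset V) (y : V) :
    y ∈ PL G g q A T0 ↔ y ∈ LA G g q A ∧ y ∉ T0 := by
  simp only [PL, mem_filter]

theorem mem_dset (G : SimpleGraph V) (u v w : V) :
    w ∈ dset G u v ↔ w ≠ u ∧ w ≠ v ∧ ¬ (G.Adj w u ↔ G.Adj w v) := by
  simp only [dset, mem_filter, mem_univ, true_and]

theorem cl_mono (G : SimpleGraph V) {B C : Finset V} (h : B ⊆ C) (v : V) :
    cl G C v ⊆ cl G B v := by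
  intro y hy
  rw [mem_cl] at hy ⊢
  exact ⟨fun h1 => hy.1 (h h1), fun b hb => hy.2 b (h hb)⟩

/-- class mates have the same class -/
theorem cl_eq (G : SimpleGraph V) (B : Finset V) {v u : V} (h : u ∈ cl G B v) :
    cl G B u = cl G B v := by
  rw [mem_cl] at h
  ext x
  rw [mem_cl, mem_cl]
  constructor
  · rintro ⟨h1, h2⟩
    exact ⟨h1, fun b hb => (h.2 b hb).trans (h2 b hb)⟩
  · rintro ⟨h1, h2⟩
    exact ⟨h1, fun b hb => (h.2 b hb).symm.trans (h2 b hb)⟩

end ARR_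

open ARR_ in
theorem p_ARR : T_ARR := by
  intro V _ G g q A T0 hsub y hy u hu
  have hyP := hy
  rw [mem_PL, mem_LA] at hyP
  obtain ⟨⟨hyB, hyq⟩, hyT⟩ := hyP
  have huc := hu
  rw [mem_cl] at huc
  obtain ⟨huT, hadj⟩ := huc
  have hAT : A ⊆ T0 := Finset.subset_union_left.trans hsub
  have huB : u ∈ cl G (A ∪ EE G g A) y := cl_mono G hsub y hu
  refine ⟨?_, ?_⟩
  · rw [mem_PL, mem_LA]
    refine ⟨⟨fun h => huT (hsub h), ?_⟩, huT⟩
    rw [cl_eq G _ huB]
    exact hyq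
  · intro z hz
    rw [ARR_.mem_dset] at hz
    obtain ⟨hzy, hzu, hne⟩ := hz
    have hzT : z ∉ T0 := fun h => hne (hadj z h)
    have hzA : z ∉ A := fun h => hzT (hAT h)
    have hzE : z ∉ EE G g A := fun h => hzT (hsub (mem_union_right _ h))
    by_contra hcon
    rw [mem_union, not_or, mem_IN, mem_IN] at hcon
    obtain ⟨h1, h2⟩ := hcon
    have h3 : 2 * g < (cl G (insert z A) y).card := by
      by_contra h
      exact h1 ⟨hzA, hzy, not_lt.1 h⟩
    have h4 : 2 * g < (cl G (insert z A) u).card := by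
      by_contra h
      exact h2 ⟨hzA, hzu, not_lt.1 h⟩
    apply hzE
    rw [mem_EE]
    exact ⟨hzA, y, u, fun h => hyT (hAT h), hzy.symm, hzu.symm,
      cl_mono G hAT y hu, hne, by omega, by omega⟩

end Pool.Agent.NRP
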