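import Pool.Agent.NRP.TargetsF
import Pool.Agent.NRC.P_NPA

/-!
# NRP, block BIQ: large `n`
-/

set_option autoImplicit false

open Finset Classical

namespace Pool.Agent.NRP

open Pool.Agent.Lib.Recon Pool.Agent.RNB Pool.Agent.NRC Pool.Agent.NRQ Pool.Agent.RNum

namespace BIQ_

/-- numbers -/
theorem num {n a b C : ℕ} (K : ℕ) (hn : 2 ≤ n) (ha : a ≤ 2 * n ^ (K + 2))
    (hb : b ≤ 2 * n ^ 2 * n ^ C) : a + b ≤ n ^ (K + C + 4) := by
  have h0 : 0 < n := by omega
  have e1 : n ^ (K + 2) ≤ n ^ (K + C + 2) := Nat.pow_le_pow_right h0 (by omega)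
  have e2 : n ^ 2 * n ^ C ≤ n ^ (K + C + 2) := by
    rw [← pow_add]
    exact Nat.pow_le_pow_right h0 (by omega)
  have e3 : n ^ (K + C + 4) = n ^ 2 * n ^ (K + C + 2) := by
    rw [← pow_add]
    congr 1
    omega
  have e4 : 4 ≤ n ^ 2 := by nlinarith
  calc a + b ≤ 2 * n ^ (K + 2) + 2 * (n ^ 2 * n ^ C) := by
        rw [← mul_assoc]
        exact add_le_add ha hb
    _ ≤ 2 * n ^ (K + C + 2) + 2 * n ^ (K + C + 2) :=
        add_le_add (Nat.mul_le_mul_left 2 e1) (Nat.mul_le_mul_left 2 e2)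
    _ = 4 * n ^ (K + C + 2) := by ring
    _ ≤ n ^ 2 * n ^ (K + C + 2) := Nat.mul_le_mul_right _ e4
    _ = _ := e3.symm

end BIQ_

open BIQ_ in
/-- BIQ -/
theorem p_BIQ (h1 : T_HLQ) (h2 : T_NBQ) (ha : Pool.Agent.NRQ.T_AVQ)
    (hb : Pool.Agent.NRQ.T_DCQ) (hc : Pool.Agent.NRQ.T_EQQ) (hd : Pool.Agent.NRQ.T_DC1)
    (he : Pool.Agent.NRQ.T_EQ1) : T_BIQ := by
  obtain ⟨n1, h1⟩ := h1
  obtain ⟨C, n2, h2⟩ := h2
  obtain ⟨n3, h3⟩ := Pool.Agent.NRC.p_NPA
  generalize hKK : (KK : ℕ) = K at h1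
  refine ⟨K + C + 4, max (max n1 n2) (max n3 4), ?_⟩
  intro V ι _ _ G H hn hyp hne
  have hn1 : n1 ≤ Fintype.card V := le_trans (le_trans (le_max_left _ _) (le_max_left _ _)) hn
  have hn2 : n2 ≤ Fintype.card V := le_trans (le_trans (le_max_right _ _) (le_max_left _ _)) hn
  have hn3 : n3 ≤ Fintype.card V := le_trans (le_trans (le_max_left _ _) (le_max_right _ _)) hn
  have hn4 : 4 ≤ Fintype.card V := le_trans (le_trans (le_max_right _ _) (le_max_right _ _)) hn
  have hpN : 1 ≤ pN (Fintype.card V) := (h3 _ hn3).1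
  by_cases hcard : Fintype.card ι ≤ 1
  · exact hcard.trans (Nat.one_le_pow _ _ (by omega))
  have hnt : Nontrivial ι := Fintype.one_lt_card_iff_nontrivial.1 (by omega)
  have hsplit : Fintype.card ι =
      Fintype.card {i : ι // ∃ u v, u ≠ v ∧ (dset (H i) u v).card ≤ K} +
      Fintype.card {i : ι // ¬ ∃ u v, u ≠ v ∧ (dset (H i) u v).card ≤ K} := by
    rw [← Fintype.card_sum]
    exact Fintype.card_congr (Equiv.sumCompl _).symm
  have hA : Fintype.card {i : ι // ∃ u v, u ≠ v ∧ (dset (H i) u v).card ≤ K} ≤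
      2 * Fintype.card V ^ (K + 2) := by
    refine card_le_codes G (fun i => H i.1) (fun i j hij => hne i.1 j.1 fun h =>
      hij (Subtype.ext h)) ?_
    rintro ⟨i, u, v, huv, h⟩
    exact ⟨u, exists_cd huv (hyp i u) h⟩
  have hB : Fintype.card {i : ι // ¬ ∃ u v, u ≠ v ∧ (dset (H i) u v).card ≤ K} ≤
      2 * Fintype.card V ^ 2 * NN (Fintype.card V) := by
    refine ha V _ G (fun i => H i.1) (pN (Fintype.card V)) (NN (Fintype.card V))
      (fun K A v => Gq K A v) hpN (by omega) (fun i v => hyp i.1 v)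
      (fun i j hij => hne i.1 j.1 fun h => hij (Subtype.ext h)) ?_ ?_ ?_
    · rintro F F' σ A v hσ (h | h)
      · exact Or.inl (he V F F' σ _ _ A v hσ h)
      · exact Or.inr (hc V F F' σ _ _ _ _ _ A v hσ h)
    · intro F A v
      refine le_trans (le_trans (card_le_card ?_) (card_union_le _ _))
        (add_le_add (hd V F (pg (Fintype.card V)) (M1 (Fintype.card V)) A v)
          (hb V F (pg (Fintype.card V)) (pg (Fintype.card V)) (q2 (Fintype.card V))
            (d1 (Fintype.card V)) (M2 (Fintype.card V)) A v))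
      intro F' hF'
      rw [mem_filter] at hF'
      obtain ⟨_, k1, k2⟩ := hF'
      rw [mem_union, mem_filter, mem_filter]
      rcases k2 with k2 | k2
      · exact Or.inl ⟨mem_univ _, k1, k2⟩
      · exact Or.inr ⟨mem_univ _, k1, k2⟩
    rintro ⟨i, hi⟩
    obtain ⟨j, hj⟩ := exists_ne i
    refine h1 V (H i) (H j) hn1 (fun v => CardIso_trans (hyp i v).symm (hyp j v))
      (hne i j hj.symm) ?_
    intro u v huv
    by_contra hc'
    exact hi ⟨u, v, huv, (not_le.1 hc').le⟩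
  rw [hsplit]
  exact num K (by omega) hA (hB.trans (Nat.mul_le_mul_left _ (h2 _ hn2)))

end Pool.Agent.NRP
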