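import Pool.Agent.NRP.Targets
import Pool.Agent.NRC.P_AUB

/-!
# NRP, CAU: few automorphisms
-/

set_option autoImplicit false

open Finset Classical

namespace Pool.Agent.NRP

open Pool.Agent.Lib.Recon Pool.Agent.RNB Pool.Agent.NRC Pool.Agent.NRQ

namespace CAU_

variable {V : Type} [Fintype V]

theorem logk {k : ℕ} (hk : 1 ≤ k) : 0 ≤ Real.logb 2 k :=
  Real.logb_nonneg (by norm_num) (by exact_mod_cast hk)

theorem two_rpow {c c' : ℝ} {k : ℕ} (hk : 1 ≤ k) (h : c + (1 + Real.logb 2 k) ≤ c') :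
    (k : ℝ) * (2 : ℝ) ^ c ≤ (2 : ℝ) ^ c' := by
  have hk0 : (0 : ℝ) < k := by exact_mod_cast hk
  have h1 : (k : ℝ) = (2 : ℝ) ^ Real.logb 2 k :=
    (Real.rpow_logb (by norm_num) (by norm_num) hk0).symm
  calc (k : ℝ) * (2 : ℝ) ^ c = (2 : ℝ) ^ Real.logb 2 k * (2 : ℝ) ^ c := by rw [← h1]
    _ = (2 : ℝ) ^ (Real.logb 2 k + c) := (Real.rpow_add (by norm_num) _ _).symm
    _ ≤ (2 : ℝ) ^ c' := Real.rpow_le_rpow_of_exponent_le (by norm_num) (by linarith)

theorem main (G : SimpleGraph V) (T' T : Finset V) (c : ℝ) (h : Co G T c) : T ⊆ T' →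
    ((AUB_.FF G ∅ T' T).card : ℝ) ≤ (2 : ℝ) ^ c := by
  induction h with
  | base hc =>
    intro _
    have h1 : (AUB_.FF G ∅ T' ∅).card ≤ 1 := by
      rw [card_le_one]
      intro f hf f' hf'
      obtain ⟨σ, hσ, rfl⟩ := mem_image.1 hf
      obtain ⟨σ', hσ', rfl⟩ := mem_image.1 hf'
      funext v
      rw [AUB_.rs_of_notMem (notMem_empty v), AUB_.rs_of_notMem (notMem_empty v)]
    have h2 : ((AUB_.FF G ∅ T' ∅).card : ℝ) ≤ 1 := by exact_mod_cast h1
    exact h2.trans (Real.one_le_rpow (by norm_num) hc)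
  | @step T C y k c c' _ hC hk hcl hcc ih =>
    intro hT'
    have hl := logk hk
    by_cases hy : y ∈ T
    · rw [insert_eq_of_mem hy] at hT' ⊢
      exact (ih hT').trans (Real.rpow_le_rpow_of_exponent_le (by norm_num) (by linarith))
    · have h1 := ih (fun v hv => hT' (mem_insert_of_mem hv))
      have h2 := AUB_.step G k ∅ T' T C y hy hT' hC hcl
      have h3 : ((AUB_.FF G ∅ T' (insert y T)).card : ℝ) ≤
          k * ((AUB_.FF G ∅ T' T).card : ℝ) := by exact_mod_cast h2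
      exact h3.trans ((mul_le_mul_of_nonneg_left h1 (Nat.cast_nonneg k)).trans
        (two_rpow hk hcc))

theorem size (G : SimpleGraph V) (T : Finset V) (c : ℝ) (h : Co G T c) : (T.card : ℝ) ≤ c := by
  induction h with
  | base hc =>
    rw [card_empty, Nat.cast_zero]
    exact hc
  | @step T C y k c c' _ hC hk hcl hcc ih =>
    have hl := logk hk
    have h1 : ((insert y T).card : ℝ) ≤ T.card + 1 := by exact_mod_cast card_insert_le y T
    linarith

end CAU_

theorem p_CAU : T_CAU := by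
  intro V _ G T c hT
  refine ⟨?_, CAU_.size G T c hT⟩
  have h1 := CAU_.main G T T c hT (Subset.refl _)
  refine le_trans ?_ h1
  unfold AUB_.FF
  rw [card_image_of_injOn]
  intro σ hσ σ' hσ' he
  rw [mem_coe] at hσ hσ'
  have ha := AUT_.mem_aut.1 hσ
  have ha' := AUT_.mem_aut.1 hσ'
  apply Equiv.ext
  intro v
  by_cases hv : v ∈ T
  · have h2 := congrFun he v
    simp only [AUB_.rs_of_mem hv] at h2
    exact h2
  · rw [ha.1 v hv, ha'.1 v hv]

end Pool.Agent.NRP
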