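import Pool.Agent.NRP.Targets

/-!
# NRP, target CBN: the cost of any additional vertices
-/

set_option autoImplicit false

open Finset Classical

namespace Pool.Agent.NRP

open Pool.Agent.Lib.Recon Pool.Agent.RNB Pool.Agent.NRC

theorem p_CBN : T_CBN := by
  intro V _ G T T' c hTT h
  have key : ∀ S : Finset V,
      Co G (S ∪ T) (c + (1 + Real.logb 2 (Fintype.card V)) * S.card) := by
    intro S
    induction S using Finset.induction_on with
    | empty => simpa using h
    | insert a S ha ih =>
      rw [Finset.insert_union, Finset.card_insert_of_notMem ha]
      refine Co.step (C := ∅) (k := Fintype.card V) ih (Finset.empty_subset _)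
        (Fintype.card_pos_iff.2 ⟨a⟩) (Finset.card_le_univ _) (le_of_eq ?_)
      push_cast
      ring
  have h1 := key (T' \ T)
  rwa [Finset.sdiff_union_of_subset hTT] at h1

end Pool.Agent.NRP
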