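import Pool.Agent.NRP.Targets

/-!
# NRP, target CBS: cost of a set
-/

set_option autoImplicit false

open Finset Classical

namespace Pool.Agent.NRP

open Pool.Agent.Lib.Recon Pool.Agent.RNB Pool.Agent.NRC Pool.Agent.NRQ

/-- Every vertex costs at most `1 + log n`. -/
theorem p_CBS : T_CBS := by
  intro V _ G B
  induction B using Finset.induction_on with
  | empty => exact Co.base (by simp)
  | insert y B hy ih =>
    have hn : 1 ≤ Fintype.card V := Fintype.card_pos_iff.2 ⟨y⟩
    refine Co.step ih (empty_subset B) hn (card_le_univ (cl G ∅ y)) ?_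
    rw [card_insert_of_notMem hy]
    push_cast
    linarith

end Pool.Agent.NRP
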