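import Pool.Agent.NRP.Targets

/-!
# NRP, target CLO: closed sets of large classes are closed on level one
-/

set_option autoImplicit false

open Finset Classical

namespace Pool.Agent.NRP

open Pool.Agent.Lib.Recon Pool.Agent.RNB Pool.Agent.NRC

namespace CLO_

variable {V : Type} [Fintype V]

theorem mem_cl {G : SimpleGraph V} {B : Finset V} {v y : V} :
    y ∈ cl G B v ↔ y ∉ B ∧ ∀ b ∈ B, (G.Adj b v ↔ G.Adj b y) := by
  unfold cl
  rw [mem_filter]
  exact ⟨fun h => h.2, fun h => ⟨mem_univ _, h⟩⟩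

theorem cl_anti {G : SimpleGraph V} {B B' : Finset V} (h : B ⊆ B') (v : V) :
    cl G B' v ⊆ cl G B v := by
  intro y hy
  rw [mem_cl] at hy ⊢
  exact ⟨fun h1 => hy.1 (h h1), fun b hb => hy.2 b (h hb)⟩

theorem mem_EE {G : SimpleGraph V} {g : ℕ} {A : Finset V} {z : V} :
    z ∈ EE G g A ↔ z ∉ A ∧ ∃ y y', y ∉ A ∧ y ≠ z ∧ y' ≠ z ∧ y' ∈ cl G A y ∧
      ¬ (G.Adj z y ↔ G.Adj z y') ∧ g < (cl G (insert z A) y).card ∧
      g < (cl G (insert z A) y').card := by
  unfold EE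
  rw [mem_filter]
  exact ⟨fun h => h.2, fun h => ⟨mem_univ _, h⟩⟩

theorem mem_IN {G : SimpleGraph V} {k : ℕ} {A : Finset V} {y z : V} :
    z ∈ IN G k A y ↔ z ∉ A ∧ z ≠ y ∧ (cl G (insert z A) y).card ≤ k := by
  unfold IN
  rw [mem_filter]
  exact ⟨fun h => h.2, fun h => ⟨mem_univ _, h⟩⟩

theorem mem_PL {G : SimpleGraph V} {g q : ℕ} {A T0 : Finset V} {y : V} :
    y ∈ PL G g q A T0 ↔ (y ∉ A ∪ EE G g A ∧ q < (cl G (A ∪ EE G g A) y).card) ∧ y ∉ T0 := by
  unfold PL LA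
  rw [mem_filter, mem_filter]
  exact ⟨fun h => ⟨h.1.2, h.2⟩, fun h => ⟨⟨mem_univ _, h.1⟩, h.2⟩⟩

/-- the main step -/
theorem small_side {G : SimpleGraph V} {T : Finset V} {g m : ℕ} {y z : V} (hg : 1 ≤ g)
    (hyT : y ∉ T) (hzT : z ∉ T) (hzy : z ≠ y) (hE : z ∉ EE G g T)
    (h1 : (cl G (insert z T) y).card ≤ m) (h2 : m + g + 2 < (cl G T y).card) :
    (cl G (insert z T) y).card ≤ 2 * g := by
  by_contra hcon
  set W := cl G T y \ insert z (cl G (insert z T) y) with hW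
  have h3 : g < W.card := by
    have h4 : (cl G T y).card - (insert z (cl G (insert z T) y)).card ≤ W.card :=
      le_card_sdiff _ _
    have h5 := card_insert_le z (cl G (insert z T) y)
    omega
  obtain ⟨y', hy'⟩ : W.Nonempty := card_pos.1 (by omega)
  have key : ∀ w ∈ W, w ∉ T ∧ w ≠ z ∧ (∀ b ∈ T, (G.Adj b y ↔ G.Adj b w)) ∧
      ¬ (G.Adj z y ↔ G.Adj z w) := by
    intro w hw
    rw [hW, mem_sdiff, mem_cl, mem_insert, not_or, mem_cl] at hw
    obtain ⟨⟨h4, h5⟩, h6, h7⟩ := hw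
    refine ⟨h4, h6, h5, fun h8 => h7 ⟨?_, ?_⟩⟩
    · rw [mem_insert, not_or]
      exact ⟨h6, h4⟩
    · intro b hb
      rcases mem_insert.1 hb with rfl | hb
      · exact h8
      · exact h5 b hb
  obtain ⟨a1, a2, a3, a4⟩ := key y' hy'
  refine hE (mem_EE.2 ⟨hzT, y, y', hyT, hzy.symm, a2, mem_cl.2 ⟨a1, a3⟩, a4, by omega, ?_⟩)
  refine h3.trans_le (card_le_card fun w hw => ?_)
  obtain ⟨b1, b2, b3, b4⟩ := key w hw
  rw [mem_cl]
  refine ⟨?_, ?_⟩
  · rw [mem_insert, not_or]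
    exact ⟨b2, b1⟩
  · intro b hb
    rcases mem_insert.1 hb with rfl | hb
    · tauto
    · exact (a3 b hb).symm.trans (b3 b hb)

end CLO_

open CLO_ in
/-- **CLO** -/
theorem p_CLO : T_CLO := by
  intro V _ G A T01 T1 T Q g1 qq h1 g q hg hqq hC hT1 hQ hQc hQk
  have hAT1 : A ∪ EE G g1 A ⊆ T := (hC.lv.sub.trans hC.sub).trans hT1
  have hAT : A ⊆ T := subset_union_left.trans hAT1
  refine ⟨fun y hy => ?_, fun y hy z hz => ?_⟩
  · have h2 := mem_PL.1 (hQ hy)
    have h3 : y ∉ T := fun h => h2.2 (mem_union_left _ h)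
    refine mem_PL.2 ⟨⟨fun h => h3 (hAT1 h), ?_⟩, fun h => h3 (hT1 (hC.sub h))⟩
    exact (hQk y hy).trans_le (card_le_card (cl_anti (hAT1.trans subset_union_left) y))
  · have h2 := mem_PL.1 (hQ hy)
    have hyT : y ∉ T := fun h => h2.2 (mem_union_left _ h)
    obtain ⟨hzA, hzy, hz1⟩ := mem_IN.1 hz
    have h4 : qq < (cl G (T ∪ EE G g T) y).card := hQk y hy
    have h5 : z ∉ T ∪ EE G g T := by
      intro h
      have h6 : insert z A ⊆ T ∪ EE G g T :=
        insert_subset h (hAT.trans subset_union_left)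
      have h7 := card_le_card (cl_anti (G := G) h6 y)
      omega
    have hzT : z ∉ T := fun h => h5 (mem_union_left _ h)
    have hzE : z ∉ EE G g T := fun h => h5 (mem_union_right _ h)
    refine hQc y hy (mem_IN.2 ⟨hzT, hzy, ?_⟩)
    have h6 := card_le_card (cl_anti (G := G) (insert_subset_insert z hAT) y)
    have h7 := card_le_card (cl_anti (G := G) (subset_union_left (s₁ := T) (s₂ := EE G g T)) y)
    refine small_side (m := qq - g - 2) hg hyT hzT hzy hzE (by omega) (by omega)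

end Pool.Agent.NRP
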