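import Pool.Agent.NRP.Targets

/-!
# NRP, target CNX: a set of terminals
-/

set_option autoImplicit false

open Finset Classical

namespace Pool.Agent.NRP

open Pool.Agent.Lib.Recon Pool.Agent.RNB Pool.Agent.NRC Pool.Agent.NRQ

theorem p_CNX (h1 : T_PTH) : T_CNX := by
  intro V _ Cf kz I P T0 T R Λ c h q ms hSy hT0 hR hMk hFr hCf
  induction R using Finset.induction_on with
  | empty =>
    refine ⟨T, ms, Finset.Subset.refl _, Finset.empty_subset _, hMk, hFr, fun y => Or.inl rfl, ?_⟩
    refine hSy.mono _ _ _ hCf ?_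
    simp
  | insert t R ht ih =>
    obtain ⟨T1, ms1, hT1, hR1, hMk1, hFr1, hNw1, hCf1⟩ :=
      ih (fun t' ht' => hR t' (mem_insert_of_mem ht'))
    have hΛ := hSy.pos
    by_cases hP : t ∈ P
    · have hRch : Rch I P T1 t := by
        obtain ⟨y, hy, hy'⟩ := hR t (mem_insert_self _ _) hP
        refine ⟨y, hy, ?_⟩
        rcases hy' with h | ⟨z, hz, h | h⟩
        · exact Or.inl (hT1 h)
        · exact Or.inr ⟨z, hz, Or.inl (hT1 h)⟩
        · exact Or.inr ⟨z, hz, Or.inr h⟩
      obtain ⟨T2, ms2, hT2, ht2, hMk2, hFr2, hNw2, hCf2⟩ :=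
        h1 V Cf kz I P T0 T1 Λ (c + 4 * Λ * R.card) h q ms1 t hSy (hT0.trans hT1) hP hRch
          hMk1 hFr1 hCf1
      refine ⟨T2, ms2, hT1.trans hT2, insert_subset ht2 (hR1.trans hT2), hMk2, hFr2, ?_, ?_⟩
      · intro y
        rcases hNw2 y with h2 | h2
        · rw [h2]
          exact hNw1 y
        · exact Or.inr h2
      · refine hSy.mono _ _ _ hCf2 ?_
        rw [card_insert_of_notMem ht]
        push_cast
        linarith
    · refine ⟨insert t T1, ms1, hT1.trans (subset_insert _ _),
        insert_subset (mem_insert_self _ _) (hR1.trans (subset_insert _ _)), ?_, ?_, hNw1, ?_⟩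
      · intro y hy
        exact (hSy.anti _ _ y (subset_insert _ _)).trans (hMk1 y hy)
      · intro y hy hz
        refine hFr1 y hy fun z hz' => ⟨(hz z hz').1, fun h => (hz z hz').2 (mem_insert_of_mem h)⟩
      · refine hSy.mono _ _ _ (hSy.free T1 _ t (hT0.trans hT1) hP hCf1) ?_
        rw [card_insert_of_notMem ht]
        push_cast
        linarith

end Pool.Agent.NRP
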