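import Pool.Agent.NRP.Targets
import Pool.Agent.NRC.P_RMS
import Pool.Agent.RNB.P_EMB
import Pool.Agent.RNB.P_BIN

/-!
# NRP, target DON: the end (MP_552896_co)
-/

set_option autoImplicit false

open Finset Classical

namespace Pool.Agent.NRP

open Pool.Agent.Lib.Recon Pool.Agent.RNB Pool.Agent.NRC Pool.Agent.NRQ

namespace DON_

theorem num (n t E a : ℕ) (c : ℝ) (hn : 10 ≤ n) (hE : E ≤ n.choose t * a)
    (ha : (a : ℝ) ≤ (2 : ℝ) ^ c) (ht : (t : ℝ) ≤ c) (hc : 100 * c ≤ n) :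
    (2 * E) ^ 2 < 2 ^ (n - t) := by
  have hnR : (10 : ℝ) ≤ n := by exact_mod_cast hn
  have ht0 : (0 : ℝ) ≤ t := Nat.cast_nonneg t
  have h32R : (32 : ℝ) * t ≤ n := by linarith
  have h32 : 32 * t ≤ n := by exact_mod_cast h32R
  have htn : t ≤ n := by omega
  have hchoose := p_BIN n t h32
  have ha2 : (a : ℝ) ≤ (2 : ℝ) ^ ((n : ℝ) / 100) :=
    ha.trans (Real.rpow_le_rpow_of_exponent_le (by norm_num) (by linarith))
  have hE2 : ((2 * E : ℕ) : ℝ) ≤ (2 : ℝ) ^ (1 + ((13 / 64 : ℝ) * n + (n : ℝ) / 100)) := by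
    have h1 : ((2 * E : ℕ) : ℝ) ≤ ((2 * (n.choose t * a) : ℕ) : ℝ) := by
      exact_mod_cast Nat.mul_le_mul_left 2 hE
    refine h1.trans ?_
    rw [Real.rpow_add (by norm_num), Real.rpow_add (by norm_num), Real.rpow_one, Nat.cast_mul,
      Nat.cast_mul, Nat.cast_ofNat]
    refine mul_le_mul_of_nonneg_left ?_ (by norm_num)
    exact mul_le_mul hchoose ha2 (Nat.cast_nonneg _) (by positivity)
  have hfin : (((2 * E) ^ 2 : ℕ) : ℝ) < ((2 ^ (n - t) : ℕ) : ℝ) := by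
    rw [Nat.cast_pow]
    calc ((2 * E : ℕ) : ℝ) ^ 2
        ≤ ((2 : ℝ) ^ (1 + ((13 / 64 : ℝ) * n + (n : ℝ) / 100))) ^ 2 :=
          pow_le_pow_left₀ (Nat.cast_nonneg _) hE2 2
      _ = (2 : ℝ) ^ ((1 + ((13 / 64 : ℝ) * n + (n : ℝ) / 100)) * 2) := by
          rw [← Real.rpow_natCast, ← Real.rpow_mul (by norm_num)]
          norm_num
      _ < (2 : ℝ) ^ (((n - t : ℕ) : ℝ)) := by
          refine Real.rpow_lt_rpow_of_exponent_lt (by norm_num) ?_
          rw [Nat.cast_sub htn]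
          linarith
      _ = ((2 ^ (n - t) : ℕ) : ℝ) := by
          rw [Real.rpow_natCast]
          push_cast
          rfl
  exact_mod_cast hfin

end DON_

theorem p_DON (h1 : T_CAU) : T_DON := by
  refine ⟨10, ?_⟩
  intro V _ G H T c hn hcard hD hC hc
  obtain ⟨ha, ht⟩ := h1 V G T c hC
  refine p_RMS V G H T hcard hD ?_
  refine DON_.num (Fintype.card V) T.card _ (Aut0 G ∅ T).card c hn ?_ ha ht hc
  have h2 := p_EMB V G ∅ T (Finset.empty_subset T)
  rwa [Finset.card_empty, pow_zero, mul_one] at h2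

end Pool.Agent.NRP
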