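import Pool.Agent.NRP.Targets
import Pool.Agent.RNB.P_KEY

set_option autoImplicit false

open Finset Classical

namespace Pool.Agent.NRP

open Pool.Agent.Lib.Recon Pool.Agent.RNB Pool.Agent.NRC Pool.Agent.NRQ

namespace ECN_

/-- a side which does not look like `r` is contained in the set of the `u` with `z ∈ dset G u r` -/
theorem side {V : Type} [Fintype V] {G : SimpleGraph V} {T : Finset V} {ρ : V → V} {y w z : V}
    (hρ : ∀ y y', y' ∈ cl G T y → ρ y' = ρ y) (hw : w ∈ cl G T y) (hz : z ≠ ρ y)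
    (h : ¬ (G.Adj z w ↔ G.Adj z (ρ y))) :
    cl G (insert z T) w ⊆ univ.filter fun u => u ∉ T ∧ u ≠ ρ u ∧ z ∈ dset G u (ρ u) := by
  intro u hu
  have hu1 := KEY_.mem_cl.1 hu
  have huT : u ∉ T := fun hT => hu1.1 (mem_insert_of_mem hT)
  have huz : z ≠ u := by
    intro hzu
    exact hu1.1 (by rw [← hzu]; exact mem_insert_self _ _)
  have hcl : u ∈ cl G T w := KEY_.cl_mono (subset_insert z T) w hu
  have hr : ρ u = ρ y := (hρ w u hcl).trans (hρ y w hw)
  have hadj : ¬ (G.Adj z u ↔ G.Adj z (ρ u)) := by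
    rw [hr]
    intro h2
    exact h ((hu1.2 z (mem_insert_self _ _)).trans h2)
  rw [mem_filter]
  refine ⟨mem_univ _, huT, ?_, ?_⟩
  · intro h2
    exact hadj (by rw [← h2])
  · rw [mem_dset]
    exact ⟨huz, by rw [hr]; exact hz, hadj⟩

end ECN_

open ECN_ in
theorem p_ECN : T_ECN := by
  intro V _ G g d T hd hN
  rcases isEmpty_or_nonempty V with hV | hV
  · have h : EE G g T = ∅ := Finset.eq_empty_of_isEmpty _
    rw [h, card_empty, Nat.mul_zero]
    exact Nat.zero_le _
  obtain ⟨R, hR⟩ : ∃ R : Finset V → V, ∀ C : Finset V, C.Nonempty → R C ∈ C :=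
    ⟨fun C => if h : C.Nonempty then h.choose else Classical.arbitrary V, fun C h => by
      simp only [dif_pos h]
      exact h.choose_spec⟩
  obtain ⟨ρ, hρ⟩ : ∃ ρ : V → V, ρ = fun y => R (cl G T y) := ⟨_, rfl⟩
  have hρm : ∀ y, y ∉ T → ρ y ∈ cl G T y := by
    intro y hy
    rw [hρ]
    exact hR _ ⟨y, KEY_.mem_cl.2 ⟨hy, fun _ _ => Iff.rfl⟩⟩
  have hρe : ∀ y y', y' ∈ cl G T y → ρ y' = ρ y := by
    intro y y' h
    rw [hρ]
    show R (cl G T y') = R (cl G T y)
    rw [KEY_.cl_eq h]
  obtain ⟨P, hP⟩ : ∃ P : V → V → Prop,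
      P = fun z u => u ∉ T ∧ u ≠ ρ u ∧ z ∈ dset G u (ρ u) := ⟨_, rfl⟩
  obtain ⟨E1, hE1⟩ : ∃ E1, E1 = (EE G g T).filter fun z =>
    g < (univ.filter fun u => P z u).card := ⟨_, rfl⟩
  obtain ⟨E2, hE2⟩ : ∃ E2, E2 = (EE G g T).filter fun z =>
    ¬ g < (univ.filter fun u => P z u).card := ⟨_, rfl⟩
  have hsum : E1.card + E2.card = (EE G g T).card := by
    rw [hE1, hE2]
    exact Finset.card_filter_add_card_filter_not _
  -- the first part
  have h1 : E1.card * g ≤ (univ : Finset V).card * d := by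
    refine Finset.card_mul_le_card_mul P (fun z hz => ?_) (fun u _ => ?_)
    · rw [hE1, mem_filter] at hz
      exact hz.2.le
    · by_cases hu : u ∉ T ∧ u ≠ ρ u
      · have h2 : E1.bipartiteBelow P u ⊆ dset G u (ρ u) := by
          intro z hz
          have h3 := (Finset.mem_bipartiteBelow P).1 hz
          have h4 := h3.2
          rw [hP] at h4
          exact h4.2.2
        have h3 := KEY_.mem_cl.1 (hρm u hu.1)
        exact (card_le_card h2).trans (hN u (ρ u) hu.1 h3.1 hu.2 h3.2).le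
      · have h2 : E1.bipartiteBelow P u = ∅ := by
          rw [Finset.eq_empty_iff_forall_notMem]
          intro z hz
          have h3 := (Finset.mem_bipartiteBelow P).1 hz
          have h4 := h3.2
          rw [hP] at h4
          exact hu ⟨h4.1, h4.2.1⟩
        rw [h2, card_empty]
        exact Nat.zero_le _
  -- the second part
  have hE2m : ∀ z ∈ E2, z ∉ T ∧ ρ z = z ∧ g < (cl G T z).card := by
    intro z hz
    rw [hE2, mem_filter] at hz
    obtain ⟨hz1, hz2⟩ := hz
    unfold EE at hz1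
    rw [mem_filter] at hz1
    obtain ⟨-, hzT, y, y', hy, hyz, hy'z, hy', hadj, g1, g2⟩ := hz1
    have hyy : y ∈ cl G T y := KEY_.mem_cl.2 ⟨hy, fun _ _ => Iff.rfl⟩
    have hzr : z = ρ y := by
      by_contra hne
      apply hz2
      have hsub : ∀ w, w ∈ cl G T y → ¬ (G.Adj z w ↔ G.Adj z (ρ y)) →
          cl G (insert z T) w ⊆ univ.filter fun u => P z u := by
        intro w hw h u hu
        rw [mem_filter]
        refine ⟨mem_univ _, ?_⟩
        rw [hP]
        exact (mem_filter.1 (side hρe hw hne h hu)).2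
      by_cases h2 : G.Adj z y ↔ G.Adj z (ρ y)
      · have h3 : ¬ (G.Adj z y' ↔ G.Adj z (ρ y)) := fun h4 => hadj (h2.trans h4.symm)
        exact g2.trans_le (card_le_card (hsub y' hy' h3))
      · exact g1.trans_le (card_le_card (hsub y hyy h2))
    have hzc : z ∈ cl G T y := by
      rw [hzr]
      exact hρm y hy
    refine ⟨hzT, (hρe y z hzc).trans hzr.symm, ?_⟩
    rw [KEY_.cl_eq hzc]
    exact g1.trans_le (card_le_card (KEY_.cl_mono (subset_insert z T) y))
  have hdis : ∀ z ∈ E2, ∀ z' ∈ E2, z ≠ z' → Disjoint (cl G T z) (cl G T z') := by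
    intro z hz z' hz' hne
    rw [Finset.disjoint_left]
    intro w hw hw'
    apply hne
    rw [← (hE2m z hz).2.1, ← (hE2m z' hz').2.1, ← hρe z w hw, ← hρe z' w hw']
  have h2 : E2.card * g ≤ Fintype.card V := by
    have hcard : (E2.biUnion fun y => cl G T y).card = ∑ y ∈ E2, (cl G T y).card :=
      Finset.card_biUnion fun y hy y' hy' hne => hdis y hy y' hy' hne
    have h6 : E2.card * g ≤ ∑ y ∈ E2, (cl G T y).card := by
      rw [← smul_eq_mul]
      exact Finset.card_nsmul_le_sum _ _ _ fun y hy => (hE2m y hy).2.2.le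
    exact (h6.trans hcard.ge).trans (Finset.card_le_univ _)
  rw [card_univ] at h1
  rw [← hsum]
  have h3 : Fintype.card V ≤ Fintype.card V * d := Nat.le_mul_of_pos_right _ hd
  calc g * (E1.card + E2.card) = E1.card * g + E2.card * g := by ring
    _ ≤ Fintype.card V * d + Fintype.card V := Nat.add_le_add h1 h2
    _ ≤ Fintype.card V * d + Fintype.card V * d := Nat.add_le_add_left h3 _
    _ = 2 * d * Fintype.card V := by ring

end Pool.Agent.NRP
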