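import Pool.Agent.NRP.Targets

/-!
# NRP, target ECO: the cost of the set `EE`
-/

set_option autoImplicit false

open Finset Classical

namespace Pool.Agent.NRP

open Pool.Agent.Lib.Recon Pool.Agent.RNB Pool.Agent.NRC

namespace ECO_

/-- `Co` is monotone in the cost -/
lemma co_mono {V : Type} [Fintype V] {G : SimpleGraph V} {T : Finset V} {c c' : ℝ}
    (h : Co G T c) (hc : c ≤ c') : Co G T c' := by
  cases h with
  | base h0 => exact Co.base (le_trans h0 hc)
  | step h1 hC hk hcl h2 => exact Co.step h1 hC hk hcl (le_trans h2 hc)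

/-- adding the elements of `S` to `T`, with at most `k` candidates each over `T` -/
lemma add_set {V : Type} [Fintype V] {G : SimpleGraph V} {T : Finset V} {c L : ℝ} {k : ℕ}
    (h : Co G T c) (hk : 1 ≤ k) (hL : 1 + Real.logb 2 (k : ℝ) ≤ L) (S : Finset V) :
    (∀ z ∈ S, (cl G T z).card ≤ k) → Co G (T ∪ S) (c + L * S.card) := by
  induction S using Finset.induction_on with
  | empty =>
    intro _
    have e : T ∪ (∅ : Finset V) = T := Finset.union_empty T
    rw [e]
    refine co_mono h ?_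
    simp
  | insert z S hz ih =>
    intro hS
    have h1 := ih (fun w hw => hS w (Finset.mem_insert_of_mem hw))
    have e : T ∪ insert z S = insert z (T ∪ S) := Finset.union_insert z T S
    rw [e]
    refine Co.step h1 (Finset.subset_union_left) hk (hS z (Finset.mem_insert_self z S)) ?_
    rw [Finset.card_insert_of_notMem hz]
    push_cast
    linarith

lemma four_le {d : ℕ} (h : KK ≤ d) : 4 ≤ d := by
  have h1 : (2 : ℕ) ^ 2 ≤ 2 ^ 10000 := Nat.pow_le_pow_right (by norm_num) (by norm_num)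
  have h2 : (2 : ℕ) ^ 10000 ≤ d := h
  have h3 : (2 : ℕ) ^ 2 ≤ d := le_trans h1 h2
  have h4 : (2 : ℕ) ^ 2 = 4 := by norm_num
  omega

lemma log_le {d : ℕ} (h : 4 ≤ d) : 1 + Real.logb 2 ((d ^ 4 : ℕ) : ℝ) ≤ (lam d : ℝ) := by
  have hd : (0 : ℝ) < (d : ℝ) := by
    have : 0 < d := by omega
    exact_mod_cast this
  have h1 : d < 2 ^ (Nat.log 2 d + 1) := Nat.lt_pow_succ_log_self (by norm_num) d
  have h2 : (d : ℝ) ≤ (2 : ℝ) ^ (Nat.log 2 d + 1) := by exact_mod_cast h1.le
  have h3 : Real.logb 2 (d : ℝ) ≤ ((Nat.log 2 d + 1 : ℕ) : ℝ) := by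
    have h4 : Real.logb 2 (d : ℝ) ≤ Real.logb 2 ((2 : ℝ) ^ (Nat.log 2 d + 1)) :=
      Real.logb_le_logb_of_le (by norm_num) hd h2
    have h5 : Real.logb 2 ((2 : ℝ) ^ (Nat.log 2 d + 1)) = ((Nat.log 2 d + 1 : ℕ) : ℝ) := by
      rw [Real.logb_pow]
      rw [Real.logb_self_eq_one (by norm_num)]
      ring
    linarith
  have h6 : Real.logb 2 ((d ^ 4 : ℕ) : ℝ) = 4 * Real.logb 2 (d : ℝ) := by
    push_cast
    rw [Real.logb_pow]
    norm_num
  rw [h6]
  unfold lam
  push_cast at h3 ⊢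
  linarith

end ECO_

open ECO_ in
theorem p_ECO (h1 : T_ECN) (h2 : T_EFR) : T_ECO := by
  intro V _ G d T c hK hN hC
  have hd : 4 ≤ d := four_le hK
  have hg : 2 * d + 2 ≤ d ^ 2 := by nlinarith
  have hk : 1 ≤ d ^ 4 := Nat.one_le_pow 4 d (by omega)
  have hk2 : 2 * d + 1 ≤ d ^ 4 := by
    have a : d ^ 2 ≤ d ^ 4 := Nat.pow_le_pow_right (by omega) (by norm_num)
    omega
  have hE : ∀ z ∈ EE G (d ^ 2) T, (cl G T z).card ≤ d ^ 4 := fun z hz =>
    le_trans (h2 V G (d ^ 2) d T hg hN z hz) hk2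
  have hcost := add_set (L := (lam d : ℝ)) hC hk (log_le hd) (EE G (d ^ 2) T) hE
  refine co_mono hcost ?_
  have hcn : d ^ 2 * (EE G (d ^ 2) T).card ≤ 2 * d * Fintype.card V :=
    h1 V G (d ^ 2) d T (by omega) hN
  have hcn' : d * (EE G (d ^ 2) T).card ≤ 2 * Fintype.card V := by
    have hdp : 0 < d := by omega
    refine Nat.le_of_mul_le_mul_left (c := d) ?_ hdp |>.trans (le_refl _)
    calc d * (d * (EE G (d ^ 2) T).card) = d ^ 2 * (EE G (d ^ 2) T).card := by ring
      _ ≤ 2 * d * Fintype.card V := hcn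
      _ = d * (2 * Fintype.card V) := by ring
  have hdr : (0 : ℝ) < (d : ℝ) := by
    have : 0 < d := by omega
    exact_mod_cast this
  have hr : ((EE G (d ^ 2) T).card : ℝ) ≤ 2 * (Fintype.card V : ℝ) / (d : ℝ) := by
    rw [le_div_iff₀ hdr]
    have : ((d * (EE G (d ^ 2) T).card : ℕ) : ℝ) ≤ ((2 * Fintype.card V : ℕ) : ℝ) := by
      exact_mod_cast hcn'
    push_cast at this
    linarith
  have hl : (0 : ℝ) ≤ (lam d : ℝ) := Nat.cast_nonneg _
  have := mul_le_mul_of_nonneg_left hr hl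
  linarith

end Pool.Agent.NRP
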