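import Pool.Agent.NRP.Targets
import Pool.Agent.NRP.P_ARR

/-!
# NRP, target EFR: the cutting vertices are in small classes
-/

set_option autoImplicit false

open Finset Classical

namespace Pool.Agent.NRP

open Pool.Agent.Lib.Recon Pool.Agent.RNB Pool.Agent.NRC Pool.Agent.NRQ

theorem p_EFR : T_EFR := by
  intro V _ G g d T hg hNr z hz
  rw [ARR_.mem_EE] at hz
  obtain ⟨hzT, y, y', hyT, hyz, hy'z, hy', hadj, hS1, hS2⟩ := hz
  have hy'T : y' ∉ T := ((ARR_.mem_cl G T y y').1 hy').1
  -- the two sides
  set S1 := cl G (insert z T) y with hS1def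
  set S2 := cl G (insert z T) y' with hS2def
  -- injections of `Fin g` into the two sides
  obtain ⟨f1, hf1⟩ : ∃ f : Fin g → V, Function.Injective f ∧ ∀ i, f i ∈ S1 := by
    obtain ⟨s, hs, hsc⟩ := Finset.exists_subset_card_eq hS1.le
    refine ⟨fun i => (s.equivFin.symm (Fin.cast hsc.symm i) : V), ?_, fun i => ?_⟩
    · intro i j hij
      have := s.equivFin.symm.injective (Subtype.ext hij)
      exact Fin.cast_injective _ this
    · exact hs (s.equivFin.symm (Fin.cast hsc.symm i)).2
  obtain ⟨f2, hf2⟩ : ∃ f : Fin g → V, Function.Injective f ∧ ∀ i, f i ∈ S2 := by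
    obtain ⟨s, hs, hsc⟩ := Finset.exists_subset_card_eq hS2.le
    refine ⟨fun i => (s.equivFin.symm (Fin.cast hsc.symm i) : V), ?_, fun i => ?_⟩
    · intro i j hij
      have := s.equivFin.symm.injective (Subtype.ext hij)
      exact Fin.cast_injective _ this
    · exact hs (s.equivFin.symm (Fin.cast hsc.symm i)).2
  have hm1 : ∀ u ∈ S1, u ≠ z ∧ u ∉ T ∧ (∀ a ∈ T, (G.Adj a y ↔ G.Adj a u)) ∧
      (G.Adj z y ↔ G.Adj z u) := by
    intro u hu
    rw [hS1def, ARR_.mem_cl] at hu
    exact ⟨fun h => hu.1 (h ▸ mem_insert_self _ _), fun h => hu.1 (mem_insert_of_mem h),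
      fun a ha => hu.2 a (mem_insert_of_mem ha), hu.2 z (mem_insert_self _ _)⟩
  have hm2 : ∀ u ∈ S2, u ≠ z ∧ u ∉ T ∧ (∀ a ∈ T, (G.Adj a y ↔ G.Adj a u)) ∧
      (G.Adj z y' ↔ G.Adj z u) := by
    intro u hu
    rw [hS2def, ARR_.mem_cl] at hu
    refine ⟨fun h => hu.1 (h ▸ mem_insert_self _ _), fun h => hu.1 (mem_insert_of_mem h),
      fun a ha => ?_, hu.2 z (mem_insert_self _ _)⟩
    exact (((ARR_.mem_cl G T y y').1 hy').2 a ha).trans (hu.2 a (mem_insert_of_mem ha))
  set K := (cl G T z).erase z with hKdef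
  -- each `z'` distinguishes many pairs
  have hlow : ∀ z' ∈ K, g - d ≤
      ((univ : Finset (Fin g)).filter (fun i => z' ∈ dset G (f1 i) (f2 i))).card := by
    intro z' hz'
    rw [hKdef, mem_erase, ARR_.mem_cl] at hz'
    obtain ⟨hne, hz'T, hz'a⟩ := hz'
    have hds : (dset G z z').card < d := hNr z z' hzT hz'T (fun h => hne h.symm) hz'a
    -- the bad indices
    have hsub : (univ : Finset (Fin g)) ⊆
        (univ.filter (fun i => z' ∈ dset G (f1 i) (f2 i))) ∪
        (univ.filter (fun i => f1 i ∈ insert z' (dset G z z') ∨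
          f2 i ∈ insert z' (dset G z z'))) := by
      intro i _
      by_cases h : f1 i ∈ insert z' (dset G z z') ∨ f2 i ∈ insert z' (dset G z z')
      · exact mem_union_right _ (mem_filter.2 ⟨mem_univ _, h⟩)
      · refine mem_union_left _ (mem_filter.2 ⟨mem_univ _, ?_⟩)
        push Not at h
        obtain ⟨h1, h2⟩ := h
        rw [mem_insert, not_or, ARR_.mem_dset] at h1 h2
        have a1 := hm1 _ (hf1.2 i)
        have a2 := hm2 _ (hf2.2 i)
        rw [ARR_.mem_dset]
        refine ⟨fun h => h1.1 h.symm, fun h => h2.1 h.symm, fun h => ?_⟩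
        have b1 : G.Adj (f1 i) z ↔ G.Adj (f1 i) z' := by
          by_contra hc
          exact h1.2 ⟨a1.1, h1.1, hc⟩
        have b2 : G.Adj (f2 i) z ↔ G.Adj (f2 i) z' := by
          by_contra hc
          exact h2.2 ⟨a2.1, h2.1, hc⟩
        apply hadj
        rw [a1.2.2.2, a2.2.2.2, G.adj_comm z (f1 i), G.adj_comm z (f2 i), b1, b2,
          G.adj_comm (f1 i) z', G.adj_comm (f2 i) z']
        exact h
    have hbad : (univ.filter (fun i : Fin g => f1 i ∈ insert z' (dset G z z') ∨
          f2 i ∈ insert z' (dset G z z'))).card ≤ (insert z' (dset G z z')).card := by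
      refine Finset.card_le_card_of_injOn
        (fun i => if f1 i ∈ insert z' (dset G z z') then f1 i else f2 i) ?_ ?_
      · intro i hi
        rw [mem_coe, mem_filter] at hi
        dsimp only
        split_ifs with h
        · exact h
        · exact hi.2.resolve_left h
      · intro i hi j hj hij
        have hdis : ∀ a b : Fin g, f1 a ≠ f2 b := by
          intro a b hab
          have a1 := hm1 _ (hf1.2 a)
          have a2 := hm2 _ (hf2.2 b)
          apply hadj
          rw [a1.2.2.2, a2.2.2.2, hab]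
        dsimp only at hij
        split_ifs at hij with h h' h'
        · exact hf1.1 hij
        · exact absurd hij (hdis _ _)
        · exact absurd hij.symm (hdis _ _)
        · exact hf2.1 hij
    have h3 := card_le_card hsub
    have h4 := card_union_le (univ.filter (fun i => z' ∈ dset G (f1 i) (f2 i)))
        (univ.filter (fun i => f1 i ∈ insert z' (dset G z z') ∨
          f2 i ∈ insert z' (dset G z z')))
    have h5 := card_insert_le z' (dset G z z')
    rw [card_univ, Fintype.card_fin] at h3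
    omega
  have hup : ∀ i ∈ (univ : Finset (Fin g)),
      (K.filter (fun z' => z' ∈ dset G (f1 i) (f2 i))).card ≤ d := by
    intro i _
    have a1 := hm1 _ (hf1.2 i)
    have a2 := hm2 _ (hf2.2 i)
    have hne : f1 i ≠ f2 i := by
      intro hab
      apply hadj
      rw [a1.2.2.2, a2.2.2.2, hab]
    have h2 := hNr (f1 i) (f2 i) a1.2.1 a2.2.1 hne
      (fun a ha => (a1.2.2.1 a ha).symm.trans (a2.2.2.1 a ha))
    refine le_trans (card_le_card ?_) h2.le
    intro x hx
    exact (mem_filter.1 hx).2
  have hdc := Finset.sum_card_bipartiteAbove_eq_sum_card_bipartiteBelow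
    (s := K) (t := (univ : Finset (Fin g))) (fun z' i => z' ∈ dset G (f1 i) (f2 i))
  have h1 : K.card * (g - d) ≤ ∑ z' ∈ K,
      ((univ : Finset (Fin g)).filter (fun i => z' ∈ dset G (f1 i) (f2 i))).card := by
    rw [← smul_eq_mul, ← Finset.sum_const]
    exact Finset.sum_le_sum hlow
  have h2 : ∑ i ∈ (univ : Finset (Fin g)),
      (K.filter (fun z' => z' ∈ dset G (f1 i) (f2 i))).card ≤ g * d := by
    refine (Finset.sum_le_sum hup).trans ?_
    rw [Finset.sum_const, smul_eq_mul, card_univ, Fintype.card_fin]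
  have h3 : ∑ z' ∈ K, ((univ : Finset (Fin g)).filter
      (fun i => z' ∈ dset G (f1 i) (f2 i))).card = ∑ i ∈ (univ : Finset (Fin g)),
      (K.filter (fun z' => z' ∈ dset G (f1 i) (f2 i))).card := hdc
  have h4 : K.card * (g - d) ≤ g * d := by
    rw [h3] at h1
    exact h1.trans h2
  have h5 : g ≤ 2 * (g - d) := by omega
  have h6 : g * K.card ≤ g * (2 * d) := by
    calc g * K.card ≤ (2 * (g - d)) * K.card := Nat.mul_le_mul_right _ h5
      _ = 2 * (K.card * (g - d)) := by ring
      _ ≤ 2 * (g * d) := Nat.mul_le_mul_left 2 h4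
      _ = g * (2 * d) := by ring
  have h7 : K.card ≤ 2 * d := Nat.le_of_mul_le_mul_left h6 (by omega)
  have h8 : (cl G T z).card - 1 ≤ K.card := by
    rw [hKdef]
    exact Finset.pred_card_le_card_erase
  omega

end Pool.Agent.NRP
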