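import Pool.Agent.NRP.Targets
import Pool.Agent.NRP.P_ARR

/-!
# NRP, target IND: indegrees on the other levels
-/

set_option autoImplicit false

open Finset Classical

namespace Pool.Agent.NRP

open Pool.Agent.Lib.Recon Pool.Agent.RNB Pool.Agent.NRC Pool.Agent.NRQ

theorem p_IND : T_IND := by
  intro V _ G g q d T hq hNr y hy
  rw [ARR_.mem_LA] at hy
  obtain ⟨hyT, hC⟩ := hy
  set C := cl G (T ∪ EE G g T) y with hCdef
  set N := IN G (2 * g) T y with hNdef
  have hyT' : y ∉ T := fun h => hyT (mem_union_left _ h)
  have hlow : ∀ z ∈ N, C.card - 1 - 2 * g ≤ (C.filter (fun u => z ∈ dset G y u)).card := by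
    intro z hz
    rw [hNdef, ARR_.mem_IN] at hz
    have hsub : C ⊆ (C.filter (fun u => z ∈ dset G y u)) ∪ ({z} ∪ cl G (insert z T) y) := by
      intro u hu
      by_cases h1 : u = z
      · simp [h1]
      by_cases h2 : G.Adj z y ↔ G.Adj z u
      · refine mem_union_right _ (mem_union_right _ ?_)
        rw [hCdef, ARR_.mem_cl] at hu
        rw [ARR_.mem_cl]
        refine ⟨fun h => ?_, fun b hb => ?_⟩
        · rcases mem_insert.1 h with h | h
          · exact h1 h
          · exact hu.1 (mem_union_left _ h)
        · rcases mem_insert.1 hb with h | h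
          · rw [h]
            exact h2
          · exact hu.2 b (mem_union_left _ h)
      · refine mem_union_left _ (mem_filter.2 ⟨hu, ?_⟩)
        rw [ARR_.mem_dset]
        exact ⟨hz.2.1, fun h => h1 h.symm, h2⟩
    have h3 := card_le_card hsub
    have h4 := card_union_le (C.filter (fun u => z ∈ dset G y u))
      ({z} ∪ cl G (insert z T) y)
    have h5 := card_union_le ({z} : Finset V) (cl G (insert z T) y)
    rw [card_singleton] at h5
    have h6 := hz.2.2
    omega
  have hup : ∀ u ∈ C, (N.filter (fun z => z ∈ dset G y u)).card ≤ d := by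
    intro u hu
    by_cases h1 : y = u
    · have : N.filter (fun z => z ∈ dset G y u) = ∅ := by
        refine filter_eq_empty_iff.2 fun z _ hz => ?_
        rw [ARR_.mem_dset, h1] at hz
        exact hz.2.2 Iff.rfl
      rw [this]
      simp
    · rw [hCdef, ARR_.mem_cl] at hu
      have h2 := hNr y u hyT' (fun h => hu.1 (mem_union_left _ h)) h1
        (fun a ha => hu.2 a (mem_union_left _ ha))
      refine le_trans (card_le_card ?_) h2.le
      intro z hz
      exact (mem_filter.1 hz).2
  have hdc := Finset.sum_card_bipartiteAbove_eq_sum_card_bipartiteBelow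
    (s := N) (t := C) (fun z u => z ∈ dset G y u)
  have h1 : N.card * (C.card - 1 - 2 * g) ≤
      ∑ z ∈ N, (C.filter (fun u => z ∈ dset G y u)).card := by
    rw [← smul_eq_mul, ← Finset.sum_const]
    exact Finset.sum_le_sum hlow
  have h2 : ∑ u ∈ C, (N.filter (fun z => z ∈ dset G y u)).card ≤ C.card * d := by
    rw [← smul_eq_mul, ← Finset.sum_const]
    exact Finset.sum_le_sum hup
  have h3 : ∑ z ∈ N, (C.filter (fun u => z ∈ dset G y u)).card =
      ∑ u ∈ C, (N.filter (fun z => z ∈ dset G y u)).card := hdc
  have h4 : N.card * (C.card - 1 - 2 * g) ≤ C.card * d := by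
    rw [h3] at h1
    exact h1.trans h2
  have h5 : C.card ≤ 2 * (C.card - 1 - 2 * g) := by omega
  have h6 : C.card * N.card ≤ C.card * (2 * d) := by
    calc C.card * N.card ≤ (2 * (C.card - 1 - 2 * g)) * N.card := Nat.mul_le_mul_right _ h5
      _ = 2 * (N.card * (C.card - 1 - 2 * g)) := by ring
      _ ≤ 2 * (C.card * d) := Nat.mul_le_mul_left 2 h4
      _ = C.card * (2 * d) := by ring
  exact Nat.le_of_mul_le_mul_left h6 (by omega)

end Pool.Agent.NRP
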