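import Pool.Agent.NRP.Targets

/-!
# NRP, block ITR: all steps (MP_552896_co)
-/

set_option autoImplicit false

open Finset Classical

namespace Pool.Agent.NRP

open Pool.Agent.Lib.Recon Pool.Agent.RNB Pool.Agent.NRC Pool.Agent.NRQ

namespace ITR_

theorem co_mono {V : Type} [Fintype V] {G : SimpleGraph V} {T : Finset V} {c c' : ℝ}
    (h : Co G T c) (hc : c ≤ c') : Co G T c' := by
  cases h with
  | base h0 => exact Co.base (h0.trans hc)
  | step h1 h2 h3 h4 h5 => exact Co.step h1 h2 h3 h4 (h5.trans hc)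

theorem logb_nonneg (a : ℕ) : 0 ≤ Real.logb 2 (a : ℝ) := by
  rcases Nat.eq_zero_or_pos a with h | h
  · rw [h]
    simp
  · exact Real.logb_nonneg (by norm_num) (by exact_mod_cast h)

theorem ph_le (hPW : T_PW) {V : Type} [Fintype V] (ms : V → ℕ)
    (h : ∀ y, ms y = 0 ∨ KH ≤ ms y) : Ph ms ≤ 6 * Fintype.card V * pw KH := by
  obtain ⟨p1, -, p3⟩ := hPW
  have hKH : 1 ≤ KH := Nat.one_le_two_pow
  have h1 : ∀ y, 6 * pw (ms y) ≤ 6 * pw KH := by
    intro y
    rcases h y with h2 | h2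
    · rw [h2]
      have h3 : pw 0 = 0 := by simp [pw]
      rw [h3]
      have := (p3 KH).1
      linarith
    · have := p1 KH (ms y) hKH h2
      linarith
  unfold Ph
  calc ∑ y, 6 * pw (ms y) ≤ ∑ _y : V, 6 * pw KH := Finset.sum_le_sum fun y _ => h1 y
    _ = 6 * Fintype.card V * pw KH := by
        rw [Finset.sum_const, Finset.card_univ, nsmul_eq_mul]
        ring

theorem log_step {a b : ℕ} (ha : 1 ≤ a) (h : 2 * a ≤ b) :
    1 + Real.logb 2 (a : ℝ) ≤ Real.logb 2 (b : ℝ) := by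
  have ha' : (0 : ℝ) < a := by exact_mod_cast ha
  have h1 : Real.logb 2 (2 * (a : ℝ)) = 1 + Real.logb 2 (a : ℝ) := by
    rw [Real.logb_mul (by norm_num) ha'.ne', Real.logb_self_eq_one (by norm_num)]
  rw [← h1]
  refine Real.logb_le_logb_of_le (by norm_num) (by positivity) ?_
  exact_mod_cast h

end ITR_

open ITR_ in
theorem p_ITR (h1 : T_STP) (h2 : T_NUM) (h3 : T_PW) : T_ITR := by
  intro V _ G A T01 T1 T g1 qq h1' d M ms c hR hKK hdn hqq hM hCx hT1 hds hNr hMk hms hCo
  set n : ℝ := (Fintype.card V : ℝ) with hn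
  set ρ : ℝ := (1 + Real.logb 2 n) * (4 * g1 * n / qq) + (1 + Real.logb 2 qq) * (n / M) with hρ
  have hn0 : 0 ≤ n := Nat.cast_nonneg _
  have hln : 0 ≤ Real.logb 2 n := logb_nonneg _
  have hρ0 : 0 ≤ ρ := by
    have hlq : 0 ≤ Real.logb 2 (qq : ℝ) := logb_nonneg _
    positivity
  have hKKp : 1 ≤ KK := Nat.one_le_two_pow
  obtain ⟨pk, hpk⟩ : ∃ x : ℝ, x = pw KH := ⟨_, rfl⟩
  rw [← hpk]
  -- the claim
  have key : ∀ d : ℕ, KK ≤ d → d ≤ Fintype.card V → 2 * g1 + d ^ 2 + 2 ≤ qq →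
      ∀ (T : Finset V) (ms : V → ℕ) (c : ℝ), T1 ⊆ T → Nr G d T → Mk (kc G) T ms →
      (∀ y, ms y = 0 ∨ KH ≤ ms y) → Co G T (c + Ph ms) →
      (∃ (d' : ℕ) (T' : Finset V), KK ≤ d' ∧ d' ≤ d ∧ T ⊆ T' ∧ Rich G g1 qq A T' ∧
        Nr G d' T' ∧ Al G d' M T') ∨
      ∃ T' : Finset V, Dst G T' ∧ Co G T' (c + (36 / 40005 - 18 / (lam d : ℝ)) * n +
        (1 + Real.logb 2 d) * ρ + 6 * n * pk) := by
    intro d
    induction d using Nat.strong_induction_on with
    | _ d ih =>
      intro hKK hdn hqq T ms c hT1 hNr hMk hms hCo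
      obtain ⟨u1, u2, -, -, -, -, u7⟩ := h2 d hKK
      have hlam : (40005 : ℝ) ≤ (lam d : ℝ) := by exact_mod_cast u7
      have hlam0 : (0 : ℝ) < (lam d : ℝ) := by linarith
      have hld : 0 ≤ Real.logb 2 (d : ℝ) := logb_nonneg _
      rcases h1 V G A T01 T1 T g1 qq h1' d M ms c hR hKK hdn hqq hM hCx hT1 hds hNr hMk hms
        hCo with ⟨T2, a1, a2, a3, a4⟩ | ⟨T', ms', b1, b2, b3, b4, b5⟩
      · exact Or.inl ⟨d, T2, hKK, le_rfl, a1, a2, a3, a4⟩
      have hb5 : Co G T' ((c + 18 * n / (lam d : ℝ) + ρ) + Ph ms') := by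
        refine co_mono b5 (le_of_eq ?_)
        rw [hρ]
        ring
      by_cases hnx : KK ≤ nx d
      · have hlt : nx d < d := by omega
        have hq' : 2 * g1 + nx d ^ 2 + 2 ≤ qq := by
          have : nx d ^ 2 ≤ d ^ 2 := Nat.pow_le_pow_left (by omega) 2
          omega
        rcases ih (nx d) hlt hnx (by omega) hq' T' ms' (c + 18 * n / (lam d : ℝ) + ρ)
          (hT1.trans b1) b2 b3 b4 hb5 with ⟨d', T2, a1, a2, a3, a4, a5, a6⟩ | ⟨T2, a1, a2⟩
        · exact Or.inl ⟨d', T2, a1, by omega, b1.trans a3, a4, a5, a6⟩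
        · refine Or.inr ⟨T2, a1, co_mono a2 ?_⟩
          have hlog := log_step (a := nx d) (b := d) (by omega) u2
          have hnl : (0 : ℝ) < (lam (nx d) : ℝ) := by
            obtain ⟨-, -, -, -, -, -, v7⟩ := h2 (nx d) hnx
            have : (40005 : ℝ) ≤ (lam (nx d) : ℝ) := by exact_mod_cast v7
            linarith
          have hl2 : 2 * (lam (nx d) : ℝ) ≤ (lam d : ℝ) := by exact_mod_cast u1
          have hfr : 36 / (lam d : ℝ) ≤ 18 / (lam (nx d) : ℝ) := by
            rw [div_le_div_iff₀ hlam0 hnl]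
            linarith
          have e1 : (36 / (lam d : ℝ)) * n ≤ (18 / (lam (nx d) : ℝ)) * n :=
            mul_le_mul_of_nonneg_right hfr hn0
          have e2 : (1 + Real.logb 2 (nx d : ℝ)) * ρ ≤ Real.logb 2 (d : ℝ) * ρ :=
            mul_le_mul_of_nonneg_right hlog hρ0
          have e3 : 18 * n / (lam d : ℝ) = (18 / (lam d : ℝ)) * n := by ring
          have e4 : (36 / (lam d : ℝ)) * n = 2 * ((18 / (lam d : ℝ)) * n) := by ring
          rw [e3]
          have e5 : (36 / 40005 - 18 / (lam d : ℝ)) * n =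
            36 / 40005 * n - (18 / (lam d : ℝ)) * n := by ring
          have e6 : (36 / 40005 - 18 / (lam (nx d) : ℝ)) * n =
            36 / 40005 * n - (18 / (lam (nx d) : ℝ)) * n := by ring
          have e7 : (1 + Real.logb 2 (d : ℝ)) * ρ = ρ + Real.logb 2 (d : ℝ) * ρ := by ring
          rw [e5, e6, e7]
          linarith
      · refine Or.inr ⟨T', ?_, co_mono hb5 ?_⟩
        · intro u v hu hv huv
          by_contra hcon
          push Not at hcon
          have hf := b2 u v hu hv huv (fun a ha => hcon a ha)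
          have hg := hds u v huv
          omega
        · have hph := ph_le h3 ms' b4
          have e3 : 18 * n / (lam d : ℝ) = (18 / (lam d : ℝ)) * n := by ring
          have hfr : 18 / (lam d : ℝ) ≤ 18 / 40005 := by
            rw [div_le_div_iff₀ hlam0 (by norm_num)]
            linarith
          have e1 : (18 / (lam d : ℝ)) * n ≤ (18 / 40005) * n :=
            mul_le_mul_of_nonneg_right hfr hn0
          have e2 : 0 ≤ Real.logb 2 (d : ℝ) * ρ := mul_nonneg hld hρ0
          rw [e3]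
          rw [← hpk] at hph
          have e5 : (36 / 40005 - 18 / (lam d : ℝ)) * n =
            36 / 40005 * n - (18 / (lam d : ℝ)) * n := by ring
          have e7 : (1 + Real.logb 2 (d : ℝ)) * ρ = ρ + Real.logb 2 (d : ℝ) * ρ := by ring
          rw [e5, e7]
          linarith
  rcases key d hKK hdn hqq T ms c hT1 hNr hMk hms hCo with h | ⟨T', a1, a2⟩
  · exact Or.inl h
  · refine Or.inr ⟨T', a1, co_mono a2 ?_⟩
    have hlam0 : (0 : ℝ) ≤ 18 / (lam d : ℝ) := div_nonneg (by norm_num) (Nat.cast_nonneg _)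
    have e1 : (36 / 40005 - 18 / (lam d : ℝ)) * n ≤ n / 1000 := by
      have : (36 / 40005 - 18 / (lam d : ℝ)) * n ≤ (1 / 1000) * n :=
        mul_le_mul_of_nonneg_right (by linarith) hn0
      linarith
    linarith

end Pool.Agent.NRP
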