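import Pool.Agent.NRP.Targets

/-!
# NRP: LEV, terminals on one level
-/

set_option autoImplicit false

open Finset Classical

namespace Pool.Agent.NRP

open Pool.Agent.Lib.Recon Pool.Agent.RNB Pool.Agent.NRC Pool.Agent.NRQ

theorem LEV_mem_cl {V : Type} [Fintype V] {G : SimpleGraph V} {B : Finset V} {v y : V} :
    y ∈ cl G B v ↔ y ∉ B ∧ ∀ b ∈ B, (G.Adj b v ↔ G.Adj b y) := by
  unfold cl
  rw [mem_filter]
  exact ⟨fun h => h.2, fun h => ⟨mem_univ _, h⟩⟩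

theorem LEV_mem_cmp {V : Type} [Fintype V] {I : V → Finset V} {P : Finset V} {t y : V} :
    y ∈ cmp I P t ↔ Relation.ReflTransGen (fun a b => b ∈ P ∧ b ∈ I a) t y := by
  unfold cmp
  rw [mem_filter]
  exact ⟨fun h => h.2, fun h => ⟨mem_univ _, h⟩⟩

theorem LEV_cmp_sub {V : Type} [Fintype V] {I : V → Finset V} {P : Finset V} {t : V}
    (Q : Finset V) (ht : t ∈ Q) (hQ : ∀ y ∈ Q, ∀ z ∈ I y, z ∈ P → z ∈ Q) :
    ∀ y ∈ cmp I P t, y ∈ Q := by
  intro y hy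
  rw [LEV_mem_cmp] at hy
  induction hy with
  | refl => exact ht
  | tail _ hbc ih => exact hQ _ ih _ hbc.2 hbc.1

theorem LEV_conn {V : Type} [Fintype V] {I : V → Finset V} {P : Finset V} {t : V} :
    ∀ y, Relation.ReflTransGen (fun a b => b ∈ P ∧ b ∈ I a) t y →
      Relation.ReflTransGen (fun a b => b ∈ cmp I P t ∧ b ∈ I a) t y := by
  intro y hy
  induction hy with
  | refl => exact Relation.ReflTransGen.refl
  | tail hab hbc ih =>
    refine ih.tail ⟨?_, hbc.2⟩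
    rw [LEV_mem_cmp]
    exact hab.tail hbc

/-- the cost of the roots -/
theorem LEV_roots {V : Type} [Fintype V] (G : SimpleGraph V) (T0 : Finset V) (c ρ : ℝ)
    (hc : Co G T0 c) (Q : Finset V)
    (hQ : ∀ y ∈ Q, y ∉ T0 ∧ 1 + Real.logb 2 (kc G T0 y) ≤ ρ) :
    Co G (T0 ∪ Q) (c + ρ * (Q.card : ℝ)) := by
  induction Q using Finset.induction_on with
  | empty => simpa using hc
  | insert a s ha ih =>
    have h1 : Co G (T0 ∪ s) (c + ρ * (s.card : ℝ)) :=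
      ih (fun y hy => hQ y (mem_insert_of_mem hy))
    obtain ⟨ha1, ha2⟩ := hQ a (mem_insert_self _ _)
    have hk : 1 ≤ kc G T0 a := by
      unfold kc
      exact card_pos.2 ⟨a, LEV_mem_cl.2 ⟨ha1, fun b _ => Iff.rfl⟩⟩
    have h2 : T0 ∪ insert a s = insert a (T0 ∪ s) := by
      ext x
      simp only [mem_union, mem_insert]
      tauto
    rw [h2]
    refine Co.step (C := T0) (k := kc G T0 a) h1 subset_union_left hk le_rfl ?_
    rw [card_insert_of_notMem ha]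
    push_cast
    linarith

theorem p_LEV (h1 : T_CNX) (h2 : T_ROT) (h3 : T_SYS) : T_LEV := by
  intro V _ G g q h M A T0 R ms c ρ hLv hMk hfr hCo hgd
  by_cases hSc : ∃ Q, Sc (IN G (2 * g) A) (PL G g q A T0) M Q
  · exact Or.inl hSc
  right
  have hSy := h3 V G g q h A T0 hLv
  obtain ⟨Q, hQP, hQc, hQg, hQr⟩ := h2 V (IN G (2 * g) A) (PL G g q A T0) M
    (fun y => 1 + Real.logb 2 (kc G T0 y) ≤ ρ) hSy.sym
  have hPT : ∀ y ∈ PL G g q A T0, y ∉ T0 := by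
    intro y hy
    unfold PL at hy
    exact (mem_filter.1 hy).2
  have hT : Co G (T0 ∪ Q) ((c + Ph ms) + ρ * (Q.card : ℝ)) :=
    LEV_roots G T0 (c + Ph ms) ρ hCo Q (fun y hy => ⟨hPT y (hQP hy), hQg y hy⟩)
  have hT2 : Co G (T0 ∪ Q) ((c + ρ * (Q.card : ℝ)) + Ph ms) := by
    have he : (c + Ph ms) + ρ * (Q.card : ℝ) = (c + ρ * (Q.card : ℝ)) + Ph ms := by ring
    rw [← he]
    exact hT
  have hMk2 : Mk (kc G) (T0 ∪ Q) ms := fun y hy =>
    le_trans (hSy.anti T0 (T0 ∪ Q) y subset_union_left) (hMk y hy)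
  have hFr : Fr (IN G (2 * g) A) (PL G g q A T0) (T0 ∪ Q) q ms := fun y hy _ => hfr y hy
  have hRch : ∀ t ∈ PL G g q A T0,
      Rch (IN G (2 * g) A) (PL G g q A T0) (T0 ∪ Q) t := by
    intro t ht
    by_contra hno
    have hno' : ∀ y ∈ cmp (IN G (2 * g) A) (PL G g q A T0) t, y ∉ T0 ∪ Q ∧
        ∀ z ∈ IN G (2 * g) A y, z ∈ PL G g q A T0 := by
      intro y hy
      refine ⟨fun hyT => hno ⟨y, hy, Or.inl hyT⟩, fun z hz => ?_⟩
      by_contra hzP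
      exact hno ⟨y, hy, Or.inr ⟨z, hz, Or.inr hzP⟩⟩
    have hKP : cmp (IN G (2 * g) A) (PL G g q A T0) t ⊆ PL G g q A T0 :=
      LEV_cmp_sub _ ht (fun y _ z _ hz => hz)
    have hKcl : ∀ y ∈ cmp (IN G (2 * g) A) (PL G g q A T0) t,
        IN G (2 * g) A y ⊆ cmp (IN G (2 * g) A) (PL G g q A T0) t := by
      intro y hy z hz
      rw [LEV_mem_cmp] at hy ⊢
      exact hy.tail ⟨(hno' y (LEV_mem_cmp.2 hy)).2 z hz, hz⟩
    have htK : t ∈ cmp (IN G (2 * g) A) (PL G g q A T0) t :=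
      LEV_mem_cmp.2 Relation.ReflTransGen.refl
    have hM : M < (cmp (IN G (2 * g) A) (PL G g q A T0) t).card := by
      by_contra hle
      exact hSc ⟨_, hKP, not_lt.1 hle, hKcl, t, htK,
        fun y hy => LEV_conn y (LEV_mem_cmp.1 hy)⟩
    obtain ⟨y, hyK, hyg⟩ := hgd _ hKP hM hKcl
    obtain ⟨r, hrQ, hrK⟩ := hQr t ht hM ⟨y, hyK, hyg⟩
    exact (hno' r hrK).1 (mem_union_right _ hrQ)
  obtain ⟨T', ms', hTT', hRT', hMk', -, hNw, hCo'⟩ := h1 V (Co G) (kc G) (IN G (2 * g) A)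
    (PL G g q A T0) T0 (T0 ∪ Q) R (1 + Real.logb 2 q) (c + ρ * (Q.card : ℝ)) h q ms hSy
    subset_union_left (fun t _ ht => hRch t ht) hMk2 hFr hT2
  refine ⟨T', ms', Q.card, subset_union_left.trans hTT', hRT', hQc, hMk', hNw, ?_, hCo'⟩
  intro Q1 hQ1P hQ1n hQ1c
  obtain ⟨y, hy⟩ := hQ1n
  obtain ⟨y1, hy1, hy1'⟩ := hRch y (hQ1P hy)
  have hsub := LEV_cmp_sub (I := IN G (2 * g) A) (P := PL G g q A T0) Q1 hy
    (fun a ha z hz _ => hQ1c a ha hz)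
  have hy1Q := hsub y1 hy1
  rcases hy1' with h4 | ⟨z, hz, h4 | h4⟩
  · exact ⟨y1, hy1Q, hTT' h4⟩
  · exact ⟨z, hQ1c y1 hy1Q hz, hTT' h4⟩
  · exact absurd (hQ1P (hQ1c y1 hy1Q hz)) h4

end Pool.Agent.NRP
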