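import Pool.Agent.NRP.TargetsF

/-!
# NRP-LV1: the first level (assembly and numbers)

Project NRP (owner helper48), block by helper21.
-/

set_option autoImplicit false

open Finset Classical

namespace Pool.Agent.NRP

open Pool.Agent.Lib.Recon Pool.Agent.RNB Pool.Agent.NRC

namespace LV1_

theorem co_mono {V : Type} [Fintype V] {G : SimpleGraph V} {T : Finset V} {c c' : ℝ}
    (h : Co G T c) (hc : c ≤ c') : Co G T c' := by
  cases h with
  | base h0 => exact Co.base (h0.trans hc)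
  | step h1 h2 h3 h4 h5 => exact Co.step h1 h2 h3 h4 (h5.trans hc)

theorem Ph_zero {V : Type} [Fintype V] : Ph (fun _ : V => 0) = 0 := by
  unfold Ph pw
  simp

theorem pL_ge (K : ℕ) : ∃ n0 : ℕ, ∀ n : ℕ, n0 ≤ n → K ≤ pL n := by
  refine ⟨2 ^ K, fun n hn => ?_⟩
  have := Nat.le_log_of_pow_le (by norm_num : 1 < 2) hn
  unfold pL
  omega

theorem logb_le (q m : ℕ) (h : q ≤ 2 ^ m) : Real.logb 2 (q : ℝ) ≤ m := by
  rcases Nat.eq_zero_or_pos q with h0 | h0
  · rw [h0]
    simp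
  · have h1 : (q : ℝ) ≤ (2 : ℝ) ^ m := by exact_mod_cast h
    calc Real.logb 2 (q : ℝ) ≤ Real.logb 2 ((2 : ℝ) ^ m) :=
          Real.logb_le_logb_of_le (by norm_num) (by exact_mod_cast h0) h1
      _ = m := by
          rw [Real.logb_pow, Real.logb_self_eq_one (by norm_num), mul_one]

theorem logb_mono (a b : ℕ) (h : a ≤ b) : Real.logb 2 (a : ℝ) ≤ Real.logb 2 (b : ℝ) := by
  rcases Nat.eq_zero_or_pos a with h0 | h0
  · rw [h0]
    simp only [Nat.cast_zero, Real.logb_zero]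
    rcases Nat.eq_zero_or_pos b with h1 | h1
    · rw [h1]
      simp
    · exact Real.logb_nonneg (by norm_num) (by exact_mod_cast h1)
  · exact Real.logb_le_logb_of_le (by norm_num) (by exact_mod_cast h0) (by exact_mod_cast h)

theorem aux (n L m q K a e0 e1 e2 t r s e k x lq : ℝ) (hL : 80000 ≤ L) (hm : 64000 ≤ m)
    (hK : 60000 * K ≤ q) (ha0 : 0 ≤ a) (h0 : 0 ≤ e0) (h1 : 0 ≤ e1) (h2 : 0 ≤ e2) (ht0 : 0 ≤ t)
    (hs0 : 0 ≤ s) (he0 : 0 ≤ e) (hk0 : 0 ≤ k) (hx0 : 0 ≤ x)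
    (ha : a * L ^ 2 ≤ n) (hE0 : 4 * L ^ 6 * e0 ≤ 4 * n * L ^ 3)
    (hE1 : 4 * L ^ 6 * e1 ≤ 4 * n * L ^ 3) (hE2 : 4 * L ^ 6 * e2 ≤ 4 * n * L ^ 3)
    (ht : t ≤ a + e0 + e1 + e2) (hr : r ≤ 2 * L) (hs : 1000000 * L * s ≤ n) (he : q * e ≤ n)
    (hk : k * m ^ 2 ≤ n) (hx : x * m ^ 2 ≤ n) (hl : lq ≤ 2 * m) :
    r * t + r * s + 4 * lq * (k + x) + 6 * K * e ≤ n / 1000 := by
  have hL0 : 0 < L := by linarith
  have hm0 : 0 < m := by linarith
  have n0 : 0 ≤ n := le_trans (by positivity) ha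
  have hdiv : ∀ y : ℝ, 4 * L ^ 6 * y ≤ 4 * n * L ^ 3 → y * L ^ 3 ≤ n := by
    intro y h
    have h8 : (y * L ^ 3) * (4 * L ^ 3) ≤ n * (4 * L ^ 3) := by
      calc (y * L ^ 3) * (4 * L ^ 3) = 4 * L ^ 6 * y := by ring
        _ ≤ 4 * n * L ^ 3 := h
        _ = n * (4 * L ^ 3) := by ring
    exact le_of_mul_le_mul_right h8 (by positivity)
  have hsq : ∀ y : ℝ, 0 ≤ y → y * L ^ 3 ≤ n → 80000 * (y * L ^ 2) ≤ n := by
    intro y hy h
    calc 80000 * (y * L ^ 2) ≤ L * (y * L ^ 2) :=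
          mul_le_mul_of_nonneg_right hL (by positivity)
      _ = y * L ^ 3 := by ring
      _ ≤ n := h
  have hl1 : ∀ y : ℝ, 0 ≤ y → 80000 * (y * L) ≤ y * L ^ 2 := by
    intro y hy
    calc 80000 * (y * L) ≤ L * (y * L) := mul_le_mul_of_nonneg_right hL (by positivity)
      _ = y * L ^ 2 := by ring
  have c0 : 80000 * (80000 * (e0 * L)) ≤ n := by
    have := hsq e0 h0 (hdiv e0 hE0)
    have := hl1 e0 h0
    linarith
  have c1 : 80000 * (80000 * (e1 * L)) ≤ n := by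
    have := hsq e1 h1 (hdiv e1 hE1)
    have := hl1 e1 h1
    linarith
  have c2 : 80000 * (80000 * (e2 * L)) ≤ n := by
    have := hsq e2 h2 (hdiv e2 hE2)
    have := hl1 e2 h2
    linarith
  have ca : 80000 * (a * L) ≤ n := (hl1 a ha0).trans ha
  have ctL : t * L ≤ n / 40000 := by
    have h3 : t * L ≤ (a + e0 + e1 + e2) * L := mul_le_mul_of_nonneg_right ht hL0.le
    have h4 : (a + e0 + e1 + e2) * L = a * L + e0 * L + e1 * L + e2 * L := by ring
    linarith
  have ct : r * t ≤ n / 20000 := by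
    calc r * t ≤ 2 * L * t := mul_le_mul_of_nonneg_right hr ht0
      _ = 2 * (t * L) := by ring
      _ ≤ n / 20000 := by linarith
  have cs : r * s ≤ n / 500000 := by
    calc r * s ≤ 2 * L * s := mul_le_mul_of_nonneg_right hr hs0
      _ ≤ n / 500000 := by linarith
  have ckx : 4 * lq * (k + x) ≤ n / 4000 := by
    have h5 : 64000 * (m * (k + x)) ≤ m * (m * (k + x)) :=
      mul_le_mul_of_nonneg_right hm (by positivity)
    have h6 : m * (m * (k + x)) = k * m ^ 2 + x * m ^ 2 := by ring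
    calc 4 * lq * (k + x) ≤ 4 * (2 * m) * (k + x) := by gcongr
      _ = 8 * (m * (k + x)) := by ring
      _ ≤ n / 4000 := by linarith
  have ce : 6 * K * e ≤ n / 10000 := by
    have h7 : 60000 * K * e ≤ q * e := mul_le_mul_of_nonneg_right hK he0
    linarith
  linarith

theorem xb (n m Q q g d : ℕ) (x : ℝ) (hd : d = 16 * m ^ 3) (hQ : Q = 1 + q + g * (2 * g))
    (hx : x ≤ ((n : ℝ) * (1 + q + g * (2 * g))) * (1 - (d : ℝ) / (2 * n)) ^ (n / m ^ 2))
    (h7 : ((n : ℝ) * Q) * (1 - ((16 * m ^ 3 : ℕ) : ℝ) / (2 * n)) ^ (n / m ^ 2) * (m : ℝ) ^ 2 ≤ n) :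
    x * (m : ℝ) ^ 2 ≤ n := by
  rw [hQ, ← hd] at h7
  have h13 : ((1 + q + g * (2 * g) : ℕ) : ℝ) = 1 + (q : ℝ) + (g : ℝ) * (2 * (g : ℝ)) := by
    push_cast
    ring
  rw [h13] at h7
  have h14 : x * (m : ℝ) ^ 2 ≤ ((n : ℝ) * (1 + q + g * (2 * g))) *
      (1 - (d : ℝ) / (2 * n)) ^ (n / m ^ 2) * (m : ℝ) ^ 2 :=
    mul_le_mul_of_nonneg_right hx (by positivity)
  exact h14.trans h7

theorem big_m (m : ℕ) (h : KK ≤ 16 * m ^ 3) : 64000 ≤ m := by
  by_contra hc
  push Not at hc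
  have h1 : m ^ 3 ≤ 64000 ^ 3 := Nat.pow_le_pow_left hc.le 3
  have h2 : (16 : ℕ) * 64000 ^ 3 < 2 ^ 60 := by norm_num
  have h3 : (2 : ℕ) ^ 60 ≤ KK := by
    exact Nat.pow_le_pow_right (by norm_num) (by norm_num)
  omega

theorem big_q (q d : ℕ) (h : KK ≤ d) (hq : d ^ 2 ≤ q) : 60000 * KH ≤ q := by
  have h1 : 60000 * KH ≤ KK ^ 2 := by
    unfold KH KK
    calc 60000 * 2 ^ 9999 ≤ 2 ^ 16 * 2 ^ 9999 := Nat.mul_le_mul_right _ (by norm_num)
      _ = 2 ^ (16 + 9999) := by rw [pow_add]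
      _ ≤ 2 ^ (10000 * 2) := Nat.pow_le_pow_right (by norm_num) (by norm_num)
      _ = (2 ^ 10000) ^ 2 := by rw [pow_mul]
  exact h1.trans ((Nat.pow_le_pow_left h 2).trans hq)

/-- the start set -/
noncomputable def T1s {V : Type} [Fintype V] (G : SimpleGraph V) (g q : ℕ) (A : Finset V) :
    Finset V :=
  ((A ∪ EE G g A) ∪ (LA G g q A).filter (fun y => g < (IN G (2 * g) A y).card)) ∪
    univ.filter (fun y => g < (ZZ G A y).card)

theorem T1s_lv {V : Type} [Fintype V] (G : SimpleGraph V) (g q : ℕ) (A : Finset V)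
    (hg : 1 ≤ g) (hq : 64 * g ≤ q) : Lv G g q g A (T1s G g q A) where
  sub := by
    unfold T1s
    exact subset_union_left.trans subset_union_left
  g1 := hg
  h1 := hg
  q1 := by omega
  q2 := by omega
  ind := by
    intro y hy
    unfold PL at hy
    rw [mem_filter] at hy
    by_contra hc
    push Not at hc
    refine hy.2 ?_
    unfold T1s
    exact mem_union_left _ (mem_union_right _ (mem_filter.2 ⟨hy.1, hc⟩))

end LV1_

open LV1_ in
theorem p_LV1 (h1 : T_LVS) (h2 : T_CBS) (h3 : T_XBD) (hZ : Pool.Agent.NRQ.T_ZZC) (hN : T_NLV) :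
    T_LV1 := by
  obtain ⟨-, n1, hN⟩ := hN
  obtain ⟨n2, hP⟩ := pL_ge 80000
  refine ⟨n1 + n2 + 1, fun V _ G A hn hd hA hs => ?_⟩
  obtain ⟨hd1, hd2, hd3, -, hg1, -, -, -⟩ := hN (Fintype.card V) (by omega)
  have hL : 80000 ≤ pL (Fintype.card V) := hP _ (by omega)
  set n := Fintype.card V with hndef
  set g := pg n with hgdef
  set q := q1 n with hqdef
  have hqg : q = 64 * g * pL n ^ 3 := rfl
  have hgL : g = 4 * pL n ^ 6 := rfl
  have hq64 : 64 * g ≤ q := by
    rw [hqg]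
    exact Nat.le_mul_of_pos_right _ (by positivity)
  have hm : 64000 ≤ lam1 n := big_m _ hd1
  have hq0 : q ≠ 0 := by omega
  have hqm : q < 2 ^ lam1 n := Nat.lt_pow_succ_log_self (by norm_num) q
  have hn1 : 1 ≤ n := by omega
  have hnL : n < 2 ^ pL n := Nat.lt_pow_succ_log_self (by norm_num) n
  have hLv := T1s_lv G g q A hg1 hq64
  have hmain := h1 V G g q g (M1 n) (d1 n) (n / lam1 n ^ 2) A (T1s G g q A) (fun _ => 0)
    ((1 + Real.logb 2 (n : ℝ)) * (T1s G g q A).card) (1 + Real.logb 2 (n : ℝ)) hn1 hd2 hd hLv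
    (fun y hy => absurd rfl hy) (fun y => Or.inl rfl) (fun y _ => Or.inl rfl)
    (by
      rw [Ph_zero, add_zero]
      exact h2 V G _)
    (by
      intro Q _ hQM _
      have hQ : Q.Nonempty := by
        rw [← card_pos]
        omega
      obtain ⟨y, hy⟩ := hQ
      refine ⟨y, hy, ?_⟩
      have h5 : kc G (T1s G g q A) y ≤ n := by
        unfold kc
        exact card_le_univ _
      have := logb_mono _ _ h5
      linarith)
  rcases hmain with ⟨Q, hQ⟩ | ⟨T', ms', s, x, e, hT', hNr, hMs, hqe, hx, hMk, hmk, hCz, hCo⟩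
  · exact Or.inl ⟨T1s G g q A, Q, hQ⟩
  · refine Or.inr ⟨T1s G g q A, T', ms', ⟨hLv, fun y hy => ?_, hT', hCz⟩, hNr, hMk, hmk, ?_⟩
    · unfold T1s
      exact mem_union_right _ (mem_filter.2 ⟨mem_univ _, hy⟩)
    · refine co_mono hCo ?_
      have hgr : (g : ℝ) = 4 * (pL n : ℝ) ^ 6 := by
        rw [hgL]
        push_cast
        ring
      have hE0 : 4 * (pL n : ℝ) ^ 6 * ((EE G g A).card : ℝ) ≤ 4 * (n : ℝ) * (pL n : ℝ) ^ 3 := by
        have h6 : ((g * (EE G g A).card : ℕ) : ℝ) ≤ (sm G A : ℝ) :=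
          Nat.cast_le.2 (NRC.p_ESM V G g A)
        rw [Nat.cast_mul, hgr] at h6
        exact h6.trans hs
      have hE1 : 4 * (pL n : ℝ) ^ 6 *
          (((LA G g q A).filter (fun y => g < (IN G (2 * g) A y).card)).card : ℝ) ≤
          4 * (n : ℝ) * (pL n : ℝ) ^ 3 := by
        have h6 : ((g * ((LA G g q A).filter
            (fun y => g < (IN G (2 * g) A y).card)).card : ℕ) : ℝ) ≤ (sm G A : ℝ) :=
          Nat.cast_le.2 (NRC.p_EHI V G g q g A (by omega))
        rw [Nat.cast_mul, hgr] at h6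
        exact h6.trans hs
      have hE2 : 4 * (pL n : ℝ) ^ 6 *
          ((univ.filter (fun y => g < (ZZ G A y).card)).card : ℝ) ≤
          4 * (n : ℝ) * (pL n : ℝ) ^ 3 := by
        have h6 : ((g * (univ.filter (fun y => g < (ZZ G A y).card)).card : ℕ) : ℝ) ≤
            (sm G A : ℝ) := Nat.cast_le.2 (hZ V G g A)
        rw [Nat.cast_mul, hgr] at h6
        exact h6.trans hs
      have hAL : (A.card : ℝ) * (pL n : ℝ) ^ 2 ≤ (n : ℝ) := by
        have h6 : A.card * pL n ^ 2 ≤ n :=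
          (Nat.mul_le_mul_right _ hA).trans (Nat.div_mul_le_self _ _)
        exact_mod_cast h6
      have hcard : ((T1s G g q A).card : ℝ) ≤ (A.card : ℝ) + ((EE G g A).card : ℝ) +
          (((LA G g q A).filter (fun y => g < (IN G (2 * g) A y).card)).card : ℝ) +
          ((univ.filter (fun y => g < (ZZ G A y).card)).card : ℝ) := by
        have h6 : (T1s G g q A).card ≤ A.card + (EE G g A).card +
            ((LA G g q A).filter (fun y => g < (IN G (2 * g) A y).card)).card +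
            (univ.filter (fun y => g < (ZZ G A y).card)).card := by
          unfold T1s
          refine (card_union_le _ _).trans (Nat.add_le_add_right ?_ _)
          refine (card_union_le _ _).trans (Nat.add_le_add_right ?_ _)
          exact card_union_le _ _
        exact_mod_cast h6
      have hxx : (x : ℝ) * (lam1 n : ℝ) ^ 2 ≤ (n : ℝ) := by
        have h7 := h3 n (lam1 n) (1 + q + g * (2 * g)) (by omega) hd2 (by
          have h8 : g ≤ 2 ^ lam1 n := by omega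
          have h9 : g * (2 * g) ≤ 2 ^ lam1 n * (2 * 2 ^ lam1 n) :=
            Nat.mul_le_mul h8 (Nat.mul_le_mul_left 2 h8)
          have h10 : (2 : ℕ) ^ (2 * lam1 n + 2) = 4 * (2 ^ lam1 n * 2 ^ lam1 n) := by
            rw [pow_add, two_mul, pow_add]
            ring
          have h11 : 1 + q ≤ 2 ^ lam1 n * 2 ^ lam1 n := by
            calc 1 + q ≤ 2 ^ lam1 n := by omega
              _ = 2 ^ lam1 n * 1 := by ring
              _ ≤ _ := Nat.mul_le_mul_left _ Nat.one_le_two_pow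
          rw [h10]
          have h12 : 2 ^ lam1 n * (2 * 2 ^ lam1 n) = 2 * (2 ^ lam1 n * 2 ^ lam1 n) := by ring
          rw [h12] at h9
          omega)
        exact xb n (lam1 n) _ q g (d1 n) x rfl rfl hx h7
      have hkk : ((n / lam1 n ^ 2 : ℕ) : ℝ) * (lam1 n : ℝ) ^ 2 ≤ (n : ℝ) := by
        have h6 : n / lam1 n ^ 2 * lam1 n ^ 2 ≤ n := Nat.div_mul_le_self _ _
        exact_mod_cast h6
      have hss : 1000000 * (pL n : ℝ) * (s : ℝ) ≤ (n : ℝ) := by
        unfold M1 at hMs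
        exact_mod_cast hMs
      have hee : (q : ℝ) * (e : ℝ) ≤ (n : ℝ) := by exact_mod_cast hqe
      have hKr : 60000 * (KH : ℝ) ≤ (q : ℝ) := by
        have h6 : 60000 * KH ≤ q := big_q q (d1 n) hd1 (by omega)
        exact_mod_cast h6
      have hrho : 1 + Real.logb 2 (n : ℝ) ≤ 2 * (pL n : ℝ) := by
        have h6 := logb_le n (pL n) hnL.le
        have h7 : (1 : ℝ) ≤ (pL n : ℝ) := by exact_mod_cast (by omega : 1 ≤ pL n)
        linarith
      have hlq : 1 + Real.logb 2 (q : ℝ) ≤ 2 * (lam1 n : ℝ) := by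
        have h6 := logb_le q (lam1 n) hqm.le
        have h7 : (1 : ℝ) ≤ (lam1 n : ℝ) := by exact_mod_cast (by omega : 1 ≤ lam1 n)
        linarith
      have hfin := aux n (pL n) (lam1 n) q KH A.card _ _ _ (T1s G g q A).card
        (1 + Real.logb 2 (n : ℝ)) s e ((n / lam1 n ^ 2 : ℕ) : ℝ) x (1 + Real.logb 2 (q : ℝ))
        (by exact_mod_cast hL) (by exact_mod_cast hm) hKr (Nat.cast_nonneg _)
        (Nat.cast_nonneg _) (Nat.cast_nonneg _) (Nat.cast_nonneg _) (Nat.cast_nonneg _)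
        (Nat.cast_nonneg _) (Nat.cast_nonneg _) (Nat.cast_nonneg _) (Nat.cast_nonneg _) hAL hE0
        hE1 hE2 hcard hrho hss hee hkk hxx hlq
      linarith

end Pool.Agent.NRP
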