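import Pool.Agent.NRP.Targets

/-!
# NRP, target LVS: one level (assembly)
-/

set_option autoImplicit false

open Finset Classical

namespace Pool.Agent.NRP

open Pool.Agent.Lib.Recon Pool.Agent.RNB Pool.Agent.NRC Pool.Agent.NRQ

namespace LVS_

variable {V : Type} [Fintype V]

theorem co_mono {G : SimpleGraph V} {T : Finset V} {c c' : ℝ} (h : Co G T c) (hc : c ≤ c') :
    Co G T c' := by
  cases h with
  | base h0 => exact Co.base (h0.trans hc)
  | step h0 h1 h2 h3 h4 => exact Co.step h0 h1 h2 h3 (h4.trans hc)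

theorem two_pow (a b : ℕ) (h : a = b + 1) : (2 : ℕ) ^ a = 2 * 2 ^ b := by
  rw [h, pow_succ']

theorem kk_eq : KK = 2 * KH := by
  unfold KK KH
  have h : (10000 : ℕ) = 9999 + 1 := by norm_num
  rw [h, pow_succ']

theorem one_le (a : ℕ) : 1 ≤ 2 ^ a := Nat.one_le_two_pow

theorem kh_pos : 1 ≤ KH := one_le 9999

end LVS_

open LVS_ in
theorem p_LVS (h1 : T_LEV) (h2 : T_SLR) (h3 : T_NRD) (h4 : T_RMK) : T_LVS := by
  intro V _ G g q h M d k A T0 ms c ρ hn hdn hK hLv hMk hms hq hCo hcl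
  obtain ⟨R0, X, hR0, hX, hs1, hs2⟩ := h2 V G g q h d k A T0 hn hdn hLv
  rcases h1 V G g q h M A T0 (R0 ∪ X) ms c ρ hLv hMk hq hCo hcl with
    hS | ⟨T', ms', s, hT, hR, hs, hMk', hNw, hCz, hCo'⟩
  · exact Or.inl hS
  obtain ⟨ms'', hMk'', hms'', hPh⟩ := h4 V (kc G) (IN G (2 * g) A) (PL G g q A T0) T' ms ms' KH
    kh_pos hms hNw hMk'
  refine Or.inr ⟨T', ms'', s, X.card,
    ((PL G g q A T0).filter (fun x => (IN G (2 * g) A x).card < KH)).card, hT,
    h3 V G g q d A T0 R0 X T' hLv.sub hT (subset_union_left.trans hR)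
      (subset_union_right.trans hR) hs1 hs2, hs, ?_, hX, hMk'', hms'', hCz, ?_⟩
  · refine le_trans (Nat.mul_le_mul_left q (Finset.card_le_card ?_))
      (p_ELO V G g q KK A hK)
    intro x hx
    rw [mem_filter] at hx ⊢
    obtain ⟨hx1, hx2⟩ := hx
    unfold PL at hx1
    rw [mem_filter] at hx1
    refine ⟨hx1.1, ?_⟩
    rw [kk_eq]
    omega
  · refine co_mono hCo' ?_
    have e1 : ((R0 ∪ X).card : ℝ) ≤ k + X.card := by
      have e2 : (R0 ∪ X).card ≤ k + X.card :=
        (Finset.card_union_le _ _).trans (Nat.add_le_add_right hR0 _)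
      exact_mod_cast e2
    have e3 : (0 : ℝ) ≤ 4 * (1 + Real.logb 2 q) := by
      have hq1 : 1 ≤ q := by
        have := hLv.q1
        omega
      have : 0 ≤ Real.logb 2 (q : ℝ) :=
        Real.logb_nonneg (by norm_num) (by exact_mod_cast hq1)
      linarith
    have e4 := mul_le_mul_of_nonneg_left e1 e3
    linarith

end Pool.Agent.NRP
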