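import Pool.Agent.NRP.Targets

/-!
# LVT: the levels after the first satisfy the hypotheses of a level
-/

set_option autoImplicit false

open Finset Classical

namespace Pool.Agent.NRP

open Pool.Agent.Lib.Recon Pool.Agent.RNB Pool.Agent.NRC

namespace LVT_

theorem hKK : 128 ≤ KK := by
  have h : 2 ^ 7 ≤ 2 ^ 10000 := Nat.pow_le_pow_right (by norm_num) (by norm_num)
  unfold KK
  exact h

theorem pw4 (d : ℕ) (hd : 128 ≤ d) : 4 * d ^ 2 + 2 * d + 2 ≤ d ^ 4 ∧ 16 * (2 * d) ≤ d ^ 4 := by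
  have h1 : 128 * d ≤ d ^ 2 := by nlinarith
  have h2 : 128 * d ^ 2 ≤ d ^ 4 := by nlinarith [sq_nonneg d]
  constructor
  · nlinarith
  · nlinarith

end LVT_

theorem p_LVT (h1 : T_IND) : T_LVT := by
  intro V _ G d T hd hN
  have hd' : 128 ≤ d := LVT_.hKK.trans hd
  obtain ⟨e1, e2⟩ := LVT_.pw4 d hd'
  refine ⟨Finset.Subset.refl _, Nat.one_le_pow _ _ (by omega), by omega, by omega, e2, ?_⟩
  intro y hy
  exact h1 V G (d ^ 2) (d ^ 4) d T (by omega) hN y (Finset.mem_filter.1 hy).1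

end Pool.Agent.NRP
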