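import Pool.Agent.NRP.TargetsF

/-!
# NRP-MAI: the theorem for one graph
-/

set_option autoImplicit false

open Finset Classical

namespace Pool.Agent.NRP

open Pool.Agent.Lib.Recon Pool.Agent.RNB Pool.Agent.NRC Pool.Agent.NRQ

namespace MAI_

theorem two_le {g q : ℕ} (h : 3 * g + 1 ≤ q) : 2 * g ≤ q := by omega

theorem eight_le_KK : 8 ≤ KK := by
  unfold KK
  calc 8 = 2 ^ 3 := by norm_num
    _ ≤ 2 ^ 10000 := Nat.pow_le_pow_right (by norm_num) (by norm_num)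

theorem nums {g q Q d d' : ℕ} (a6 : 2 * d ^ 2 + 1 ≤ 3 * g) (a7 : 3 * g + 1 ≤ q)
    (hQ : Q = q + g * (g + 5)) (h8 : 8 ≤ d') (b2 : d' ≤ d) :
    1 ≤ d' ^ 2 ∧ 2 * d' ^ 2 + 1 ≤ 3 * g ∧ q + g * (g + 1) ≤ Q ∧ 4 * g ≤ Q ∧
      8 * d' ^ 2 ≤ d' ^ 4 := by
  have e1 : 1 ≤ d' ^ 2 := Nat.one_le_pow _ _ (by omega)
  have e2 : d' ^ 2 ≤ d ^ 2 := Nat.pow_le_pow_left b2 2
  have e3 : 8 * d' ^ 2 ≤ d' ^ 4 := by
    have : 8 ≤ d' ^ 2 := by nlinarith
    calc 8 * d' ^ 2 ≤ d' ^ 2 * d' ^ 2 := Nat.mul_le_mul_right _ this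
      _ = d' ^ 4 := by ring
  have e5 : q + g * (g + 1) ≤ Q := by
    rw [hQ]
    exact Nat.add_le_add_left (Nat.mul_le_mul_left _ (by omega)) _
  have e6 : 4 * g ≤ Q := by
    rw [hQ]
    nlinarith
  exact ⟨e1, by omega, e5, e6, e3⟩

theorem nr_mono {V : Type} [Fintype V] {G : SimpleGraph V} {d d' : ℕ} {T : Finset V}
    (h : Nr G d' T) (hd : d' ≤ d) : Nr G d T :=
  fun u v hu hv huv ha => (h u v hu hv huv ha).trans_le hd

theorem bs_of {V : Type} [Fintype V] {G : SimpleGraph V} {A T01 T1 T : Finset V} {g qq h : ℕ}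
    (hx : Cx G A T01 T1 g qq h) (hT : T1 ⊆ T) : Bs G g h A T :=
  ⟨hx.lv.sub.trans (hx.sub.trans hT), fun y hy => hT (hx.sub (hx.bad y hy))⟩

end MAI_

open MAI_ in
/-- The theorem for one graph. -/
theorem p_MAI (h1 : T_LV1) (h2 : T_ITR) (h3 : T_NLV) (h4 : T_DON)
    (hA : Pool.Agent.NRQ.T_AL1) (hB : Pool.Agent.NRQ.T_BET) (hR : Pool.Agent.NRQ.T_RIC) :
    T_MAI := by
  obtain ⟨n1, H1⟩ := h1
  obtain ⟨hpw, n3, H3⟩ := h3
  obtain ⟨n4, H4⟩ := h4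
  refine ⟨max n1 (max n3 n4), fun V _ G H hn hc hni hKK A hA1 hA2 => ?_⟩
  have hn1 : n1 ≤ Fintype.card V := (le_max_left _ _).trans hn
  have hn3 : n3 ≤ Fintype.card V := (le_max_left _ _).trans ((le_max_right _ _).trans hn)
  have hn4 : n4 ≤ Fintype.card V := (le_max_right _ _).trans ((le_max_right _ _).trans hn)
  obtain ⟨a1, a2, a3, a4, a5, a6, a7, a8⟩ := H3 (Fintype.card V) hn3
  rcases H1 V G A hn1 hKK hA1 hA2 with ⟨T01, Q, hQ⟩ | ⟨T01, T1, ms, hx, hNr, hMk, hKH, hCo⟩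
  · obtain ⟨v, hv⟩ := hA V G (pg (Fintype.card V)) (q1 (Fintype.card V))
      (M1 (Fintype.card V)) A T01 Q a5 a7 hQ
    exact ⟨v, Or.inl hv⟩
  · have hR' : ∀ T : Finset V, A ∪ EE G (pg (Fintype.card V)) A ⊆ T → ∃ T' : Finset V,
        T ⊆ T' ∧ Rich G (pg (Fintype.card V)) (q1 (Fintype.card V)) A T' ∧
        q1 (Fintype.card V) * (T' \ T).card ≤ 4 * pg (Fintype.card V) * Fintype.card V :=
      fun T hT => hR V G _ _ A T (two_le a7) hT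
    rcases h2 V G A T01 T1 T1 (pg (Fintype.card V)) (q1 (Fintype.card V))
      (pg (Fintype.card V)) (d1 (Fintype.card V)) (M2 (Fintype.card V)) ms
      (Fintype.card V / 1000) hR' a1 a2 a3 a4 hx subset_rfl hKK hNr hMk hKH hCo with
      ⟨d', T', b1, b2, b3, b4, b5, Q, hQ⟩ | ⟨T', hD, hC⟩
    · obtain ⟨e1, e2, e5, e6, e3⟩ := nums a6 a7 (Q := q2 (Fintype.card V)) rfl
        (eight_le_KK.trans b1) b2
      obtain ⟨v, hv⟩ := hB V G (pg (Fintype.card V)) (pg (Fintype.card V))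
        (q1 (Fintype.card V)) (q2 (Fintype.card V)) (d1 (Fintype.card V)) (d' ^ 2) (d' ^ 4)
        (M2 (Fintype.card V)) A T' (T' ∪ EE G (d' ^ 2) T') Q a5 e1 e2 a7 e5 e6 e3
        (bs_of hx b3) b4 (nr_mono b5 b2) subset_rfl hQ
      exact ⟨v, Or.inr hv⟩
    · exfalso
      refine hni (H4 V G H T' _ hn4 hc hD hC ?_)
      have hn0 : (0 : ℝ) ≤ Fintype.card V := Nat.cast_nonneg _
      have h5 : (Fintype.card V : ℝ) * (6 * pw KH) ≤ Fintype.card V * (1 / 1000) :=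
        mul_le_mul_of_nonneg_left hpw hn0
      linarith

end Pool.Agent.NRP
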