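import Pool.Agent.NRP.TargetsF

/-!
# NRP: NBQ, numbers (helper17)
-/

set_option autoImplicit false

open Finset Classical

namespace Pool.Agent.NRP

open Pool.Agent.NRC

namespace NBQ_

theorem exists_l0 : ∃ l0 : ℕ, ∀ l ≥ l0, 8800000 * l ^ 7 ≤ 2 ^ l := by
  have h := tendsto_pow_const_div_const_pow_of_one_lt 7 (r := (2 : ℝ)) (by norm_num)
  have h1 := h.eventually (gt_mem_nhds (show (0 : ℝ) < 1 / 8800000 by norm_num))
  obtain ⟨l0, hl⟩ := Filter.eventually_atTop.1 h1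
  refine ⟨l0, fun l hl' => ?_⟩
  have h2 := hl l hl'
  rw [div_lt_iff₀ (by positivity)] at h2
  have h3 : (8800000 * (l : ℝ) ^ 7) ≤ 2 ^ l := by linarith
  exact_mod_cast h3

theorem two_pow_mono {a b : ℕ} (h : a ≤ b) : (2 : ℕ) ^ a ≤ 2 ^ b :=
  Nat.pow_le_pow_right (by norm_num) h

theorem fin (n a : ℕ) (h2 : 2 ≤ n) : 4 * n ^ 2 * n ^ a + 2 * n ^ 2 * n ^ 2 ≤ n ^ (a + 6) := by
  have h4 : 4 ≤ n ^ 2 := by nlinarith
  have h0 : 1 ≤ n ^ a := Nat.one_le_pow _ _ (by omega)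
  have h5 : 1 ≤ n ^ 2 := by omega
  have h1 : 2 * n ^ 2 * n ^ 2 ≤ 2 * (n ^ 2 * n ^ 2 * n ^ a) := by
    calc 2 * n ^ 2 * n ^ 2 = 2 * (n ^ 2 * n ^ 2 * 1) := by ring
      _ ≤ _ := by gcongr
  have h3 : 4 * n ^ 2 * n ^ a ≤ n ^ 2 * n ^ 2 * n ^ a := by gcongr
  have h6 : 4 * (n ^ 2 * n ^ 2 * n ^ a) ≤ n ^ 2 * (n ^ 2 * n ^ 2 * n ^ a) :=
    Nat.mul_le_mul_right _ h4
  have h7 : n ^ (a + 6) = n ^ 2 * (n ^ 2 * n ^ 2 * n ^ a) := by ring
  rw [h7]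
  generalize n ^ 2 * n ^ 2 * n ^ a = X at *
  omega

theorem pow_b (b L n : ℕ) (h : 2 ^ L ≤ n ^ 2) : 2 ^ (b * L) ≤ n ^ (2 * b) := by
  rw [mul_comm b L, pow_mul, pow_mul n]
  exact Nat.pow_le_pow_left h _

/-- the bounds of the parameters -/
theorem bounds (n : ℕ) : pg n ≤ 2 ^ (8 * pl n) ∧ q2 n ≤ 2 ^ (18 * pl n) ∧
    d1 n ≤ 100000 * pl n ^ 3 ∧ d1 n ≤ 2 ^ (20 * pl n) := by
  have hl1 : 1 ≤ pl n := by
    unfold pl
    omega
  have hL : pL n ≤ 2 ^ pl n := by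
    unfold pl
    exact (Nat.lt_pow_succ_log_self (by norm_num) _).le
  generalize hl : pl n = l at *
  have hg6 : pg n ≤ 2 ^ (6 * l + 2) := by
    unfold pg
    calc 4 * pL n ^ 6 ≤ 4 * (2 ^ l) ^ 6 := by gcongr
      _ = 2 ^ (6 * l + 2) := by
          rw [← pow_mul, pow_add, mul_comm l 6]
          ring
  have hg : pg n ≤ 2 ^ (8 * l) := hg6.trans (two_pow_mono (by omega))
  have hq1 : q1 n ≤ 2 ^ (9 * l + 8) := by
    unfold q1
    calc 64 * pg n * pL n ^ 3 ≤ 64 * 2 ^ (6 * l + 2) * (2 ^ l) ^ 3 := by gcongr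
      _ = 2 ^ (9 * l + 8) := by
          rw [← pow_mul, pow_add, pow_add, mul_comm l 3, show 9 * l = 6 * l + 3 * l by ring,
            pow_add]
          ring
  have hlam : lam1 n ≤ 18 * l := by
    unfold lam1
    have h1 := Nat.log_mono_right (b := 2) hq1
    rw [Nat.log_pow (by norm_num)] at h1
    omega
  have hd : d1 n ≤ 100000 * l ^ 3 := by
    unfold d1
    calc 16 * lam1 n ^ 3 ≤ 16 * (18 * l) ^ 3 := by gcongr
      _ = 93312 * l ^ 3 := by ring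
      _ ≤ 100000 * l ^ 3 := by gcongr; norm_num
  have hq : q2 n ≤ 2 ^ (18 * l) := by
    unfold q2
    have h5 : 5 ≤ 2 ^ (8 * l) := by
      calc 5 ≤ 2 ^ 8 := by norm_num
        _ ≤ 2 ^ (8 * l) := two_pow_mono (by omega)
    have h6 : pg n * (pg n + 5) ≤ 2 ^ (17 * l) := by
      calc pg n * (pg n + 5) ≤ 2 ^ (8 * l) * (2 ^ (8 * l) + 2 ^ (8 * l)) := by gcongr
        _ = 2 ^ (16 * l + 1) := by
            rw [show 16 * l + 1 = 8 * l + 8 * l + 1 by ring, pow_succ, pow_add]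
            ring
        _ ≤ 2 ^ (17 * l) := two_pow_mono (by omega)
    have h7 : q1 n ≤ 2 ^ (17 * l) := hq1.trans (two_pow_mono (by omega))
    calc q1 n + pg n * (pg n + 5) ≤ 2 ^ (17 * l) + 2 ^ (17 * l) := Nat.add_le_add h7 h6
      _ = 2 ^ (17 * l + 1) := by ring
      _ ≤ 2 ^ (18 * l) := two_pow_mono (by omega)
  refine ⟨hg, hq, hd, ?_⟩
  calc d1 n ≤ 100000 * l ^ 3 := hd
    _ ≤ 2 ^ 17 * (2 ^ l) ^ 3 := by
        gcongr
        · norm_num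
        · exact Nat.lt_two_pow_self.le
    _ = 2 ^ (17 + 3 * l) := by rw [← pow_mul, pow_add, mul_comm l 3]
    _ ≤ 2 ^ (20 * l) := two_pow_mono (by omega)

/-- the number of codes of the second kind -/
theorem codes (n : ℕ) : (2 * (pg n + pg n * (2 * pg n) * d1 n + q2 n * d1 n + 1) ^ (M2 n) + 1) ^
    (d1 n) ≤ 2 ^ (4400000 * pl n ^ 7) := by
  have hl1 : 1 ≤ pl n := by
    unfold pl
    omega
  obtain ⟨hg, hq, hd, hd2⟩ := bounds n
  unfold M2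
  generalize pl n = l at *
  have hD : pg n + pg n * (2 * pg n) * d1 n + q2 n * d1 n + 1 ≤ 2 ^ (42 * l) := by
    have e1 : pg n ≤ 2 ^ (40 * l) := hg.trans (two_pow_mono (by omega))
    have e2 : pg n * (2 * pg n) * d1 n ≤ 2 ^ (40 * l) := by
      calc pg n * (2 * pg n) * d1 n ≤ 2 ^ (8 * l) * (2 * 2 ^ (8 * l)) * 2 ^ (20 * l) := by
            gcongr
        _ = 2 ^ (8 * l + 8 * l + 20 * l + 1) := by
            rw [pow_add, pow_add, pow_add]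
            ring
        _ ≤ 2 ^ (40 * l) := two_pow_mono (by omega)
    have e3 : q2 n * d1 n ≤ 2 ^ (40 * l) := by
      calc q2 n * d1 n ≤ 2 ^ (18 * l) * 2 ^ (20 * l) := by gcongr
        _ = 2 ^ (18 * l + 20 * l) := by rw [pow_add]
        _ ≤ 2 ^ (40 * l) := two_pow_mono (by omega)
    have e4 : 1 ≤ 2 ^ (40 * l) := Nat.one_le_two_pow
    calc _ ≤ 4 * 2 ^ (40 * l) := by omega
      _ = 2 ^ (40 * l + 2) := by ring
      _ ≤ 2 ^ (42 * l) := two_pow_mono (by omega)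
  have h3 : 1 ≤ l ^ 4 := Nat.one_le_pow _ _ hl1
  have hE : 2 * (pg n + pg n * (2 * pg n) * d1 n + q2 n * d1 n + 1) ^ (l ^ 3) + 1 ≤
      2 ^ (44 * l ^ 4) := by
    have e1 : (pg n + pg n * (2 * pg n) * d1 n + q2 n * d1 n + 1) ^ (l ^ 3) ≤
        2 ^ (42 * l ^ 4) := by
      calc _ ≤ (2 ^ (42 * l)) ^ (l ^ 3) := Nat.pow_le_pow_left hD _
        _ = 2 ^ (42 * l ^ 4) := by
            rw [← pow_mul]
            congr 1
            ring
    have e2 : 1 ≤ 2 ^ (42 * l ^ 4) := Nat.one_le_two_pow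
    calc _ ≤ 4 * 2 ^ (42 * l ^ 4) := by omega
      _ = 2 ^ (42 * l ^ 4 + 2) := by ring
      _ ≤ 2 ^ (44 * l ^ 4) := two_pow_mono (by omega)
  calc _ ≤ (2 ^ (44 * l ^ 4)) ^ d1 n := Nat.pow_le_pow_left hE _
    _ = 2 ^ (44 * l ^ 4 * d1 n) := by rw [← pow_mul]
    _ ≤ 2 ^ (4400000 * l ^ 7) := by
        refine two_pow_mono ?_
        calc 44 * l ^ 4 * d1 n ≤ 44 * l ^ 4 * (100000 * l ^ 3) := Nat.mul_le_mul_left _ hd
          _ = 4400000 * l ^ 7 := by ring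

end NBQ_

open NBQ_ in
theorem p_NBQ : T_NBQ := by
  obtain ⟨l0, hl0⟩ := exists_l0
  refine ⟨2 * 1000000 + 6, 2 ^ (2 ^ l0), fun n hn => ?_⟩
  have hn2 : 2 ≤ n := by
    calc 2 = 2 ^ 1 := (pow_one 2).symm
      _ ≤ 2 ^ (2 ^ l0) := two_pow_mono Nat.one_le_two_pow
      _ ≤ n := hn
  have hlog : 2 ^ l0 ≤ Nat.log 2 n := by
    have h1 := Nat.log_mono_right (b := 2) hn
    rwa [Nat.log_pow (by norm_num)] at h1
  have hL : 2 ^ l0 ≤ pL n := by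
    unfold pL
    omega
  have hl : l0 ≤ pl n := by
    unfold pl
    have h1 := Nat.log_mono_right (b := 2) hL
    rw [Nat.log_pow (by norm_num)] at h1
    omega
  have h2 := hl0 _ hl
  have h3 : 2 ^ pl n ≤ 2 * pL n := by
    unfold pl
    rw [pow_succ]
    have h4 := Nat.pow_log_le_self 2 (show pL n ≠ 0 by unfold pL; omega)
    omega
  have h4 : 4400000 * pl n ^ 7 ≤ pL n := by omega
  have h5 : 2 ^ pL n ≤ n ^ 2 := by
    unfold pL
    rw [pow_succ]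
    have h6 := Nat.pow_log_le_self 2 (show n ≠ 0 by omega)
    nlinarith
  have h6 : (2 * (pg n + pg n * (2 * pg n) * d1 n + q2 n * d1 n + 1) ^ (M2 n) + 1) ^ (d1 n) ≤
      n ^ 2 := (codes n).trans ((two_pow_mono h4).trans h5)
  have h7 : 2 ^ M1 n ≤ n ^ (2 * 1000000) := by
    unfold M1
    exact pow_b _ _ _ h5
  unfold NN
  calc _ ≤ 4 * n ^ 2 * n ^ (2 * 1000000) + 2 * n ^ 2 * n ^ 2 := by gcongr
    _ ≤ _ := fin n _ hn2

end Pool.Agent.NRP
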