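import Pool.Agent.NRP.Targets

/-!
# NRP, NLV: numbers
-/

set_option autoImplicit false

open Finset Classical

namespace Pool.Agent.NRP

open Pool.Agent.Lib.Recon Pool.Agent.RNB Pool.Agent.NRC Pool.Agent.NRQ

namespace NLV_

theorem ex_n0 (N : ℕ) : ∃ n0 : ℕ, ∀ n : ℕ, n0 ≤ n → N ≤ pl n := by
  refine ⟨2 ^ (2 ^ N), fun n hn => ?_⟩
  have h1 : 2 ^ N ≤ Nat.log 2 n := Nat.le_log_of_pow_le (by norm_num) hn
  have h2 : 2 ^ N ≤ pL n := by
    unfold pL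
    exact h1.trans (Nat.le_succ _)
  have h3 : N ≤ Nat.log 2 (pL n) := Nat.le_log_of_pow_le (by norm_num) h2
  unfold pl
  exact h3.trans (Nat.le_succ _)

theorem pow12 (l : ℕ) (hl : 200 ≤ l) : 2 * (10 ^ 21 * l ^ 12) ≤ 2 ^ l := by
  induction l, hl using Nat.le_induction with
  | base => norm_num
  | succ l hl ih =>
    have h1 : 200 * (l + 1) ≤ 201 * l := by omega
    have h2 : (200 * (l + 1)) ^ 12 ≤ (201 * l) ^ 12 := Nat.pow_le_pow_left h1 12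
    rw [mul_pow, mul_pow] at h2
    have h3 : (201 : ℕ) ^ 12 ≤ 2 * 200 ^ 12 := by norm_num
    have h4 : 200 ^ 12 * (l + 1) ^ 12 ≤ 200 ^ 12 * (2 * l ^ 12) := by
      calc 200 ^ 12 * (l + 1) ^ 12 ≤ 201 ^ 12 * l ^ 12 := h2
        _ ≤ (2 * 200 ^ 12) * l ^ 12 := Nat.mul_le_mul_right _ h3
        _ = 200 ^ 12 * (2 * l ^ 12) := by ring
    have h5 : (l + 1) ^ 12 ≤ 2 * l ^ 12 := Nat.le_of_mul_le_mul_left h4 (by norm_num)
    calc 2 * (10 ^ 21 * (l + 1) ^ 12) ≤ 2 * (10 ^ 21 * (2 * l ^ 12)) := by gcongr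
      _ = (2 * (10 ^ 21 * l ^ 12)) * 2 := by ring
      _ ≤ 2 ^ l * 2 := Nat.mul_le_mul_right _ ih
      _ = 2 ^ (l + 1) := (pow_succ 2 l).symm

theorem logb_le' {m k : ℕ} (h0 : 0 < m) (h : m ≤ 2 ^ k) : Real.logb 2 m ≤ k := by
  rw [Real.logb_le_iff_le_rpow (by norm_num) (by exact_mod_cast h0), Real.rpow_natCast]
  exact_mod_cast h

theorem logb_nonneg' {m : ℕ} (h0 : 0 < m) : 0 ≤ Real.logb 2 m :=
  Real.logb_nonneg (by norm_num) (by exact_mod_cast h0)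

theorem pL_pos (n : ℕ) : 1 ≤ pL n := Nat.succ_pos _

theorem pl_pos (n : ℕ) : 1 ≤ pl n := Nat.succ_pos _

theorem pL_lt (n : ℕ) : pL n < 2 ^ pl n := Nat.lt_pow_succ_log_self (by norm_num) _

theorem pl_le (n : ℕ) : pl n ≤ pL n := by
  unfold pl
  have := Nat.log_lt_self 2 (Nat.pos_iff_ne_zero.1 (pL_pos n))
  omega

theorem two_pow_pl (n : ℕ) : 2 ^ pl n ≤ 2 * pL n := by
  have h := Nat.pow_log_le_self 2 (Nat.pos_iff_ne_zero.1 (pL_pos n))
  unfold pl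
  rw [pow_succ]
  omega

theorem q1_eq (n : ℕ) : q1 n = 256 * pL n ^ 9 := by
  unfold q1 pg
  ring

theorem q1_pos (n : ℕ) : 1 ≤ q1 n := by
  rw [q1_eq]
  have := Nat.one_le_pow 9 _ (pL_pos n)
  omega

theorem q1_lt (n : ℕ) : q1 n < 2 ^ (8 + 9 * pl n) := by
  rw [q1_eq, pow_add, mul_comm 9, pow_mul]
  have h := Nat.pow_lt_pow_left (pL_lt n) (n := 9) (by norm_num)
  norm_num
  omega

theorem lam1_le (n : ℕ) : lam1 n ≤ 17 * pl n := by
  unfold lam1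
  have h := Nat.log_lt_of_lt_pow (b := 2) (by have := q1_pos n; omega) (q1_lt n)
  have := pl_pos n
  omega

theorem pl_le_lam1 (n : ℕ) : pl n ≤ lam1 n := by
  unfold lam1 pl
  have h : pL n ≤ q1 n := by
    rw [q1_eq]
    have h1 : pL n ^ 1 ≤ pL n ^ 9 := Nat.pow_le_pow_right (pL_pos n) (by norm_num)
    rw [pow_one] at h1
    omega
  have := Nat.log_mono_right (b := 2) h
  omega

theorem d1_le (n : ℕ) : d1 n ≤ 78608 * pl n ^ 3 := by
  unfold d1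
  have h := Nat.pow_le_pow_left (lam1_le n) 3
  rw [mul_pow] at h
  norm_num at h
  omega

theorem pl_le_d1 (n : ℕ) : pl n ≤ d1 n := by
  unfold d1
  have h1 := pl_le_lam1 n
  have h2 : 1 ≤ lam1 n := (pl_pos n).trans h1
  have h3 : lam1 n ^ 1 ≤ lam1 n ^ 3 := Nat.pow_le_pow_right h2 (by norm_num)
  rw [pow_one] at h3
  omega

theorem d1_L {n : ℕ} (h : 200 ≤ pl n) : 8 * d1 n ^ 4 ≤ pL n := by
  have h1 := pow12 _ h
  have h2 := two_pow_pl n
  have h3 : d1 n ^ 4 ≤ (78608 * pl n ^ 3) ^ 4 := Nat.pow_le_pow_left (d1_le n) 4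
  have h4 : (78608 * pl n ^ 3) ^ 4 = 78608 ^ 4 * pl n ^ 12 := by ring
  have h5 : 8 * (78608 ^ 4 * pl n ^ 12) ≤ 10 ^ 21 * pl n ^ 12 := by
    rw [← mul_assoc]
    exact Nat.mul_le_mul_right _ (by norm_num)
  calc 8 * d1 n ^ 4 ≤ 8 * (78608 ^ 4 * pl n ^ 12) := by rw [← h4]; gcongr
    _ ≤ 10 ^ 21 * pl n ^ 12 := h5
    _ ≤ pL n := by omega

theorem pL_le {n : ℕ} (h : 200 ≤ pl n) : pL n ≤ n := by
  have hn : n ≠ 0 := by
    rintro rfl
    simp [pl, pL] at h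
  unfold pL
  exact Nat.log_lt_self 2 hn

theorem logd (n : ℕ) :
    0 ≤ 1 + Real.logb 2 (d1 n) ∧ 1 + Real.logb 2 (d1 n) ≤ 21 * pl n := by
  have hd : 0 < d1 n := (pl_pos n).trans (pl_le_d1 n)
  have h0 := logb_nonneg' hd
  refine ⟨by linarith, ?_⟩
  have h1 : d1 n ≤ 2 ^ (17 + 3 * pl n) := by
    have h2 : pl n ^ 3 ≤ (2 ^ pl n) ^ 3 := Nat.pow_le_pow_left Nat.lt_two_pow_self.le 3
    rw [pow_add, mul_comm 3, pow_mul]
    calc d1 n ≤ 78608 * pl n ^ 3 := d1_le n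
      _ ≤ 2 ^ 17 * (2 ^ pl n) ^ 3 := Nat.mul_le_mul (by norm_num) h2
  have h3 := logb_le' hd h1
  have h4 : (1 : ℝ) ≤ pl n := by exact_mod_cast pl_pos n
  push_cast at h3
  linarith

theorem logq (n : ℕ) : 0 ≤ 1 + Real.logb 2 (q1 n) ∧ 1 + Real.logb 2 (q1 n) ≤ 18 * pl n := by
  have hd : 0 < q1 n := q1_pos n
  have h0 := logb_nonneg' hd
  refine ⟨by linarith, ?_⟩
  have h3 := logb_le' hd (q1_lt n).le
  have h4 : (1 : ℝ) ≤ pl n := by exact_mod_cast pl_pos n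
  push_cast at h3
  linarith

theorem logn {n : ℕ} (hn : 0 < n) :
    0 ≤ 1 + Real.logb 2 n ∧ 1 + Real.logb 2 n ≤ 2 * pL n := by
  have h0 := logb_nonneg' hn
  refine ⟨by linarith, ?_⟩
  have h1 : n ≤ 2 ^ pL n := (Nat.lt_pow_succ_log_self (by norm_num) n).le
  have h3 := logb_le' hn h1
  have h4 : (1 : ℝ) ≤ pL n := by exact_mod_cast pL_pos n
  linarith

theorem cost_real {A B D n l L : ℝ} (hn : 0 < n) (hl : 399000 ≤ l) (hL : l ≤ L)
    (a2 : A ≤ 21 * l) (b1 : 0 ≤ B) (b2 : B ≤ 2 * L) (c1 : 0 ≤ D)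
    (c2 : D ≤ 18 * l) :
    A * (B * (n / (16 * L ^ 3)) + D * (n / l ^ 3)) ≤ n / 1000 := by
  have hl0 : 0 < l := by linarith
  have hL0 : 0 < L := by linarith
  have t1 : B * (n / (16 * L ^ 3)) ≤ n / l ^ 2 := by
    calc B * (n / (16 * L ^ 3)) ≤ (2 * L) * (n / (16 * L ^ 3)) :=
          mul_le_mul_of_nonneg_right b2 (by positivity)
      _ = n / (8 * L ^ 2) := by
        field_simp
        norm_num
      _ ≤ n / l ^ 2 := by
        apply div_le_div_of_nonneg_left hn.le (by positivity)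
        nlinarith [mul_self_le_mul_self hl0.le hL]
  have t2 : D * (n / l ^ 3) ≤ 18 * (n / l ^ 2) := by
    calc D * (n / l ^ 3) ≤ (18 * l) * (n / l ^ 3) :=
          mul_le_mul_of_nonneg_right c2 (by positivity)
      _ = 18 * (n / l ^ 2) := by
        field_simp
  have t3 : B * (n / (16 * L ^ 3)) + D * (n / l ^ 3) ≤ 19 * (n / l ^ 2) := by
    linarith
  have t4 : 0 ≤ B * (n / (16 * L ^ 3)) + D * (n / l ^ 3) := by positivity
  calc A * (B * (n / (16 * L ^ 3)) + D * (n / l ^ 3))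
      ≤ (21 * l) * (19 * (n / l ^ 2)) := mul_le_mul a2 t3 t4 (by positivity)
    _ = 399 * n / l := by
        field_simp
        norm_num
    _ ≤ n / 1000 := by
        rw [div_le_div_iff₀ hl0 (by norm_num)]
        nlinarith

theorem cost {n : ℕ} (h : 399000 ≤ pl n) :
    (1 + Real.logb 2 (d1 n)) * ((1 + Real.logb 2 n) * (4 * pg n * n / q1 n) +
      (1 + Real.logb 2 (q1 n)) * (n / M2 n)) ≤ n / 1000 := by
  have h200 : 200 ≤ pl n := by omega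
  have hn : 0 < n := (pL_pos n).trans (pL_le h200)
  have a2 := (logd n).2
  obtain ⟨b1, b2⟩ := logn hn
  obtain ⟨c1, c2⟩ := logq n
  have hnr : (0 : ℝ) < n := by exact_mod_cast hn
  have hl1 : (399000 : ℝ) ≤ pl n := by exact_mod_cast h
  have hL1 : (pl n : ℝ) ≤ pL n := by exact_mod_cast pl_le n
  have hL0 : (0 : ℝ) < pL n := by linarith
  have e1 : (4 * (pg n : ℝ) * n / q1 n) = n / (16 * (pL n : ℝ) ^ 3) := by
    have hg : (0 : ℝ) < pg n := by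
      unfold pg
      push_cast
      positivity
    have hq : (q1 n : ℝ) = 64 * pg n * (pL n : ℝ) ^ 3 := by
      unfold q1
      push_cast
      rfl
    rw [hq]
    generalize (pg n : ℝ) = g at hg
    generalize (pL n : ℝ) = L at hL0
    generalize (n : ℝ) = x
    rw [div_eq_div_iff (by positivity) (by positivity)]
    ring
  have e2 : (M2 n : ℝ) = (pl n : ℝ) ^ 3 := by
    unfold M2
    push_cast
    rfl
  rw [e1, e2]
  exact cost_real hnr hl1 hL1 a2 b1 b2 c1 c2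

theorem pw_real {K x : ℝ} (h1 : x ≤ 9999) (h2 : (2 : ℝ) ^ 30 ≤ K) :
    6 * ((1 + x) / K) ≤ 1 / 1000 := by
  have h3 : (0 : ℝ) < K := lt_of_lt_of_le (by positivity) h2
  rw [← mul_div_assoc, div_le_div_iff₀ h3 (by norm_num)]
  norm_num at h2
  linarith

theorem KH_eq : KH = 2 ^ 9999 := rfl

theorem pwKH : 6 * pw KH ≤ 1 / 1000 := by
  have h0 : 2 ^ 30 ≤ KH := by
    rw [KH_eq]
    exact Nat.pow_le_pow_right (by norm_num) (by norm_num)
  have hp : 0 < KH := lt_of_lt_of_le (by norm_num) h0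
  have h1 : Real.logb 2 (KH : ℝ) ≤ (9999 : ℕ) := logb_le' hp KH_eq.le
  have h2 : (2 : ℝ) ^ 30 ≤ (KH : ℝ) := by exact_mod_cast h0
  unfold pw
  exact pw_real (by exact_mod_cast h1) h2

theorem KK_eq : KK = 2 ^ 10000 := rfl

theorem KK_ge : 399000 ≤ KK := by
  rw [KK_eq]
  exact le_trans (by norm_num : 399000 ≤ 2 ^ 20)
    (Nat.pow_le_pow_right (by norm_num) (by norm_num))

end NLV_

open NLV_

/-- Numbers. -/
theorem p_NLV : T_NLV := by
  refine ⟨pwKH, ?_⟩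
  obtain ⟨n0, h0⟩ := ex_n0 KK
  refine ⟨n0, fun n hn => ?_⟩
  have hl := h0 n hn
  have hl2 : 399000 ≤ pl n := KK_ge.trans hl
  have h200 : 200 ≤ pl n := by omega
  have hd1 := pl_le_d1 n
  have hdL := d1_L h200
  have hLn := pL_le h200
  have hL := pL_pos n
  have hd0 : 1 ≤ d1 n := (pl_pos n).trans hd1
  have hd4 : d1 n ^ 1 ≤ d1 n ^ 4 := Nat.pow_le_pow_right hd0 (by norm_num)
  have hd5 : d1 n ^ 2 ≤ d1 n ^ 4 := Nat.pow_le_pow_right hd0 (by norm_num)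
  rw [pow_one] at hd4
  have hL6 : pL n ^ 1 ≤ pL n ^ 6 := Nat.pow_le_pow_right hL (by norm_num)
  rw [pow_one] at hL6
  have hL9 : pL n ^ 6 ≤ pL n ^ 9 := Nat.pow_le_pow_right hL (by norm_num)
  have hg : pg n = 4 * pL n ^ 6 := rfl
  have hq := q1_eq n
  have hM : 1 ≤ M2 n := Nat.one_le_pow 3 _ (pl_pos n)
  refine ⟨hl.trans hd1, ?_, ?_, hM, ?_, ?_, ?_, cost hl2⟩
  · omega
  · omega
  · omega
  · omega
  · omega

end Pool.Agent.NRP
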