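import Pool.Agent.NRP.Targets

/-!
# NRP: the new set distinguishes up to `d` vertices (target NRD)
-/

set_option autoImplicit false

open Finset Classical

namespace Pool.Agent.NRP

open Pool.Agent.Lib.Recon Pool.Agent.RNB Pool.Agent.NRC

namespace NRD_

variable {V : Type} [Fintype V]

theorem dset_comm' (G : SimpleGraph V) (u v : V) : dset G u v = dset G v u := by
  ext w
  rw [mem_dset, mem_dset]
  tauto

end NRD_

open NRD_ in
theorem p_NRD (h1 : T_ARR) : T_NRD := by
  intro V _ G g q d A T0 R X T' hAE hT0 hR hX hI hS u v hu hv huv hsame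
  by_contra hcon
  have hd : d ≤ (dset G u v).card := not_lt.1 hcon
  have fin : ∀ u v : V, v ∉ T' → u ∉ T' → (∀ a ∈ T', (G.Adj a u ↔ G.Adj a v)) →
      d ≤ (dset G u v).card → Pq G g q A T0 u v → False := by
    intro u v _ hu hs hd hP
    obtain ⟨r, hr, hrd⟩ := hS u v (fun h3 => hu (hX h3)) hP hd
    rw [mem_dset] at hrd
    exact hrd.2.2 (hs r (hR hr))
  have fin2 : ∀ u v : V, v ∉ T' → u ∉ T' → u ≠ v → (∀ a ∈ T', (G.Adj a u ↔ G.Adj a v)) →
      d ≤ (dset G u v).card → v ∈ PL G g q A T0 → d ≤ 2 * (IN G (2 * g) A v).card → False := by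
    intro u v hv hu huv hs hd hvP h2
    obtain ⟨r, hr, hrI⟩ := hI v hvP h2 fun h3 => hv (hX h3)
    refine fin u v hv hu hs hd ⟨huv, Or.inr ⟨hvP, r, hrI, ?_⟩⟩
    have hA : ∀ b ∈ insert r A, b ∈ T' := by
      intro b hb
      rw [mem_insert] at hb
      rcases hb with rfl | hb
      · exact hR hr
      · exact hT0 (hAE (mem_union_left _ hb))
    unfold cl
    rw [mem_filter]
    exact ⟨mem_univ _, fun h3 => hu (hA u h3), fun b hb => (hs b (hA b hb)).symm⟩
  have hucl : ∀ u v : V, u ∉ T' → (∀ a ∈ T', (G.Adj a u ↔ G.Adj a v)) → u ∈ cl G T0 v := by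
    intro u v hu hs
    unfold cl
    rw [mem_filter]
    exact ⟨mem_univ _, fun h3 => hu (hT0 h3), fun b hb => (hs b (hT0 hb)).symm⟩
  by_cases hvP : v ∈ PL G g q A T0
  · obtain ⟨huP, hsub⟩ := h1 V G g q A T0 hAE v hvP u (hucl u v hu hsame)
    have hc := (card_le_card hsub).trans (card_union_le _ _)
    rw [← dset_comm' G u v] at hc
    have hd' : d ≤ (dset G v u).card := by
      rw [← dset_comm' G u v]
      exact hd
    rcases le_total (IN G (2 * g) A u).card (IN G (2 * g) A v).card with h3 | h3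
    · exact fin2 u v hv hu huv hsame hd hvP (by omega)
    · exact fin2 v u hu hv huv.symm (fun a ha => (hsame a ha).symm) hd' huP (by omega)
  · exact fin u v hv hu hsame hd ⟨huv, Or.inl ⟨fun h3 => hv (hT0 h3), hvP,
      hucl u v hu hsame⟩⟩

end Pool.Agent.NRP
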