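import Pool.Agent.NRP.Targets

/-!
# NRP: target NUM, numbers
-/

set_option autoImplicit false

open Finset Classical

namespace Pool.Agent.NRP

namespace NUM_

theorem log_ge {d : ℕ} (h : KK ≤ d) : 10000 ≤ Nat.log 2 d :=
  Nat.le_log_of_pow_le (by norm_num) h

theorem KH_le : KH ≤ KK := Nat.pow_le_pow_right (by norm_num) (by norm_num)

theorem small_pow {e m : ℕ} (hm : m = e / 16) : e < 2 ^ (m + 4) := by
  have h1 : m < 2 ^ m := Nat.lt_two_pow_self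
  have h2 : 2 ^ (m + 4) = 16 * 2 ^ m := by
    rw [pow_add]
    ring
  have h3 : e < 16 * (m + 1) := by omega
  have h4 : 16 * (m + 1) ≤ 16 * 2 ^ m := Nat.mul_le_mul_left _ h1
  rw [h2]
  exact lt_of_lt_of_le h3 h4

theorem cube_le {e : ℕ} (he : 10000 ≤ e) : 16 * (4 * e + 5) ^ 3 ≤ 2 ^ 11 * e ^ 3 := by
  have h1 : 4 * (4 * e + 5) ≤ 17 * e := by omega
  have h2 : (4 * (4 * e + 5)) ^ 3 ≤ (17 * e) ^ 3 := Nat.pow_le_pow_left h1 3
  have h3 : (4 * (4 * e + 5)) ^ 3 = 64 * (4 * e + 5) ^ 3 := by ring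
  have h4 : (17 * e) ^ 3 = 4913 * e ^ 3 := by ring
  rw [h3, h4] at h2
  omega

end NUM_

open NUM_ in
theorem p_NUM : T_NUM := by
  intro d hd
  have he : 10000 ≤ Nat.log 2 d := log_ge hd
  have hd1 : 1 ≤ d := by
    by_contra h
    have h0 : d = 0 := by omega
    rw [h0, Nat.log_zero_right] at he
    omega
  have hlo : 2 ^ Nat.log 2 d ≤ d := Nat.pow_log_le_self 2 (by omega)
  have hup : d < 2 ^ (Nat.log 2 d + 1) := Nat.lt_pow_succ_log_self (by norm_num) d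
  have hKH : KH ≤ d := KH_le.trans hd
  clear hd
  generalize hee : Nat.log 2 d = e at *
  have hlam : lam d = 4 * e + 5 := by
    unfold lam
    rw [hee]
  obtain ⟨m, hm⟩ : ∃ m, m = e / 16 := ⟨_, rfl⟩
  have hsp : e < 2 ^ (m + 4) := small_pow hm
  have hm1 : 625 ≤ m := by omega
  have hme : 16 * m ≤ e := by omega
  have hnx : nx d < 2 ^ (3 * m + 23) := by
    unfold nx
    rw [hlam]
    refine lt_of_le_of_lt (cube_le he) ?_
    have h1 : e ^ 3 < (2 ^ (m + 4)) ^ 3 := Nat.pow_lt_pow_left hsp (by norm_num)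
    have h2 : 2 ^ (3 * m + 23) = 2 ^ 11 * (2 ^ (m + 4)) ^ 3 := by
      rw [← pow_mul, ← pow_add]
      congr 1
      ring
    rw [h2]
    exact Nat.mul_lt_mul_of_pos_left h1 (by norm_num)
  have hnxpos : nx d ≠ 0 := by
    unfold nx
    rw [hlam]
    positivity
  have h3 : 8 * lam d ^ 2 ≤ d := by
    rw [hlam]
    have a1 : 4 * e + 5 ≤ 5 * e := by omega
    have a2 : (4 * e + 5) ^ 2 ≤ (5 * e) ^ 2 := Nat.pow_le_pow_left a1 2
    have a3 : (5 * e) ^ 2 = 25 * e ^ 2 := by ring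
    have a4 : e ^ 2 ≤ (2 ^ (m + 4)) ^ 2 := Nat.pow_le_pow_left hsp.le 2
    have a5 : 2 ^ (2 * m + 16) = 2 ^ 8 * (2 ^ (m + 4)) ^ 2 := by
      rw [← pow_mul, ← pow_add]
      congr 1
      ring
    have a6 : 2 ^ (2 * m + 16) ≤ 2 ^ e := Nat.pow_le_pow_right (by norm_num) (by omega)
    calc 8 * (4 * e + 5) ^ 2 ≤ 2 ^ 8 * e ^ 2 := by omega
      _ ≤ 2 ^ 8 * (2 ^ (m + 4)) ^ 2 := Nat.mul_le_mul_left _ a4
      _ = 2 ^ (2 * m + 16) := a5.symm
      _ ≤ 2 ^ e := a6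
      _ ≤ d := hlo
  refine ⟨?_, ?_, h3, ?_, ?_, ?_, ?_⟩
  · rw [hlam]
    unfold lam
    have h1 : Nat.log 2 (nx d) < 3 * m + 23 := Nat.log_lt_of_lt_pow hnxpos hnx
    omega
  · have h1 : 2 * nx d ≤ 2 ^ (3 * m + 24) := by
      have : 2 ^ (3 * m + 24) = 2 * 2 ^ (3 * m + 23) := by
        rw [show 3 * m + 24 = (3 * m + 23) + 1 from rfl, pow_succ]
        ring
      rw [this]
      omega
    have h2 : 2 ^ (3 * m + 24) ≤ 2 ^ e := Nat.pow_le_pow_right (by norm_num) (by omega)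
    exact h1.trans (h2.trans hlo)
  · rw [hlam]
    have hdR : (0 : ℝ) < (d : ℝ) := by exact_mod_cast hd1
    have h1 : Real.logb 2 ((d ^ 4 : ℕ) : ℝ) = 4 * Real.logb 2 (d : ℝ) := by
      push_cast
      rw [Real.logb_pow]
      norm_num
    have h2 : Real.logb 2 (d : ℝ) ≤ (e : ℝ) + 1 := by
      rw [Real.logb_le_iff_le_rpow (by norm_num) hdR]
      have h3 : (d : ℝ) ≤ (2 : ℝ) ^ (e + 1) := by exact_mod_cast hup.le
      calc (d : ℝ) ≤ (2 : ℝ) ^ (e + 1) := h3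
        _ = (2 : ℝ) ^ ((e : ℝ) + 1) := by
          rw [← Real.rpow_natCast]
          push_cast
          rfl
    rw [h1]
    push_cast
    linarith
  · rw [hlam]
    have hd5 : 5 ≤ d := by
      refine le_trans ?_ hlo
      have : 2 ^ 3 ≤ 2 ^ e := Nat.pow_le_pow_right (by norm_num) (by omega)
      omega
    have h1 : d ^ 4 ≤ (2 ^ (e + 1)) ^ 4 := Nat.pow_le_pow_left hup.le 4
    have h2 : 1 + d ^ 4 + 2 * d * (2 * d ^ 2) ≤ 2 * d ^ 4 := by
      have e1 : d ^ 4 = d * d ^ 3 := by ring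
      have e2 : 2 * d * (2 * d ^ 2) = 4 * d ^ 3 := by ring
      have e3 : 5 * d ^ 3 ≤ d * d ^ 3 := Nat.mul_le_mul_right _ hd5
      have e4 : 1 ≤ d ^ 3 := Nat.one_le_pow _ _ hd1
      rw [e2, e1]
      omega
    have h3 : 2 * (2 ^ (e + 1)) ^ 4 = 2 ^ (4 * e + 5) := by
      rw [← pow_mul, show 4 * e + 5 = (e + 1) * 4 + 1 by ring, pow_succ]
      ring
    have h4 : 2 ^ (4 * e + 5) ≤ 2 ^ (2 * (4 * e + 5) + 2) :=
      Nat.pow_le_pow_right (by norm_num) (by omega)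
    calc 1 + d ^ 4 + 2 * d * (2 * d ^ 2) ≤ 2 * d ^ 4 := h2
      _ ≤ 2 * (2 ^ (e + 1)) ^ 4 := Nat.mul_le_mul_left _ h1
      _ = 2 ^ (4 * e + 5) := h3
      _ ≤ _ := h4
  · have h1 : 6 * lam d ≤ d := by
      refine le_trans ?_ h3
      have : 1 ≤ lam d := by
        rw [hlam]
        omega
      nlinarith
    calc 6 * KH * lam d = KH * (6 * lam d) := by ring
      _ ≤ d * d := Nat.mul_le_mul hKH h1
      _ = d ^ 2 := by ring
      _ ≤ d ^ 4 := Nat.pow_le_pow_right hd1 (by norm_num)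
  · rw [hlam]
    omega

end Pool.Agent.NRP
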