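import Pool.Agent.NRP.Targets

/-!
# NRP, PTC: adding a walk
-/

set_option autoImplicit false

open Finset Classical

namespace Pool.Agent.NRP

open Pool.Agent.Lib.Recon Pool.Agent.RNB Pool.Agent.NRC Pool.Agent.NRQ

namespace PTC_

theorem sum_shift (f : ℕ → ℝ) (n : ℕ) :
    ∑ i ∈ Finset.Icc 1 (n + 1), f i = ∑ i ∈ Finset.Icc 1 n, f (i + 1) + f 1 := by
  have h1 : ∀ (k : ℕ) (g : ℕ → ℝ), ∑ i ∈ Finset.Icc 1 k, g i = ∑ i ∈ Finset.range k, g (1 + i) := by
    intro k g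
    have h2 : Finset.Icc 1 k = Finset.Ico 1 (k + 1) := by
      ext i
      simp only [Finset.mem_Icc, Finset.mem_Ico]
      omega
    rw [h2, Finset.sum_Ico_eq_sum_range, Nat.add_sub_cancel]
  rw [h1, h1, Finset.sum_range_succ']
  congr 1

/-- the first step: the end of the walk is added -/
theorem start {V : Type} {Cf : Finset V → ℝ → Prop} {kz : Finset V → V → ℕ}
    {I : V → Finset V} {P T0 T : Finset V} {Λ c : ℝ} {h q : ℕ} (S : Sy Cf kz I P T0 Λ h q)
    (hT : T0 ⊆ T) (y : V) (hy : y ∈ P) (hn : y ∈ T ∨ ∃ z ∈ I y, z ∈ T ∨ z ∉ P) (hc : Cf T c) :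
    ∃ T' : Finset V, T ⊆ T' ∧ y ∈ T' ∧ Cf T' (c + 2 * Λ) := by
  have hΛ := S.pos
  rcases hn with h1 | ⟨z, hz, h1 | h1⟩
  · exact ⟨T, Subset.rfl, h1, S.mono T c _ hc (by linarith)⟩
  · refine ⟨insert y T, subset_insert _ _, mem_insert_self _ _, ?_⟩
    exact S.mono _ _ _ (S.arrow T c y z hT hy hz h1 hc) (by linarith)
  · have h2 := S.free T c z hT h1 hc
    have h3 := S.arrow (insert z T) (c + Λ) y z (hT.trans (subset_insert _ _)) hy hz
      (mem_insert_self _ _) h2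
    refine ⟨insert y (insert z T), (subset_insert _ _).trans (subset_insert _ _),
      mem_insert_self _ _, ?_⟩
    exact S.mono _ _ _ h3 (by linarith)

theorem walk {V : Type} {Cf : Finset V → ℝ → Prop} {kz : Finset V → V → ℕ}
    {I : V → Finset V} {P T0 T : Finset V} {Λ c : ℝ} {h q : ℕ} (S : Sy Cf kz I P T0 Λ h q)
    (hT : T0 ⊆ T) (hc : Cf T c) : ∀ (m : ℕ) (p : ℕ → V), (∀ j ≤ m, p j ∈ P) →
    (∀ j < m, p (j + 1) ∈ I (p j)) → (p m ∈ T ∨ ∃ z ∈ I (p m), z ∈ T ∨ z ∉ P) →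
    ∃ T' : Finset V, T ⊆ T' ∧ (∀ j ≤ m, p j ∈ T') ∧
      Cf T' (c + 2 * Λ + ((min m 2 : ℕ) : ℝ) * Λ +
        ∑ i ∈ Finset.Icc 1 (m - 2), (1 + Real.logb 2 (I (p i)).card)) := by
  intro m
  induction m with
  | zero =>
    intro p hp _ hn
    obtain ⟨T', h1, h2, h3⟩ := start S hT (p 0) (hp 0 le_rfl) hn hc
    refine ⟨T', h1, fun j hj => ?_, ?_⟩
    · obtain rfl : j = 0 := by omega
      exact h2
    · refine S.mono _ _ _ h3 ?_
      simp
  | succ m ih =>
    intro p hp hs hn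
    obtain ⟨T', h1, h2, h3⟩ := ih (fun j => p (j + 1)) (fun j hj => hp (j + 1) (by omega))
      (fun j hj => hs (j + 1) (by omega)) hn
    have hy : p 0 ∈ P := hp 0 (by omega)
    have hz : p 1 ∈ P := hp 1 (by omega)
    have hzi : p 1 ∈ I (p 0) := hs 0 (by omega)
    have hzT : p 1 ∈ T' := h2 0 (by omega)
    have hall : ∀ j ≤ m + 1, p j ∈ insert (p 0) T' := by
      intro j hj
      rcases j with _ | j
      · exact mem_insert_self _ _
      · exact mem_insert_of_mem (h2 j (by omega))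
    refine ⟨insert (p 0) T', h1.trans (subset_insert _ _), hall, ?_⟩
    by_cases hm : m < 2
    · have h4 := S.arrow T' _ (p 0) (p 1) (hT.trans h1) hy hzi hzT h3
      refine S.mono _ _ _ h4 (le_of_eq ?_)
      have e1 : m - 2 = 0 := by omega
      have e2 : m + 1 - 2 = 0 := by omega
      have e3 : min (m + 1) 2 = min m 2 + 1 := by omega
      rw [e1, e2, e3]
      push_cast
      simp
      ring
    · have h4 := S.deg T' _ (p 0) (p 1) (hT.trans h1) hy hz hzi hzT h3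
      refine S.mono _ _ _ h4 (le_of_eq ?_)
      have e1 : m + 1 - 2 = (m - 2) + 1 := by omega
      have e2 : min (m + 1) 2 = min m 2 := by omega
      rw [e1, e2, sum_shift]
      ring

end PTC_

theorem p_PTC : T_PTC := by
  intro V _ Cf kz I P T0 T Λ c h q m p S hT hp hs hn hc
  obtain ⟨T', h1, h2, h3⟩ := PTC_.walk S hT hc m p hp hs hn
  refine ⟨T', h1, h2, S.mono _ _ _ h3 ?_⟩
  have e1 : ((min m 2 : ℕ) : ℝ) ≤ 2 := by
    have : min m 2 ≤ 2 := min_le_right _ _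
    exact_mod_cast this
  have e2 := mul_le_mul_of_nonneg_right e1 S.pos
  linarith

end Pool.Agent.NRP
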