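import Pool.Agent.NRP.Targets

/-!
# NRP, target PTH: one terminal
-/

set_option autoImplicit false

open Finset Classical

namespace Pool.Agent.NRP

open Pool.Agent.Lib.Recon Pool.Agent.RNB Pool.Agent.NRC Pool.Agent.NRQ

namespace PTH_

theorem card_three (S : Finset ℕ) (h : ∀ i ∈ S, ∀ j ∈ S, i < j → j ≤ i + 2) : S.card ≤ 3 := by
  rcases S.eq_empty_or_nonempty with h0 | h0
  · rw [h0]
    simp
  · have h1 : S ⊆ Finset.Icc (S.min' h0) (S.min' h0 + 2) := by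
      intro j hj
      have h2 := S.min'_le j hj
      rw [Finset.mem_Icc]
      refine ⟨h2, ?_⟩
      rcases Nat.lt_or_ge (S.min' h0) j with h3 | h3
      · exact h _ (S.min'_mem h0) j hj h3
      · omega
    refine (Finset.card_le_card h1).trans ?_
    rw [Nat.card_Icc]
    omega

end PTH_

theorem p_PTH (h1 : T_WLK) (h2 : T_PTC) (h3 : T_PTM) : T_PTH := by
  intro V _ Cf kz I P T0 T Λ c h q ms t hSy hT0 htP hRch hMk hFr hCf
  obtain ⟨m, p, hp0, hpP, hstep, hend, hmid, hlast⟩ := h1 V I P T t htP hRch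
  obtain ⟨T', hTT', hpT', hCf'⟩ :=
    h2 V Cf kz I P T0 T Λ (c + Ph ms) h q m p hSy hT0 hpP hstep hend hCf
  have hJ : ∀ i ∈ Finset.Icc 1 (m - 2), p i ∈ P ∧ p i ∈ T' ∧ (I (p i)).Nonempty ∧
      ∀ y ∈ I (p i), y ∈ P ∧ y ∉ T ∧ ∀ z ∈ I y, z ∈ P ∧ z ∉ T := by
    intro i hi
    rw [Finset.mem_Icc] at hi
    exact ⟨hpP i (by omega), hpT' i (by omega), ⟨p (i + 1), hstep i (by omega)⟩,
      fun y hy => hmid i (by omega) y hy⟩
  have hcount : ∀ y, ((Finset.Icc 1 (m - 2)).filter (fun i => y ∈ I (p i))).card ≤ 3 := by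
    intro y
    refine PTH_.card_three _ fun i hi j hj hij => ?_
    rw [Finset.mem_filter] at hi hj
    rw [Finset.mem_Icc] at hi hj
    have hyP : y ∈ P := (hmid i (by omega) y hi.2).1
    exact hlast i j y hij (by omega) hyP hi.2 (hSy.sym (p j) (hpP j (by omega)) y hyP hj.2)
  obtain ⟨ms', hMk', hFr', hNw, hpot⟩ :=
    h3 V Cf kz I P T0 T T' Λ h q ms (Finset.Icc 1 (m - 2)) p hSy hT0 hTT' hMk hFr hJ hcount
  refine ⟨T', ms', hTT', ?_, hMk', hFr', hNw, hSy.mono T' _ _ hCf' (by linarith)⟩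
  rw [← hp0]
  exact hpT' 0 (Nat.zero_le _)

end Pool.Agent.NRP
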