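import Pool.Agent.NRP.Targets

/-!
# NRP: proof of T_PTM from T_PW
-/

set_option autoImplicit false

open Finset Classical

namespace Pool.Agent.NRP

open Pool.Agent.Lib.Recon Pool.Agent.RNB Pool.Agent.NRC Pool.Agent.NRQ

namespace PTM_

/-- the marks: the least number of arrows into a vertex of the walk -/
theorem marks {V : Type} (I : V → Finset V) (J : Finset ℕ) (p : ℕ → V) (ms : V → ℕ) (y : V) :
    ∃ m : ℕ, ((∃ i ∈ J, y ∈ I (p i)) → ∃ i ∈ J, y ∈ I (p i) ∧ m = (I (p i)).card ∧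
      ∀ j ∈ J, y ∈ I (p j) → m ≤ (I (p j)).card) ∧ ((¬ ∃ i ∈ J, y ∈ I (p i)) → m = ms y) := by
  by_cases hy : ∃ i ∈ J, y ∈ I (p i)
  · obtain ⟨i0, hi0, hyi0⟩ := hy
    obtain ⟨i, hi, hmin⟩ := Finset.exists_min_image (J.filter (fun i => y ∈ I (p i)))
      (fun i => (I (p i)).card) ⟨i0, Finset.mem_filter.2 ⟨hi0, hyi0⟩⟩
    obtain ⟨hi1, hi2⟩ := Finset.mem_filter.1 hi
    exact ⟨(I (p i)).card, fun _ => ⟨i, hi1, hi2, rfl, fun j hj hyj =>
      hmin j (Finset.mem_filter.2 ⟨hj, hyj⟩)⟩, fun h => absurd ⟨i0, hi0, hyi0⟩ h⟩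
  · exact ⟨ms y, fun h => absurd h hy, fun _ => rfl⟩

theorem mul_pw (e : ℕ) (he : 1 ≤ e) : (e : ℝ) * pw e = 1 + Real.logb 2 e := by
  unfold pw
  have h : (e : ℝ) ≠ 0 := by positivity
  field_simp

end PTM_

theorem p_PTM (h1 : T_PW) : T_PTM := by
  obtain ⟨hP1, hP2, hP3⟩ := h1
  intro V _ Cf kz I P T0 T T' Λ h q ms J p hS hT0 hTT hM hF hJ hc
  choose ms' hU hN using PTM_.marks I J p ms
  have hback : ∀ y, ∀ i ∈ J, y ∈ I (p i) → p i ∈ I y := fun y i hi hy =>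
    hS.sym (p i) (hJ i hi).1 y ((hJ i hi).2.2.2 y hy).1 hy
  have hpos : ∀ y, (∃ i ∈ J, y ∈ I (p i)) → 1 ≤ ms' y := by
    intro y hy
    obtain ⟨i, hi, _, hm, _⟩ := hU y hy
    rw [hm]
    exact Finset.card_pos.2 (hJ i hi).2.2.1
  have hpt : ∀ y, ((J.filter (fun i => y ∈ I (p i))).card : ℝ) * pw (ms' y) ≤
      6 * pw (ms' y) - 6 * pw (ms y) := by
    intro y
    by_cases hy : ∃ i ∈ J, y ∈ I (p i)
    · have hp := hpos y hy
      have h0 := (hP3 (ms' y)).1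
      have hhalf : pw (ms y) ≤ pw (ms' y) / 2 := by
        obtain ⟨i, hi, hyi, hm, _⟩ := hU y hy
        have hy' := (hJ i hi).2.2.2 y hyi
        rcases hF y hy'.1 hy'.2.2 with h2 | h2
        · rw [h2]
          have h3 : pw 0 = 0 := by simp [pw]
          rw [h3]
          linarith
        · refine hP2 _ _ hp ?_
          have h3 := hS.le (p i) (hJ i hi).1
          have h4 := hS.hq
          rw [hm]
          omega
      have hc3 : ((J.filter (fun i => y ∈ I (p i))).card : ℝ) ≤ 3 := by exact_mod_cast hc y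
      have h5 := mul_le_mul_of_nonneg_right hc3 h0
      linarith
    · have h2 : J.filter (fun i => y ∈ I (p i)) = ∅ := by
        rw [Finset.filter_eq_empty_iff]
        intro i hi hyi
        exact hy ⟨i, hi, hyi⟩
      rw [h2, hN y hy]
      simp
  refine ⟨ms', ?_, ?_, ?_, ?_⟩
  · intro y hy0
    by_cases hy : ∃ i ∈ J, y ∈ I (p i)
    · obtain ⟨i, hi, hyi, hm, _⟩ := hU y hy
      rw [hm]
      exact hS.dom T' y (p i) (hT0.trans hTT) ((hJ i hi).2.2.2 y hyi).1 (hJ i hi).1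
        (hback y i hi hyi) (hJ i hi).2.1
    · rw [hN y hy] at hy0 ⊢
      exact le_trans (hS.anti T T' y hTT) (hM y hy0)
  · intro y hyP hyI
    by_cases hy : ∃ i ∈ J, y ∈ I (p i)
    · obtain ⟨i, hi, hyi⟩ := hy
      exact absurd (hJ i hi).2.1 (hyI (p i) (hback y i hi hyi)).2
    · rw [hN y hy]
      exact hF y hyP fun z hz => ⟨(hyI z hz).1, fun hzT => (hyI z hz).2 (hTT hzT)⟩
  · intro y
    by_cases hy : ∃ i ∈ J, y ∈ I (p i)
    · obtain ⟨i, hi, hyi, hm, _⟩ := hU y hy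
      exact Or.inr ⟨p i, (hJ i hi).1, hyi, hm⟩
    · exact Or.inl (hN y hy)
  · have hs1 : ∑ i ∈ J, (1 + Real.logb 2 (I (p i)).card) ≤
        ∑ i ∈ J, ∑ y ∈ I (p i), pw (ms' y) := by
      refine Finset.sum_le_sum fun i hi => ?_
      rw [← PTM_.mul_pw _ (Finset.card_pos.2 (hJ i hi).2.2.1), ← nsmul_eq_mul,
        ← Finset.sum_const]
      refine Finset.sum_le_sum fun y hy => ?_
      have hex : ∃ i ∈ J, y ∈ I (p i) := ⟨i, hi, hy⟩
      obtain ⟨_, _, _, _, hmin⟩ := hU y hex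
      exact hP1 _ _ (hpos y hex) (hmin i hi hy)
    have hs2 : ∑ i ∈ J, ∑ y ∈ I (p i), pw (ms' y) =
        ∑ y, ((J.filter (fun i => y ∈ I (p i))).card : ℝ) * pw (ms' y) := by
      have h2 : ∀ i ∈ J, ∑ y ∈ I (p i), pw (ms' y) =
          ∑ y, if y ∈ I (p i) then pw (ms' y) else 0 := by
        intro i _
        rw [← Finset.sum_filter, Finset.filter_mem_eq_inter, Finset.univ_inter]
      rw [Finset.sum_congr rfl h2, Finset.sum_comm]
      refine Finset.sum_congr rfl fun y _ => ?_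
      rw [← Finset.sum_filter, Finset.sum_const, nsmul_eq_mul]
    have hs3 : ∑ y, ((J.filter (fun i => y ∈ I (p i))).card : ℝ) * pw (ms' y) ≤
        ∑ y, (6 * pw (ms' y) - 6 * pw (ms y)) := Finset.sum_le_sum fun y _ => hpt y
    rw [Finset.sum_sub_distrib] at hs3
    unfold Ph
    linarith

end Pool.Agent.NRP
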