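import Pool.Agent.NRP.Targets

/-!
# NRP, PW: real analysis
-/

set_option autoImplicit false

namespace Pool.Agent.NRP

namespace PW_

theorem key (e : ℕ) (he : 1 ≤ e) :
    (e : ℝ) * (Real.log ((e : ℝ) + 1) - Real.log e) ≤ Real.log 2 + Real.log e := by
  have he0 : (0 : ℝ) < e := by exact_mod_cast he
  rcases Nat.eq_or_lt_of_le he with h | h
  · subst h
    norm_num
  · have h2 : (2 : ℝ) ≤ e := by exact_mod_cast h
    have h3 : Real.log ((e : ℝ) + 1) - Real.log e ≤ 1 / e := by
      rw [← Real.log_div (by positivity) he0.ne']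
      have h4 := Real.log_le_sub_one_of_pos (show 0 < ((e : ℝ) + 1) / e by positivity)
      have h5 : ((e : ℝ) + 1) / e - 1 = 1 / e := by
        field_simp
        ring
      rw [h5] at h4
      exact h4
    have h6 : (e : ℝ) * (Real.log ((e : ℝ) + 1) - Real.log e) ≤ 1 := by
      calc (e : ℝ) * (Real.log ((e : ℝ) + 1) - Real.log e) ≤ (e : ℝ) * (1 / e) :=
            mul_le_mul_of_nonneg_left h3 he0.le
        _ = 1 := by field_simp
    have h7 : Real.log 2 ≤ Real.log e := Real.log_le_log (by norm_num) h2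
    have h8 := Real.log_two_gt_d9
    linarith

theorem step (e : ℕ) (he : 1 ≤ e) : pw (e + 1) ≤ pw e := by
  unfold pw
  have he0 : (0 : ℝ) < e := by exact_mod_cast he
  have h1 : (0 : ℝ) < ((e + 1 : ℕ) : ℝ) := by positivity
  have hl2 : 0 < Real.log 2 := Real.log_pos one_lt_two
  rw [div_le_div_iff₀ h1 he0]
  unfold Real.logb
  push_cast
  have h2 := key e he
  have h3 : (1 + Real.log e / Real.log 2) * ((e : ℝ) + 1) -
      (1 + Real.log ((e : ℝ) + 1) / Real.log 2) * e =
      (Real.log 2 + Real.log e - (e : ℝ) * (Real.log ((e : ℝ) + 1) - Real.log e)) /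
        Real.log 2 := by
    field_simp
    ring
  have h4 : 0 ≤ (Real.log 2 + Real.log e -
      (e : ℝ) * (Real.log ((e : ℝ) + 1) - Real.log e)) / Real.log 2 :=
    div_nonneg (by linarith) hl2.le
  linarith

theorem anti (e e' : ℕ) (he : 1 ≤ e) (h : e ≤ e') : pw e' ≤ pw e := by
  induction e', h using Nat.le_induction with
  | base => exact le_rfl
  | succ m hm ih => exact (step m (he.trans hm)).trans ih

theorem half (e : ℕ) (he : 1 ≤ e) : pw (16 * e) ≤ pw e / 2 := by
  have he0 : (0 : ℝ) < e := by exact_mod_cast he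
  have he1 : (1 : ℝ) ≤ e := by exact_mod_cast he
  have h1 : 0 ≤ Real.logb 2 e := Real.logb_nonneg one_lt_two he1
  have h2 : Real.logb 2 ((16 * e : ℕ) : ℝ) = 4 + Real.logb 2 e := by
    push_cast
    rw [Real.logb_mul (by norm_num) he0.ne']
    congr 1
    rw [show (16 : ℝ) = 2 ^ (4 : ℝ) by norm_num]
    exact Real.logb_rpow (by norm_num) (by norm_num)
  unfold pw
  rw [h2]
  push_cast
  rw [div_div, div_le_div_iff₀ (by positivity) (by positivity)]
  nlinarith [mul_nonneg h1 he0.le]

theorem one_eq : pw 1 = 1 := by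
  unfold pw
  simp

end PW_

open PW_ in
theorem p_PW : T_PW := by
  refine ⟨anti, fun e e' he h => (anti (16 * e) e' (by omega) h).trans (half e he), ?_⟩
  intro e
  rcases Nat.eq_zero_or_pos e with h | h
  · subst h
    unfold pw
    simp
  · have h1 : (1 : ℝ) ≤ e := by exact_mod_cast h
    refine ⟨?_, ?_⟩
    · unfold pw
      have := Real.logb_nonneg one_lt_two h1
      positivity
    · rw [← one_eq]
      exact anti 1 e le_rfl h

end Pool.Agent.NRP
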