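import Pool.Agent.NRP.Targets

/-!
# NRP, STP: one step (MP_552896_co)
-/

set_option autoImplicit false

open Finset Classical

namespace Pool.Agent.NRP

open Pool.Agent.Lib.Recon Pool.Agent.RNB Pool.Agent.NRC Pool.Agent.NRQ

namespace STP_

variable {V : Type} [Fintype V]

theorem co_mono {G : SimpleGraph V} {T : Finset V} {c c' : ℝ} (h : Co G T c) (hc : c ≤ c') :
    Co G T c' := by
  cases h with
  | base h0 => exact Co.base (h0.trans hc)
  | step h1 h2 h3 h4 h5 => exact Co.step h1 h2 h3 h4 (h5.trans hc)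

theorem cl_sub (G : SimpleGraph V) {B C : Finset V} (h : B ⊆ C) (v : V) :
    cl G C v ⊆ cl G B v := by
  intro y hy
  simp only [cl, Finset.mem_filter, Finset.mem_univ, true_and] at hy ⊢
  exact ⟨fun hh => hy.1 (h hh), fun b hb => hy.2 b (h hb)⟩

theorem mem_self (G : SimpleGraph V) {B : Finset V} {v : V} (h : v ∉ B) : v ∈ cl G B v := by
  simp [cl, h]

theorem mk_mono {G : SimpleGraph V} {T T' : Finset V} {ms : V → ℕ} (h : T ⊆ T')
    (hM : Mk (kc G) T ms) : Mk (kc G) T' ms := by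
  intro y hy
  exact (Finset.card_le_card (cl_sub G h y)).trans (hM y hy)

theorem nr_mono {G : SimpleGraph V} {d : ℕ} {T T' : Finset V} (h : T ⊆ T') (hN : Nr G d T) :
    Nr G d T' := by
  intro u v hu hv huv hh
  exact hN u v (fun e => hu (h e)) (fun e => hv (h e)) huv (fun a ha => hh a (h ha))

theorem one_le_KK : 1 ≤ KK := by
  unfold KK
  exact Nat.pos_of_ne_zero (pow_ne_zero _ two_ne_zero)

theorem num_aux (kh l q e N : ℕ) (hl : 0 < l) (h : 6 * kh * l ≤ q) (h2 : q * e ≤ N) :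
    6 * (kh : ℝ) * e ≤ (N : ℝ) / l := by
  have hl' : (0 : ℝ) < l := by exact_mod_cast hl
  rw [le_div_iff₀ hl']
  have e1 : 6 * kh * e * l ≤ N := by
    calc 6 * kh * e * l = 6 * kh * l * e := by ring
      _ ≤ q * e := Nat.mul_le_mul_right _ h
      _ ≤ N := h2
  exact_mod_cast e1

theorem fin_aux (c a1 b1 a2 a3 b3 a4 a5 ph X m : ℝ) (c1 : a1 ≤ b1) (c2 : a2 ≤ X / m)
    (c3 : a3 ≤ b3) (c4 : a4 ≤ 8 * (X / m)) (c5 : a5 ≤ X / m) (h0 : 0 ≤ X / m) :
    c + a1 + a2 + a3 + a4 + a5 + ph ≤ c + b1 + 18 * X / m + b3 + ph := by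
  have c6 : 18 * X / m = 18 * (X / m) := by ring
  rw [c6]
  linarith

end STP_

open STP_ in
/-- STP -/
theorem p_STP (h1 : T_LVS) (h2 : T_LVT) (h3 : T_ECO) (h4 : T_CLO) (h5 : T_NUM) (h6 : T_XBD)
    (h7 : T_CBN) : T_STP := by
  intro V _ G A T01 T1 T g1 qq hh1 d M ms c hR hKd hdn hqq hM hCx hT1 hdist hNr hMk hms hCo
  have hA : A ∪ EE G g1 A ⊆ T := (hCx.lv.sub.trans hCx.sub).trans hT1
  obtain ⟨T2, hT2, hRich, hcard⟩ := hR T hA
  obtain ⟨-, n2, n3, n4, n5, n6, n7⟩ := h5 d hKd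
  have hKK : 1 ≤ KK := one_le_KK
  have hd1 : 1 ≤ d := hKK.trans hKd
  have hd2 : 1 ≤ d ^ 2 := Nat.one_le_pow _ _ hd1
  have hn1 : 1 ≤ Fintype.card V := hd1.trans hdn
  have hNr2 : Nr G d T2 := nr_mono hT2 hNr
  have hCo2 := h7 V G T T2 _ hT2 hCo
  have hCo3 := h3 V G d T2 _ hKd hNr2 hCo2
  have hLv := h2 V G d T2 hKd hNr2
  have hT20 : T2 ⊆ T2 ∪ EE G (d ^ 2) T2 := Finset.subset_union_left
  have hMk0 : Mk (kc G) (T2 ∪ EE G (d ^ 2) T2) ms := mk_mono (hT2.trans hT20) hMk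
  have hnx : nx d ≤ Fintype.card V := by omega
  have hPLm : ∀ y ∈ PL G (d ^ 2) (d ^ 4) T2 (T2 ∪ EE G (d ^ 2) T2), ms y = 0 ∨ d ^ 4 < ms y := by
    intro y hy
    by_cases h0 : ms y = 0
    · exact Or.inl h0
    · right
      have e1 := hMk0 y h0
      simp only [PL, LA, Finset.mem_filter, Finset.mem_univ, true_and] at hy
      exact hy.1.2.trans_le e1
  have hρ : ∀ Q : Finset V, Q ⊆ PL G (d ^ 2) (d ^ 4) T2 (T2 ∪ EE G (d ^ 2) T2) → M < Q.card →
      (∀ y ∈ Q, IN G (2 * d ^ 2) T2 y ⊆ Q) →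
      ∃ y ∈ Q, 1 + Real.logb 2 (kc G (T2 ∪ EE G (d ^ 2) T2) y) ≤ 1 + Real.logb 2 qq := by
    intro Q hQ hQM hQc
    by_contra hcon
    push Not at hcon
    have hbig : ∀ y ∈ Q, qq < kc G (T2 ∪ EE G (d ^ 2) T2) y := by
      intro y hy
      by_contra hle
      have hy0 : y ∉ T2 ∪ EE G (d ^ 2) T2 := by
        have := hQ hy
        simp only [PL, Finset.mem_filter] at this
        exact this.2
      have hpos : 0 < kc G (T2 ∪ EE G (d ^ 2) T2) y :=
        Finset.card_pos.2 ⟨y, mem_self G hy0⟩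
      have e1 : Real.logb 2 (kc G (T2 ∪ EE G (d ^ 2) T2) y) ≤ Real.logb 2 qq := by
        refine Real.logb_le_logb_of_le (by norm_num) (by exact_mod_cast hpos) ?_
        exact_mod_cast not_lt.1 hle
      have e2 := hcon y hy
      linarith
    obtain ⟨e1, e2⟩ := h4 V G A T01 T1 T2 Q g1 qq hh1 (d ^ 2) (d ^ 4) hd2 hqq hCx
      (hT1.trans hT2) hQ hQc hbig
    have hne : Q.Nonempty := Finset.card_pos.1 (by omega)
    obtain ⟨y, hy, hyT⟩ := hCx.cls Q e1 hne e2
    have := hQ hy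
    simp only [PL, Finset.mem_filter] at this
    exact this.2 (hT20 ((hT1.trans hT2) hyT))
  rcases h1 V G (d ^ 2) (d ^ 4) (2 * d) M (nx d) (Fintype.card V / lam d ^ 2) T2
    (T2 ∪ EE G (d ^ 2) T2) ms (c + (1 + Real.logb 2 (Fintype.card V)) * (T2 \ T).card +
      lam d * (2 * Fintype.card V / d)) (1 + Real.logb 2 qq) hn1 hnx hdist hLv hMk0 hms hPLm
    (co_mono hCo3 (le_of_eq (by ring))) hρ with hAl | hB
  · exact Or.inl ⟨T2, hT2, hRich, hNr2, hAl⟩
  · right
    obtain ⟨T', ms', s, x, e, k1, k2, k3, k4, k5, k6, k7, -, k9⟩ := hB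
    refine ⟨T', ms', (hT2.trans hT20).trans k1, k2, k6, k7, co_mono k9 ?_⟩
    have hl0 : 0 < lam d := lt_of_lt_of_le (Nat.succ_pos _) n7
    have c5 := num_aux KH (lam d) (d ^ 4) e (Fintype.card V) hl0 n6 k4
    clear hms hdist hKd k7 hKK n6
    have hN : (0 : ℝ) < Fintype.card V := by exact_mod_cast hn1
    have hN1 : (1 : ℝ) ≤ Fintype.card V := by exact_mod_cast hn1
    have hqq1 : 1 ≤ qq := by omega
    have hqr : (1 : ℝ) ≤ qq := by exact_mod_cast hqq1
    have hMr : (0 : ℝ) < M := by exact_mod_cast hM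
    have hdr : (0 : ℝ) < d := by exact_mod_cast hd1
    have hm : (40005 : ℝ) ≤ (lam d : ℝ) := by exact_mod_cast n7
    have hm0 : (0 : ℝ) < (lam d : ℝ) := by linarith
    have hlN : 0 ≤ Real.logb 2 (Fintype.card V) := Real.logb_nonneg (by norm_num) hN1
    have hlq : 0 ≤ Real.logb 2 qq := Real.logb_nonneg (by norm_num) hqr
    have c1 : (1 + Real.logb 2 (Fintype.card V)) * ((T2 \ T).card : ℝ) ≤
        (1 + Real.logb 2 (Fintype.card V)) * (4 * g1 * Fintype.card V / qq) := by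
      refine mul_le_mul_of_nonneg_left ?_ (by linarith)
      rw [le_div_iff₀ (by linarith)]
      have : ((qq * (T2 \ T).card : ℕ) : ℝ) ≤ ((4 * g1 * Fintype.card V : ℕ) : ℝ) := by
        exact_mod_cast hcard
      push_cast at this
      linarith
    have c2 : (lam d : ℝ) * (2 * Fintype.card V / d) ≤ Fintype.card V / lam d := by
      have e1 : (8 : ℝ) * (lam d : ℝ) ^ 2 ≤ d := by exact_mod_cast n3
      rw [le_div_iff₀ hm0]
      have e2 : (lam d : ℝ) * (2 * Fintype.card V / d) * lam d =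
          Fintype.card V * (2 * (lam d : ℝ) ^ 2) / d := by ring
      rw [e2, div_le_iff₀ hdr]
      refine mul_le_mul_of_nonneg_left ?_ hN.le
      have : 0 ≤ (lam d : ℝ) ^ 2 := by positivity
      linarith
    have c3 : (1 + Real.logb 2 qq) * (s : ℝ) ≤
        (1 + Real.logb 2 qq) * (Fintype.card V / M) := by
      refine mul_le_mul_of_nonneg_left ?_ (by linarith)
      rw [le_div_iff₀ hMr]
      have : ((M * s : ℕ) : ℝ) ≤ (Fintype.card V : ℝ) := by exact_mod_cast k3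
      push_cast at this
      linarith
    have hx : (x : ℝ) ≤ Fintype.card V / (lam d : ℝ) ^ 2 := by
      rw [le_div_iff₀ (by positivity)]
      have e1 := h6 (Fintype.card V) (lam d) (1 + d ^ 4 + 2 * d * (2 * d ^ 2)) (by omega)
        (by unfold nx at hnx; exact hnx) n5
      refine le_trans (mul_le_mul_of_nonneg_right k5 (by positivity)) (le_trans (le_of_eq ?_) e1)
      unfold nx
      push_cast
      ring
    have hk : ((Fintype.card V / lam d ^ 2 : ℕ) : ℝ) ≤ Fintype.card V / (lam d : ℝ) ^ 2 := by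
      have := @Nat.cast_div_le ℝ _ _ _ (Fintype.card V) (lam d ^ 2)
      push_cast at this
      exact this
    have c4 : 4 * (1 + Real.logb 2 ((d ^ 4 : ℕ) : ℝ)) *
        (((Fintype.card V / lam d ^ 2 : ℕ) : ℝ) + x) ≤ 8 * (Fintype.card V / lam d) := by
      have e1 : 4 * (1 + Real.logb 2 ((d ^ 4 : ℕ) : ℝ)) ≤ 4 * (lam d : ℝ) := by linarith
      have e2 : ((Fintype.card V / lam d ^ 2 : ℕ) : ℝ) + x ≤
          2 * (Fintype.card V / (lam d : ℝ) ^ 2) := by linarith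
      calc 4 * (1 + Real.logb 2 ((d ^ 4 : ℕ) : ℝ)) *
            (((Fintype.card V / lam d ^ 2 : ℕ) : ℝ) + x)
          ≤ 4 * (lam d : ℝ) * (((Fintype.card V / lam d ^ 2 : ℕ) : ℝ) + x) :=
            mul_le_mul_of_nonneg_right e1 (by positivity)
        _ ≤ 4 * (lam d : ℝ) * (2 * (Fintype.card V / (lam d : ℝ) ^ 2)) :=
            mul_le_mul_of_nonneg_left e2 (by positivity)
        _ = 8 * (Fintype.card V / lam d) := by
            field_simp
            ring
    have hNm : 0 ≤ (Fintype.card V : ℝ) / lam d := div_nonneg hN.le hm0.le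
    refine le_trans (le_of_eq ?_) (fin_aux c _ _ _ _ _ _ _ (Ph ms') (Fintype.card V) (lam d)
      c1 c2 c3 c4 c5 hNm)
    ring

end Pool.Agent.NRP
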