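import Pool.Agent.NRP.Targets
import Pool.Agent.NRC.P_SYM

/-!
# NRP, target SYS: every level is a system
-/

set_option autoImplicit false

open Finset Classical

namespace Pool.Agent.NRP

open Pool.Agent.Lib.Recon Pool.Agent.RNB Pool.Agent.NRC Pool.Agent.NRQ

namespace SYS_

variable {V : Type} [Fintype V]

lemma mem_cl {G : SimpleGraph V} {B : Finset V} {v y : V} :
    y ∈ cl G B v ↔ y ∉ B ∧ ∀ b ∈ B, (G.Adj b v ↔ G.Adj b y) := by
  unfold cl
  simp only [mem_filter, mem_univ, true_and]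

lemma mem_IN {G : SimpleGraph V} {k : ℕ} {A : Finset V} {y z : V} :
    z ∈ IN G k A y ↔ z ∉ A ∧ z ≠ y ∧ (cl G (insert z A) y).card ≤ k := by
  unfold IN
  simp only [mem_filter, mem_univ, true_and]

lemma mem_PL {G : SimpleGraph V} {g q : ℕ} {A T0 : Finset V} {y : V} :
    y ∈ PL G g q A T0 ↔ y ∈ LA G g q A ∧ y ∉ T0 := by
  unfold PL
  simp only [mem_filter]

lemma mem_LA {G : SimpleGraph V} {g q : ℕ} {A : Finset V} {y : V} :
    y ∈ LA G g q A ↔ y ∉ A ∪ EE G g A ∧ q < (cl G (A ∪ EE G g A) y).card := by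
  unfold LA
  simp only [mem_filter, mem_univ, true_and]

lemma cl_anti {G : SimpleGraph V} {B B' : Finset V} (h : B ⊆ B') (v : V) :
    cl G B' v ⊆ cl G B v := by
  intro y hy
  rw [mem_cl] at hy ⊢
  exact ⟨fun hB => hy.1 (h hB), fun b hb => hy.2 b (h hb)⟩

lemma cl_eq {G : SimpleGraph V} {B : Finset V} {v y : V} (h : y ∈ cl G B v) :
    cl G B y = cl G B v := by
  rw [mem_cl] at h
  ext u
  rw [mem_cl, mem_cl]
  constructor
  · rintro ⟨h1, h2⟩
    exact ⟨h1, fun b hb => (h.2 b hb).trans (h2 b hb)⟩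
  · rintro ⟨h1, h2⟩
    exact ⟨h1, fun b hb => (h.2 b hb).symm.trans (h2 b hb)⟩

lemma co_mono {G : SimpleGraph V} {T : Finset V} {c c' : ℝ} (h : Co G T c) (hc : c ≤ c') :
    Co G T c' := by
  cases h with
  | base h0 => exact Co.base (h0.trans hc)
  | step h1 h2 h3 h4 h5 => exact Co.step h1 h2 h3 h4 (h5.trans hc)

lemma key (h1 : T_ARR) {G : SimpleGraph V} {g q h : ℕ} {A T0 : Finset V}
    (hL : Lv G g q h A T0) {y z : V} (hy : y ∈ PL G g q A T0) (hz : z ∈ PL G g q A T0)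
    (hzy : z ∈ IN G (2 * g) A y) : cl G (insert z T0) y ⊆ IN G (2 * g) A z := by
  intro u hu
  have hA0 : A ⊆ T0 := subset_union_left.trans hL.sub
  have hu0 : u ∈ cl G T0 y := cl_anti (subset_insert z T0) y hu
  have huA : u ∈ cl G (insert z A) y := cl_anti (insert_subset_insert z hA0) y hu
  have huP := (h1 V G g q A T0 hL.sub y hy u hu0).1
  have huz : u ≠ z := by
    intro e
    exact (mem_cl.1 hu).1 (by rw [e]; exact mem_insert_self z T0)
  rw [mem_IN] at hzy
  have hzu : z ∈ IN G (2 * g) A u := by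
    rw [mem_IN, cl_eq huA]
    exact ⟨hzy.1, huz.symm, hzy.2.2⟩
  exact p_SYM V G g q h A hL.q1 u z (mem_PL.1 huP).1 (mem_PL.1 hz).1 (hL.ind u huP)
    (hL.ind z hz) hzu

lemma self_mem {G : SimpleGraph V} {g q : ℕ} {A T0 : Finset V} {y z : V}
    (hy : y ∈ PL G g q A T0) (hzy : z ∈ IN G (2 * g) A y) : y ∈ cl G (insert z T0) y := by
  rw [mem_cl]
  refine ⟨?_, fun b _ => Iff.rfl⟩
  rw [mem_insert, not_or]
  exact ⟨(mem_IN.1 hzy).2.1.symm, (mem_PL.1 hy).2⟩

end SYS_

open SYS_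

theorem p_SYS (h1 : T_ARR) : T_SYS := by
  intro V _ G g q h A T0 hL
  have hq1 : 1 ≤ q := by
    have := hL.q1
    omega
  have hqR : (1 : ℝ) ≤ q := by exact_mod_cast hq1
  have hlq : 0 ≤ Real.logb 2 q := Real.logb_nonneg (by norm_num) hqR
  have hA0 : A ⊆ T0 := subset_union_left.trans hL.sub
  constructor
  · exact fun T c c' hc hcc => co_mono hc hcc
  · exact fun T T' y hT => card_le_card (cl_anti hT y)
  · intro T c z hT hz hc
    by_cases hz0 : z ∈ T0
    · rw [insert_eq_of_mem (hT hz0)]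
      exact co_mono hc (by linarith)
    · refine Co.step hc (hL.sub.trans hT) hq1 ?_ le_rfl
      by_contra hlt
      push Not at hlt
      exact hz (mem_PL.2 ⟨mem_LA.2 ⟨fun h2 => hz0 (hL.sub h2), hlt⟩, hz0⟩)
  · intro T c y z hT hy hzy hzT hc
    refine Co.step hc (C := insert z A) ?_ hq1 ?_ le_rfl
    · exact insert_subset hzT (hA0.trans hT)
    · have h2 := (mem_IN.1 hzy).2.2
      have h3 := hL.q1
      omega
  · intro T c y z hT hy hz hzy hzT hc
    have h2 := key h1 hL hy hz hzy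
    refine Co.step hc (C := insert z T0) (insert_subset hzT hT) ?_ (card_le_card h2) le_rfl
    exact card_pos.2 ⟨y, h2 (self_mem hy hzy)⟩
  · intro T y z hT hy hz hzy hzT
    exact card_le_card ((cl_anti (insert_subset hzT hT) y).trans (key h1 hL hy hz hzy))
  · linarith
  · have h2 : (h : ℝ) ≤ q := by
      have := hL.q2
      exact_mod_cast (by omega : h ≤ q)
    have h3 : (0 : ℝ) < h := by exact_mod_cast hL.h1
    have := Real.logb_le_logb_of_le (by norm_num : (1 : ℝ) < 2) h3 h2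
    linarith
  · exact hL.ind
  · intro y hy z hz hzy
    exact p_SYM V G g q h A hL.q1 y z (mem_PL.1 hy).1 (mem_PL.1 hz).1 (hL.ind y hy)
      (hL.ind z hz) hzy
  · exact hL.q2

end Pool.Agent.NRP
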