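import Pool.Agent.NRP.Targets

/-!
# NRP: a shortest walk
-/

set_option autoImplicit false

open Finset Classical

namespace Pool.Agent.NRP

open Pool.Agent.Lib.Recon Pool.Agent.RNB Pool.Agent.NRC

namespace WLK_

variable {V : Type}

/-- there is a walk of length `m` from `t` to `y` in `P` -/
def Wk (I : V → Finset V) (P : Finset V) (t : V) (m : ℕ) (y : V) : Prop :=
  ∃ p : ℕ → V, p 0 = t ∧ (∀ j ≤ m, p j ∈ P) ∧ (∀ j < m, p (j + 1) ∈ I (p j)) ∧ p m = y

theorem ext {I : V → Finset V} {P : Finset V} {t : V} {m : ℕ} {y y' : V}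
    (h : Wk I P t m y) (h1 : y' ∈ P) (h2 : y' ∈ I y) : Wk I P t (m + 1) y' := by
  obtain ⟨p, p1, p2, p3, p4⟩ := h
  refine ⟨fun j => if j ≤ m then p j else y', ?_, ?_, ?_, ?_⟩
  · simp [p1]
  · intro j hj
    by_cases hjm : j ≤ m
    · simp only [hjm, if_true]
      exact p2 j hjm
    · simp only [hjm, if_false]
      exact h1
  · intro j hj
    have hjm : j ≤ m := by omega
    by_cases hj1 : j + 1 ≤ m
    · simp only [hj1, hjm, if_true]
      exact p3 j (by omega)
    · have hjm' : j = m := by omega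
      simp only [hj1, hjm, if_true, if_false]
      rw [hjm', p4]
      exact h2
  · simp

theorem pre {I : V → Finset V} {P : Finset V} {t : V} {m : ℕ} {p : ℕ → V} (p1 : p 0 = t)
    (p2 : ∀ j ≤ m, p j ∈ P) (p3 : ∀ j < m, p (j + 1) ∈ I (p j)) {i : ℕ} (hi : i ≤ m) :
    Wk I P t i (p i) :=
  ⟨p, p1, fun j hj => p2 j (hj.trans hi), fun j hj => p3 j (by omega), rfl⟩

/-- `y` is in `T` or has an arrow from `T` or from outside `P` -/
def Near (I : V → Finset V) (P T : Finset V) (y : V) : Prop :=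
  y ∈ T ∨ ∃ z ∈ I y, z ∈ T ∨ z ∉ P

end WLK_

open WLK_

theorem p_WLK : T_WLK := by
  intro V _ I P T t ht hR
  have hex : ∃ m, ∃ y, Wk I P t m y ∧ Near I P T y := by
    obtain ⟨y, hy, hn⟩ := hR
    unfold cmp at hy
    rw [mem_filter] at hy
    have h1 : ∀ z, Relation.ReflTransGen (fun a b => b ∈ P ∧ b ∈ I a) t z →
        ∃ m, Wk I P t m z := by
      intro z hz
      induction hz with
      | refl => exact ⟨0, fun _ => t, rfl, fun _ _ => ht, fun j hj => absurd hj (by omega), rfl⟩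
      | tail _ hbc ih =>
        obtain ⟨m, hm⟩ := ih
        exact ⟨m + 1, ext hm hbc.1 hbc.2⟩
    obtain ⟨m, hm⟩ := h1 y hy.2
    exact ⟨m, y, hm, hn⟩
  obtain ⟨y, ⟨p, p1, p2, p3, p4⟩, hn⟩ := Nat.find_spec hex
  have hmin : ∀ k y, Wk I P t k y → Near I P T y → Nat.find hex ≤ k := fun k y h1 h2 =>
    Nat.find_min' hex ⟨y, h1, h2⟩
  generalize Nat.find hex = m at p2 p3 p4 hmin
  have hA : ∀ j, j < m → ¬ Near I P T (p j) := by
    intro j hj hnj
    have := hmin j (p j) (pre p1 p2 p3 hj.le) hnj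
    omega
  refine ⟨m, p, p1, p2, p3, ?_, ?_, ?_⟩
  · rw [p4]
    exact hn
  · intro i hi y hy
    have h1 := hA i (by omega)
    unfold Near at h1
    push Not at h1
    obtain ⟨y1, y2⟩ := h1.2 y hy
    have h2 : ¬ Near I P T y := by
      intro h3
      have := hmin (i + 1) y (ext (pre p1 p2 p3 (by omega)) y2 hy) h3
      omega
    refine ⟨y2, y1, ?_⟩
    unfold Near at h2
    push Not at h2
    intro z hz
    exact ⟨(h2.2 z hz).2, (h2.2 z hz).1⟩
  · intro i j y hij hjm hy hyi hyj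
    have h1 : Wk I P t (i + 1) y := ext (pre p1 p2 p3 (by omega)) hy hyi
    have h2 : Wk I P t (i + 2) (p j) := ext h1 (p2 j hjm) hyj
    have h3 : ∀ k, j + k ≤ m → Wk I P t (i + 2 + k) (p (j + k)) := by
      intro k
      induction k with
      | zero => intro _; exact h2
      | succ k ih =>
        intro hk
        exact ext (ih (by omega)) (p2 _ hk) (p3 (j + k) (by omega))
    have h4 := h3 (m - j) (by omega)
    have e : j + (m - j) = m := by omega
    rw [e] at h4
    have := hmin _ _ h4 (by rw [p4]; exact hn)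
    omega

end Pool.Agent.NRP
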