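import Pool.Agent.NRP.Targets

/-!
# NRP: XBD, the number of exceptions on one level
-/

set_option autoImplicit false

open Finset Classical

namespace Pool.Agent.NRP

namespace XBD_

theorem two_le_exp : (2 : ℝ) ≤ Real.exp (7 / 10) := by
  calc (2 : ℝ) = Real.exp (Real.log 2) := (Real.exp_log (by norm_num)).symm
    _ ≤ Real.exp (7 / 10) := Real.exp_le_exp.2 (by
        have := Real.log_two_lt_d9
        linarith)

theorem exp_bound (m Q : ℕ) (hm : 1 ≤ m) (hQ : Q ≤ 2 ^ (2 * m + 2)) :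
    (Q : ℝ) * (m : ℝ) ^ 2 ≤ Real.exp (4 * m) := by
  have h1 : (Q : ℝ) ≤ Real.exp ((2 * m + 2) * (7 / 10)) := by
    have h2 : (Q : ℝ) ≤ (2 : ℝ) ^ (2 * m + 2) := by exact_mod_cast hQ
    refine h2.trans ((pow_le_pow_left₀ (by norm_num) two_le_exp _).trans (le_of_eq ?_))
    rw [← Real.exp_nat_mul]
    push_cast
    rfl
  have h2 : (m : ℝ) ^ 2 ≤ Real.exp (2 * (m - 1)) := by
    have h3 : (m : ℝ) ≤ Real.exp (m - 1) := by
      have := Real.add_one_le_exp ((m : ℝ) - 1)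
      linarith
    calc (m : ℝ) ^ 2 ≤ Real.exp (m - 1) ^ 2 := pow_le_pow_left₀ (Nat.cast_nonneg _) h3 2
      _ = Real.exp (2 * (m - 1)) := by
          rw [← Real.exp_nat_mul]
          norm_num
  have h3 : (1 : ℝ) ≤ m := by exact_mod_cast hm
  calc (Q : ℝ) * (m : ℝ) ^ 2 ≤ Real.exp ((2 * m + 2) * (7 / 10)) * Real.exp (2 * (m - 1)) :=
        mul_le_mul h1 h2 (by positivity) (Real.exp_pos _).le
    _ = Real.exp ((2 * m + 2) * (7 / 10) + 2 * (m - 1)) := (Real.exp_add _ _).symm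
    _ ≤ Real.exp (4 * m) := Real.exp_le_exp.2 (by linarith)

end XBD_

open XBD_ in
theorem p_XBD : T_XBD := by
  intro n m Q hm hn hQ
  have hm0 : (1 : ℝ) ≤ m := by exact_mod_cast hm
  have hmm : 1 ≤ m ^ 2 := Nat.one_le_pow _ _ hm
  have hm3 : m ^ 2 ≤ m ^ 3 := Nat.pow_le_pow_right hm (by norm_num)
  have hn1 : m ^ 2 ≤ n := by omega
  have hn0 : (0 : ℝ) < n := by
    have : 0 < n := by omega
    exact_mod_cast this
  have hk1 : 1 ≤ n / m ^ 2 := (Nat.one_le_div_iff (by omega)).2 hn1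
  have hk2 : n < m ^ 2 * (n / m ^ 2 + 1) := Nat.lt_mul_div_succ n (by omega)
  have hk3 : n ≤ 2 * m ^ 2 * (n / m ^ 2) := by nlinarith
  have hk : (n : ℝ) ≤ 2 * (m : ℝ) ^ 2 * ((n / m ^ 2 : ℕ) : ℝ) := by exact_mod_cast hk3
  have hnR : 16 * (m : ℝ) ^ 3 ≤ n := by exact_mod_cast hn
  set k : ℕ := n / m ^ 2 with hkd
  set x : ℝ := ((16 * m ^ 3 : ℕ) : ℝ) / (2 * n) with hx
  have hx1 : x = 8 * (m : ℝ) ^ 3 / n := by
    rw [hx]
    push_cast
    field_simp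
    ring
  have hx2 : x ≤ 1 := by
    rw [hx1, div_le_one hn0]
    nlinarith [pow_pos (show (0 : ℝ) < m by linarith) 3]
  have hxk : 4 * (m : ℝ) ≤ x * k := by
    rw [hx1, div_mul_eq_mul_div, le_div_iff₀ hn0]
    calc 4 * (m : ℝ) * n ≤ 4 * (m : ℝ) * (2 * (m : ℝ) ^ 2 * k) :=
          mul_le_mul_of_nonneg_left hk (by positivity)
      _ = 8 * (m : ℝ) ^ 3 * k := by ring
  have h1 : (1 - x) ^ k ≤ Real.exp (-(4 * m)) := by
    have h2 : 1 - x ≤ Real.exp (-x) := by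
      have := Real.add_one_le_exp (-x)
      linarith
    calc (1 - x) ^ k ≤ Real.exp (-x) ^ k := pow_le_pow_left₀ (by linarith) h2 k
      _ = Real.exp (k * (-x)) := (Real.exp_nat_mul _ _).symm
      _ ≤ Real.exp (-(4 * m)) := Real.exp_le_exp.2 (by linarith)
  have h2 := exp_bound m Q hm hQ
  have h3 : (0 : ℝ) ≤ (1 - x) ^ k := pow_nonneg (by linarith) _
  calc (n : ℝ) * Q * (1 - x) ^ k * (m : ℝ) ^ 2 =
        n * (((Q : ℝ) * (m : ℝ) ^ 2) * (1 - x) ^ k) := by ring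
    _ ≤ n * (Real.exp (4 * m) * Real.exp (-(4 * m))) :=
        mul_le_mul_of_nonneg_left (mul_le_mul h2 h1 h3 (Real.exp_pos _).le) hn0.le
    _ = n := by
        rw [← Real.exp_add, add_neg_cancel, Real.exp_zero, mul_one]

end Pool.Agent.NRP
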