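import Pool.Agent.NRC.All
import Pool.Agent.NRQ.P_AL1
import Pool.Agent.NRQ.P_AVQ
import Pool.Agent.NRQ.P_BET
import Pool.Agent.NRQ.P_CDW
import Pool.Agent.NRQ.P_DC1
import Pool.Agent.NRQ.P_DCQ
import Pool.Agent.NRQ.P_EQ1
import Pool.Agent.NRQ.P_EQQ
import Pool.Agent.NRQ.P_EVS
import Pool.Agent.NRQ.P_HNC
import Pool.Agent.NRQ.P_IND
import Pool.Agent.NRQ.P_NAM
import Pool.Agent.NRQ.P_RCB
import Pool.Agent.NRQ.P_RIC
import Pool.Agent.NRQ.P_RSC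
import Pool.Agent.NRQ.P_STP
import Pool.Agent.NRQ.P_UNC
import Pool.Agent.NRQ.P_ZZC
import Pool.Agent.NRP.P_ALQ
import Pool.Agent.NRP.P_ARR
import Pool.Agent.NRP.P_BIQ
import Pool.Agent.NRP.P_CAU
import Pool.Agent.NRP.P_CBN
import Pool.Agent.NRP.P_CBS
import Pool.Agent.NRP.P_CLO
import Pool.Agent.NRP.P_CNX
import Pool.Agent.NRP.P_DON
import Pool.Agent.NRP.P_ECN
import Pool.Agent.NRP.P_ECO
import Pool.Agent.NRP.P_EFR
import Pool.Agent.NRP.P_HLQ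
import Pool.Agent.NRP.P_IND
import Pool.Agent.NRP.P_ITR
import Pool.Agent.NRP.P_LEV
import Pool.Agent.NRP.P_LV1
import Pool.Agent.NRP.P_LVS
import Pool.Agent.NRP.P_LVT
import Pool.Agent.NRP.P_MAI
import Pool.Agent.NRP.P_NBQ
import Pool.Agent.NRP.P_NLV
import Pool.Agent.NRP.P_NRD
import Pool.Agent.NRP.P_NUM
import Pool.Agent.NRP.P_PTC
import Pool.Agent.NRP.P_PTH
import Pool.Agent.NRP.P_PTM
import Pool.Agent.NRP.P_PW
import Pool.Agent.NRP.P_RMK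
import Pool.Agent.NRP.P_ROT
import Pool.Agent.NRP.P_SLR
import Pool.Agent.NRP.P_STP
import Pool.Agent.NRP.P_SYS
import Pool.Agent.NRP.P_WLK
import Pool.Agent.NRP.P_XBD

/-!
# NRP: composition
-/

set_option autoImplicit false

namespace Pool.Agent.NRP

open Pool.Agent

/-! ### code part -/

theorem c_RCB : NRQ.T_RCB := NRQ.p_RCB NRQ.p_EVS

theorem c_NAM : NRQ.T_NAM := NRQ.p_NAM NRQ.p_EVS c_RCB NRC.p_SML

theorem c_BET : NRQ.T_BET := NRQ.p_BET (NRQ.p_CDW c_NAM NRQ.p_STP) NRC.p_NCV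

theorem c_RIC : NRQ.T_RIC := NRQ.p_RIC NRQ.p_UNC

theorem c_DCQ : NRQ.T_DCQ := NRQ.p_DCQ (NRQ.p_RSC NRQ.p_HNC) NRQ.p_IND

theorem c_AL1 : NRQ.T_AL1 := NRQ.p_AL1

/-! ### level part -/

theorem a_PTH : T_PTH := p_PTH p_WLK p_PTC (p_PTM p_PW)

theorem a_LEV : T_LEV := p_LEV (p_CNX a_PTH) p_ROT (p_SYS p_ARR)

theorem a_LVS : T_LVS := p_LVS a_LEV p_SLR (p_NRD p_ARR) (p_RMK p_PW)

theorem a_LVT : T_LVT := p_LVT p_IND

theorem a_ECO : T_ECO := p_ECO p_ECN p_EFR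

theorem a_STP : T_STP := p_STP a_LVS a_LVT a_ECO p_CLO p_NUM p_XBD p_CBN

theorem a_ITR : T_ITR := p_ITR a_STP p_NUM p_PW

theorem a_LV1 : T_LV1 := p_LV1 a_LVS p_CBS p_XBD NRQ.p_ZZC p_NLV

theorem a_DON : T_DON := p_DON p_CAU

theorem a_MAI : T_MAI := p_MAI a_LV1 a_ITR p_NLV a_DON c_AL1 c_BET c_RIC

theorem a_HLQ : T_HLQ := p_HLQ a_MAI

theorem a_BIQ : T_BIQ := p_BIQ a_HLQ p_NBQ NRQ.p_AVQ c_DCQ NRQ.p_EQQ NRQ.p_DC1 NRQ.p_EQ1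

/-- every deck of a graph with `n ≥ 2` vertices has at most `n ^ C` reconstructions -/
theorem all : T_ALQ := p_ALQ a_BIQ

end Pool.Agent.NRP
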