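import Pool.Agent.NRC.All

/-!
# NRP: every deck has at most `n ^ C` reconstructions (MP_552896_co): definitions

Project NRP (owner helper48). The set `T` with few embeddings is now built on several levels. On
level one it is the set of NRC (classes of a random net `A`); on the next levels the classes of the
current set `T` are used, in which any two vertices are distinguished by fewer than `d` others
(`Nr G d T`), `d` decreasing from `(log log n) ^ 4` to a constant.
-/

set_option autoImplicit false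

open Finset Classical

namespace Pool.Agent.NRP

open Pool.Agent.Lib.Recon Pool.Agent.RNB Pool.Agent.NRC

variable {V : Type} [Fintype V]

/-! ### Cost -/

/-- `T` can be built with cost at most `c`: a vertex with at most `k` candidates costs
`1 + log k` -/
inductive Co (G : SimpleGraph V) : Finset V → ℝ → Prop
  | base {c : ℝ} : 0 ≤ c → Co G ∅ c
  | step {T C : Finset V} {y : V} {k : ℕ} {c c' : ℝ} : Co G T c → C ⊆ T → 1 ≤ k →
      (cl G C y).card ≤ k → c + (1 + Real.logb 2 k) ≤ c' → Co G (insert y T) c'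

/-- `(1 + log e) / e`, and `0` for `e = 0` -/
noncomputable def pw (e : ℕ) : ℝ := (1 + Real.logb 2 e) / e

/-- the potential of the marks `ms` (`ms y = 0`: no mark) -/
noncomputable def Ph (ms : V → ℕ) : ℝ := ∑ y, 6 * pw (ms y)

/-- a marked vertex has at most `ms y` candidates -/
def Mk (kz : Finset V → V → ℕ) (T : Finset V) (ms : V → ℕ) : Prop :=
  ∀ y, ms y ≠ 0 → kz T y ≤ ms y

/-- the vertices of `P` without an arrow from `T` or from outside `P` have no mark, or a large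
one -/
def Fr (I : V → Finset V) (P T : Finset V) (q : ℕ) (ms : V → ℕ) : Prop :=
  ∀ y ∈ P, (∀ z ∈ I y, z ∈ P ∧ z ∉ T) → ms y = 0 ∨ q < ms y

/-- the new marks are indegrees of neighbours -/
def Nw (I : V → Finset V) (P : Finset V) (ms ms' : V → ℕ) : Prop :=
  ∀ y, ms' y = ms y ∨ ∃ x ∈ P, y ∈ I x ∧ ms' y = (I x).card

/-- the component of `y` in `P` -/
noncomputable def cmp (I : V → Finset V) (P : Finset V) (y : V) : Finset V :=
  univ.filter (fun z => Relation.ReflTransGen (fun a b => b ∈ P ∧ b ∈ I a) y z)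

/-- `t` is joined by a path in `P` to a vertex which is in `T` or has an arrow from `T` or from
outside `P` -/
def Rch (I : V → Finset V) (P T : Finset V) (t : V) : Prop :=
  ∃ y ∈ cmp I P t, y ∈ T ∨ ∃ z ∈ I y, z ∈ T ∨ z ∉ P

/-- what is used about the arrows when terminals are connected -/
structure Sy (Cf : Finset V → ℝ → Prop) (kz : Finset V → V → ℕ) (I : V → Finset V)
    (P T0 : Finset V) (Λ : ℝ) (h q : ℕ) : Prop where
  mono : ∀ T c c', Cf T c → c ≤ c' → Cf T c'
  anti : ∀ T T' y, T ⊆ T' → kz T' y ≤ kz T y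
  free : ∀ T c z, T0 ⊆ T → z ∉ P → Cf T c → Cf (insert z T) (c + Λ)
  arrow : ∀ T c y z, T0 ⊆ T → y ∈ P → z ∈ I y → z ∈ T → Cf T c → Cf (insert y T) (c + Λ)
  deg : ∀ T c y z, T0 ⊆ T → y ∈ P → z ∈ P → z ∈ I y → z ∈ T → Cf T c →
    Cf (insert y T) (c + (1 + Real.logb 2 (I z).card))
  dom : ∀ T y z, T0 ⊆ T → y ∈ P → z ∈ P → z ∈ I y → z ∈ T → kz T y ≤ (I z).card
  pos : 0 ≤ Λ
  hL : 1 + Real.logb 2 h ≤ Λ
  le : ∀ y ∈ P, (I y).card ≤ h
  sym : ∀ y ∈ P, ∀ z ∈ P, z ∈ I y → y ∈ I z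
  hq : 16 * h ≤ q

/-- `Q` is a small closed connected set -/
def Sc (I : V → Finset V) (P : Finset V) (M : ℕ) (Q : Finset V) : Prop :=
  Q ⊆ P ∧ Q.card ≤ M ∧ (∀ y ∈ Q, I y ⊆ Q) ∧
    ∃ y0 ∈ Q, ∀ y ∈ Q, Relation.ReflTransGen (fun a b => b ∈ Q ∧ b ∈ I a) y0 y

/-! ### One level -/

/-- the vertices of `LA` outside `T0` -/
noncomputable def PL (G : SimpleGraph V) (g q : ℕ) (A T0 : Finset V) : Finset V :=
  (LA G g q A).filter (fun y => y ∉ T0)

/-- the hypotheses of a level: base `A`, current set `T0` -/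
structure Lv (G : SimpleGraph V) (g q h : ℕ) (A T0 : Finset V) : Prop where
  sub : A ∪ EE G g A ⊆ T0
  g1 : 1 ≤ g
  h1 : 1 ≤ h
  q1 : 4 * g + h + 2 ≤ q
  q2 : 16 * h ≤ q
  ind : ∀ y ∈ PL G g q A T0, (IN G (2 * g) A y).card ≤ h

/-- the number of candidates -/
noncomputable def kc (G : SimpleGraph V) (T : Finset V) (y : V) : ℕ := (cl G T y).card

/-- the pairs which must be separated on a level -/
def Pq (G : SimpleGraph V) (g q : ℕ) (A T0 : Finset V) (u v : V) : Prop :=
  u ≠ v ∧ ((v ∉ T0 ∧ v ∉ PL G g q A T0 ∧ u ∈ cl G T0 v) ∨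
    (v ∈ PL G g q A T0 ∧ ∃ z ∈ IN G (2 * g) A v, u ∈ cl G (insert z A) v))

/-- class mates over `T` are distinguished by fewer than `d` vertices -/
def Nr (G : SimpleGraph V) (d : ℕ) (T : Finset V) : Prop :=
  ∀ u v, u ∉ T → v ∉ T → u ≠ v → (∀ a ∈ T, (G.Adj a u ↔ G.Adj a v)) → (dset G u v).card < d

/-- every closed set meets `T` -/
def Cz (I : V → Finset V) (P T : Finset V) : Prop :=
  ∀ Q : Finset V, Q ⊆ P → Q.Nonempty → (∀ y ∈ Q, I y ⊆ Q) → ∃ y ∈ Q, y ∈ T

/-! ### Codes -/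

/-- code of the first level -/
def Gd1 (G : SimpleGraph V) (g M : ℕ) (A : Finset V) (v : V) : Prop :=
  v ∉ A ∧ ∃ (W S : Finset V) (u : V) (b : Bool), u ≠ v ∧ W.card ≤ M ∧ S ⊆ W ∧
    (W = ∅ ∨ ∃ w, w ≠ v ∧ W = BR G g A v w) ∧
    ∀ z, z ≠ v → (G.Adj z v ↔
      if z ∈ W then z ∈ S
      else if z = u then b = true
      else if z ∈ A then G.Adj z u
      else (G.Adj z u ↔ ¬ (sd G A v z u).card ≤ g))

/-! ### Numbers -/

/-- bound for `1 + log` of the number of candidates on the level `d` -/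
def lam (d : ℕ) : ℕ := 4 * Nat.log 2 d + 5

/-- the next level -/
def nx (d : ℕ) : ℕ := 16 * lam d ^ 3

/-- the least number of differences -/
def KK : ℕ := 2 ^ 10000

/-- half of it -/
def KH : ℕ := 2 ^ 9999

/-- bound for small classes, level one -/
def q1 (n : ℕ) : ℕ := 64 * pg n * pL n ^ 3

/-- `1 + log` of this -/
def lam1 (n : ℕ) : ℕ := Nat.log 2 (q1 n) + 1

/-- the second level -/
def d1 (n : ℕ) : ℕ := 16 * lam1 n ^ 3

/-- size of small closed sets, level one -/
def M1 (n : ℕ) : ℕ := 1000000 * pL n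

/-- size of small closed sets, other levels -/
def M2 (n : ℕ) : ℕ := pl n ^ 3

/-- bound for the hints -/
def q2 (n : ℕ) : ℕ := q1 n + pg n * (pg n + 5)

/-- level one and its result -/
structure Cx (G : SimpleGraph V) (A T01 T1 : Finset V) (g1 qq h1 : ℕ) : Prop where
  lv : Lv G g1 qq h1 A T01
  bad : ∀ y, h1 < (ZZ G A y).card → y ∈ T01
  sub : T01 ⊆ T1
  cls : Cz (IN G (2 * g1) A) (PL G g1 qq A T01) T1

end Pool.Agent.NRP
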