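import Pool.Agent.NRP.TargetsF
import Pool.Agent.NRC.P_RSQ
import Pool.Agent.NRC.P_NPA

/-!
# Target HLQ: half of all nets
-/

set_option autoImplicit false

open Finset Classical

namespace Pool.Agent.NRP

open Pool.Agent.Lib.Recon Pool.Agent.RNB Pool.Agent.NRC Pool.Agent.NRQ

namespace HLQ_

lemma card_Bi {V : Type} [Fintype V] {k : ℕ} (x : Fin k → V) (i : ℕ) :
    (Bi (∅ : Finset V) x i).card ≤ k := by
  unfold Bi
  rw [empty_union]
  refine card_image_le.trans ((card_le_univ _).trans ?_)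
  rw [Fintype.card_fin]

lemma pL_pos (n : ℕ) : 0 < pL n := Nat.succ_pos _

end HLQ_

theorem p_HLQ (h1 : T_MAI) : T_HLQ := by
  obtain ⟨n1, h3⟩ := Pool.Agent.NRC.p_NPA
  obtain ⟨n2, h2⟩ := h1
  refine ⟨max (max n1 n2) 1, ?_⟩
  intro V _ G H hn hc hno hd
  have hn1 : n1 ≤ Fintype.card V := ((le_max_left _ _).trans (le_max_left _ _)).trans hn
  have hn2 : n2 ≤ Fintype.card V := ((le_max_right _ _).trans (le_max_left _ _)).trans hn
  have hn3 : 1 ≤ Fintype.card V := (le_max_right _ _).trans hn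
  obtain ⟨-, hnum, -⟩ := h3 _ hn1
  have hn0 : (0 : ℝ) < Fintype.card V := by exact_mod_cast hn3
  have hL0 : (0 : ℝ) < pL (Fintype.card V) := by exact_mod_cast HLQ_.pL_pos _
  have hR := Pool.Agent.NRC.p_RSQ V G (pN (Fintype.card V))
    (4 * (Fintype.card V : ℝ) * (pL (Fintype.card V) : ℝ) ^ 3) (by positivity) hnum
  have hcard : Fintype.card (Fin (pN (Fintype.card V)) × (Fin (pN (Fintype.card V)) → V)) =
      pN (Fintype.card V) * Fintype.card V ^ pN (Fintype.card V) := by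
    rw [Fintype.card_prod, Fintype.card_fun, Fintype.card_fin]
  rw [hcard]
  have hR' : pN (Fintype.card V) * Fintype.card V ^ pN (Fintype.card V) ≤
      2 * (univ.filter (fun p : Fin (pN (Fintype.card V)) × (Fin (pN (Fintype.card V)) → V) =>
        (sm G (Bi ∅ p.2 p.1) : ℝ) ≤
          4 * (Fintype.card V : ℝ) * (pL (Fintype.card V) : ℝ) ^ 3)).card := by
    exact_mod_cast hR
  refine hR'.trans (Nat.mul_le_mul_left 2 (card_le_card ?_))
  intro p hp
  rw [mem_filter] at hp ⊢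
  exact ⟨mem_univ _, h2 V G H hn2 hc hno hd _ (HLQ_.card_Bi _ _) hp.2⟩

end Pool.Agent.NRP
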