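import Pool.Agent.NRP.Targets

/-!
# NRP-RMK: small marks are replaced by `K`
-/

set_option autoImplicit false

open Finset Classical

namespace Pool.Agent.NRP

open Pool.Agent.Lib.Recon Pool.Agent.RNB Pool.Agent.NRC Pool.Agent.NRQ

theorem p_RMK (h1 : T_PW) : T_RMK := by
  intro V _ kz I P T ms ms' K hK hms hNw hMk
  obtain ⟨-, -, hpw⟩ := h1
  refine ⟨fun y => if ms' y = 0 then 0 else max (ms' y) K, ?_, ?_, ?_⟩
  · intro y hy
    by_cases h0 : ms' y = 0
    · exact absurd (if_pos h0) hy
    · show kz T y ≤ if ms' y = 0 then 0 else max (ms' y) K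
      rw [if_neg h0]
      exact (hMk y h0).trans (le_max_left _ _)
  · intro y
    show (if ms' y = 0 then 0 else max (ms' y) K) = 0 ∨
      K ≤ if ms' y = 0 then 0 else max (ms' y) K
    by_cases h0 : ms' y = 0
    · exact Or.inl (if_pos h0)
    · right
      rw [if_neg h0]
      exact le_max_right _ _
  · have hB : (univ.filter (fun y => ms' y ≠ 0 ∧ ms' y < K)).card ≤
        K * (P.filter (fun x => (I x).card < K)).card := by
      have hsub : univ.filter (fun y => ms' y ≠ 0 ∧ ms' y < K) ⊆
          (P.filter (fun x => (I x).card < K)).biUnion I := by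
        intro y hy
        rw [Finset.mem_filter] at hy
        obtain ⟨-, hy0, hyK⟩ := hy
        rcases hNw y with h | ⟨x, hx, hyx, hxy⟩
        · exfalso
          rcases hms y with h2 | h2
          · exact hy0 (h.trans h2)
          · omega
        · rw [Finset.mem_biUnion]
          refine ⟨x, ?_, hyx⟩
          rw [Finset.mem_filter]
          exact ⟨hx, by omega⟩
      refine (Finset.card_le_card hsub).trans ?_
      rw [mul_comm]
      refine Finset.card_biUnion_le_card_mul _ _ _ fun x hx => ?_
      rw [Finset.mem_filter] at hx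
      exact hx.2.le
    unfold Ph
    have hterm : ∀ y ∈ (univ : Finset V), 6 * pw (ms' y) ≤
        6 * pw (if ms' y = 0 then 0 else max (ms' y) K) +
          if ms' y ≠ 0 ∧ ms' y < K then (6 : ℝ) else 0 := by
      intro y _
      by_cases h0 : ms' y = 0
      · rw [if_pos h0, h0, if_neg (by simp)]
        simp
      · rw [if_neg h0]
        by_cases hlt : ms' y < K
        · rw [if_pos ⟨h0, hlt⟩]
          have a1 := (hpw (ms' y)).2
          have a2 := (hpw (max (ms' y) K)).1
          linarith
        · rw [if_neg (fun h => hlt h.2), max_eq_left (by omega)]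
          simp
    refine (Finset.sum_le_sum hterm).trans ?_
    rw [Finset.sum_add_distrib]
    refine add_le_add le_rfl ?_
    rw [← Finset.sum_filter, Finset.sum_const, nsmul_eq_mul]
    have hB' : ((univ.filter (fun y => ms' y ≠ 0 ∧ ms' y < K)).card : ℝ) ≤
        K * (P.filter (fun x => (I x).card < K)).card := by exact_mod_cast hB
    nlinarith [hB']

end Pool.Agent.NRP
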