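import Pool.Agent.NRP.Defs
import Pool.Agent.NRQ.DefsC

/-!
# NRP, level part: exact targets with complete proofs in the docstrings

One file per target: `Pool/Agent/NRP/P_X.lean`, theorem
`Pool.Agent.NRP.p_X (other targets) : T_X`; the targets after `from` are the hypotheses.
Notation as in `Pool/Agent/NRC/Targets.lean`: `n = Fintype.card V`, `In y = IN G (2 * g) A y`,
`side z y = cl G (insert z A) y`. For `y ∉ B` always `y ∈ cl G B y`; `y' ∈ cl G B y` (with `y ∉ B`)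
gives `cl G B y' = cl G B y`; `cl` is antitone in the set. `log` is `Real.logb 2`.
-/

set_option autoImplicit false

open Finset Classical

namespace Pool.Agent.NRP

open Pool.Agent.Lib.Recon Pool.Agent.RNB Pool.Agent.NRC Pool.Agent.NRQ

/-! ## A. cost -/

/-- CBS. PROOF. Induction on `B`: `∅` costs `0`; `insert y B` from `B` with `C = ∅`, `k = n`. -/
def T_CBS : Prop := ∀ (V : Type) [Fintype V] (G : SimpleGraph V) (B : Finset V),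
  Co G B ((1 + Real.logb 2 (Fintype.card V)) * B.card)

/-- CAU. PROOF. Edit `Pool/Agent/NRC/P_AUB.lean` (base `∅`). Fix `T'`. Claim: for `Co G T c`,
`T ⊆ T'`, the image of `Aut0 G ∅ T'` under `σ ↦ (fun v => if v ∈ T then σ v else v)` has at most
`2 ^ c` elements. `T = ∅`: one element. Step `T → insert y T`, `y ∉ T` (if `y ∈ T` nothing changes;
`c ≤ c'`), `y ∈ T'`, `C ⊆ T`: for given values on `T` there are at most `(cl G C y).card ≤ k`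
values `σ y` (as in `P_AUB`), and `2 ^ c * k ≤ 2 ^ (c + log k) ≤ 2 ^ c'`. With `T' = T` the map is
injective. The second part is an induction, `log k ≥ 0`. -/
def T_CAU : Prop := ∀ (V : Type) [Fintype V] (G : SimpleGraph V) (T : Finset V) (c : ℝ),
  Co G T c → ((Aut0 G ∅ T).card : ℝ) ≤ (2 : ℝ) ^ c ∧ (T.card : ℝ) ≤ c

/-- DON (from CAU): the end. PROOF. By `p_EMB` (RNB/P_EMB.lean) with `A0 = ∅`, `A = T`:
`#Embs ≤ n.choose |T| * |Aut0 G ∅ T| ≤ 2 ^ (13 n / 64) * 2 ^ (n / 100)` (`p_BIN`, RNB/P_BIN.lean,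
as `32 |T| ≤ 32 n / 100 ≤ n`; see `Pool/Agent/NRC/P_NF.lean`). So
`(2 * #Embs) ^ 2 ≤ 2 ^ (2 + 0.43 n) < 2 ^ (n - |T|)` for `n ≥ n0`, and `Pool.Agent.NRC.p_RMS` gives
the isomorphism. -/
def T_DON : Prop := ∃ n0 : ℕ, ∀ (V : Type) [Fintype V] (G H : SimpleGraph V) (T : Finset V)
  (c : ℝ), n0 ≤ Fintype.card V → (∀ v, CardIso G H v v) → Dst G T → Co G T c →
  100 * c ≤ Fintype.card V → ∃ α : V ≃ V, ∀ x y, G.Adj x y ↔ H.Adj (α x) (α y)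

/-! ## B. connecting terminals, abstract -/

/-- PW. PROOF. (1) `pw (e+1) ≤ pw e` for `e ≥ 1`: `e (1 + log (e+1)) ≤ (e+1) (1 + log e)` iff
`e log (1 + 1/e) ≤ 1 + log e`; equality for `e = 1`; for `e ≥ 2` the left side is at most
`log (exp 1) < 2 ≤` right side. (2) `pw e' ≤ pw (16 e) = (5 + log e) / (16 e) ≤
(1 + log e) / (2 e)`. (3) `log e ≤ e - 1` for `e ≥ 1` (`e ≤ 2 ^ (e-1)`); `pw 0 = 0`. -/
def T_PW : Prop := (∀ e e' : ℕ, 1 ≤ e → e ≤ e' → pw e' ≤ pw e) ∧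
  (∀ e e' : ℕ, 1 ≤ e → 16 * e ≤ e' → pw e' ≤ pw e / 2) ∧ ∀ e : ℕ, 0 ≤ pw e ∧ pw e ≤ 1

/-- WLK: a shortest walk. Call `y ∈ P` near if `y ∈ T` or some `z ∈ I y` is in `T` or outside `P`.
PROOF. By `Rch` there is a walk `p 0 = t, ..., p m` in `P`, `p (j+1) ∈ I (p j)`, with `p m` near;
take `m` minimal. `p j` is not near for `j < m`. If `i + 2 ≤ m`, `y ∈ I (p i)`: `y ∈ P` (`p i` is
not near) and `y` is not near, otherwise `p 0, ..., p i, y` is a shorter walk (`i + 1 < m`). Last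
part: `p 0, ..., p i, y, p j, ..., p m` is a walk of length `m - (j - i) + 2 ≥ m`. -/
def T_WLK : Prop := ∀ (V : Type) [Fintype V] (I : V → Finset V) (P T : Finset V) (t : V),
  t ∈ P → Rch I P T t → ∃ (m : ℕ) (p : ℕ → V), p 0 = t ∧ (∀ j ≤ m, p j ∈ P) ∧
    (∀ j < m, p (j + 1) ∈ I (p j)) ∧ (p m ∈ T ∨ ∃ z ∈ I (p m), z ∈ T ∨ z ∉ P) ∧
    (∀ i, i + 2 ≤ m → ∀ y ∈ I (p i), y ∈ P ∧ y ∉ T ∧ ∀ z ∈ I y, z ∈ P ∧ z ∉ T) ∧
    ∀ i j y, i < j → j ≤ m → y ∈ P → y ∈ I (p i) → p j ∈ I y → j ≤ i + 2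

/-- PTC: adding the walk. PROOF. If `p m ∉ T` add `p m` by `arrow`, or first some `z ∉ P`,
`z ∈ I (p m)` by `free` and then `p m` by `arrow` (at most `2 Λ`); then `p (m-1)` and `p (m-2)` by
`arrow` (`p (j+1) ∈ I (p j)`, cost `Λ` each; if they exist); then `p j`, `j = m-3, ..., 0`, by
`deg` with `z = p (j+1)`, cost `1 + log |I (p (j+1))|`, `1 ≤ j + 1 ≤ m - 2`. -/
def T_PTC : Prop := ∀ (V : Type) [Fintype V] (Cf : Finset V → ℝ → Prop)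
  (kz : Finset V → V → ℕ) (I : V → Finset V) (P T0 T : Finset V) (Λ c : ℝ) (h q m : ℕ)
  (p : ℕ → V), Sy Cf kz I P T0 Λ h q → T0 ⊆ T → (∀ j ≤ m, p j ∈ P) →
  (∀ j < m, p (j + 1) ∈ I (p j)) → (p m ∈ T ∨ ∃ z ∈ I (p m), z ∈ T ∨ z ∉ P) → Cf T c →
  ∃ T' : Finset V, T ⊆ T' ∧ (∀ j ≤ m, p j ∈ T') ∧
    Cf T' (c + 4 * Λ + ∑ i ∈ Finset.Icc 1 (m - 2), (1 + Real.logb 2 (I (p i)).card))

/-- PTM (from PW): marks. PROOF. `e i = |I (p i)| ≥ 1`, `U` = the union of the sets `I (p i)`,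
`i ∈ J`. For `y ∈ U` put `ms' y = min {e i : i ∈ J, y ∈ I (p i)}`, otherwise `ms' y = ms y`. Let
`y ∈ I (p i)`, `ms' y = e i`. `y ∈ P`, by `sym` `p i ∈ I y`, and `p i ∈ T'`. `Mk`: `kz T' y ≤ e
i` by `dom` (`z = p i`); outside `U` by `anti`. `Nw`: clear. `Fr` for `T'`: for `y ∈ U` the
hypothesis fails (`p i ∈ I y ∩ T'`); outside `U` use `Fr` for `T ⊆ T'`. POTENTIAL: by `Fr` for
`T` and `y ∈ U`: `ms y = 0` or `ms y > q ≥ 16 h ≥ 16 ms' y` (`le`), so `pw (ms y) ≤ pw (ms' y) /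
2` (PW; `pw 0 = 0`), so `Ph ms' - Ph ms ≥ ∑ y ∈ U, 3 * pw (ms' y)`; and `∑ i ∈ J, (1 + log (e i)) =
∑ i ∈ J, ∑ y ∈ I (p i), pw (e i) ≤ ∑ y ∈ U, 3 * pw (ms' y)` (`pw` antitone, at most `3` indices).
-/
def T_PTM : Prop := ∀ (V : Type) [Fintype V] (Cf : Finset V → ℝ → Prop)
  (kz : Finset V → V → ℕ) (I : V → Finset V) (P T0 T T' : Finset V) (Λ : ℝ) (h q : ℕ)
  (ms : V → ℕ) (J : Finset ℕ) (p : ℕ → V), Sy Cf kz I P T0 Λ h q → T0 ⊆ T → T ⊆ T' →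
  Mk kz T ms → Fr I P T q ms →
  (∀ i ∈ J, p i ∈ P ∧ p i ∈ T' ∧ (I (p i)).Nonempty ∧
    ∀ y ∈ I (p i), y ∈ P ∧ y ∉ T ∧ ∀ z ∈ I y, z ∈ P ∧ z ∉ T) →
  (∀ y, (J.filter (fun i => y ∈ I (p i))).card ≤ 3) →
  ∃ ms' : V → ℕ, Mk kz T' ms' ∧ Fr I P T' q ms' ∧ Nw I P ms ms' ∧
    ∑ i ∈ J, (1 + Real.logb 2 (I (p i)).card) + Ph ms ≤ Ph ms'

/-- PTH (from WLK, PTC, PTM): one terminal. PROOF. `m, p` from WLK, `T'` from PTC (with `c + Ph ms`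
for `c`), PTM with `J = Icc 1 (m - 2)`: `I (p i)` contains `p (i+1)`; if `y ∈ I (p i) ∩ I (p j)`,
`i < j` in `J`, then `y ∈ P` and `p j ∈ I y` by `sym`, so `j ≤ i + 2`: at most `3` indices. -/
def T_PTH : Prop := ∀ (V : Type) [Fintype V] (Cf : Finset V → ℝ → Prop)
  (kz : Finset V → V → ℕ) (I : V → Finset V) (P T0 T : Finset V) (Λ c : ℝ) (h q : ℕ)
  (ms : V → ℕ) (t : V), Sy Cf kz I P T0 Λ h q → T0 ⊆ T → t ∈ P → Rch I P T t →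
  Mk kz T ms → Fr I P T q ms → Cf T (c + Ph ms) →
  ∃ (T' : Finset V) (ms' : V → ℕ), T ⊆ T' ∧ t ∈ T' ∧ Mk kz T' ms' ∧ Fr I P T' q ms' ∧
    Nw I P ms ms' ∧ Cf T' (c + 4 * Λ + Ph ms')

/-- CNX (from PTH): a set `R` of terminals. PROOF. Induction on `R` (`Rch` is monotone in `T`,
`Nw` is transitive, `c + 4 Λ` for `c`); a terminal `t ∉ P` is added by `free` (cost `Λ ≤ 4 Λ`,
marks unchanged: `Mk` by `anti`, `Fr` is monotone in `T`). -/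
def T_CNX : Prop := ∀ (V : Type) [Fintype V] (Cf : Finset V → ℝ → Prop)
  (kz : Finset V → V → ℕ) (I : V → Finset V) (P T0 T R : Finset V) (Λ c : ℝ) (h q : ℕ)
  (ms : V → ℕ), Sy Cf kz I P T0 Λ h q → T0 ⊆ T → (∀ t ∈ R, t ∈ P → Rch I P T t) →
  Mk kz T ms → Fr I P T q ms → Cf T (c + Ph ms) →
  ∃ (T' : Finset V) (ms' : V → ℕ), T ⊆ T' ∧ R ⊆ T' ∧ Mk kz T' ms' ∧ Fr I P T' q ms' ∧
    Nw I P ms ms' ∧ Cf T' (c + 4 * Λ * R.card + Ph ms')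

/-- ROT: roots. PROOF. Edit `Pool/Agent/NRC/P_ROO.lean`. For `y ∈ P`: `cmp I P y ⊆ P`, and
`z ∈ cmp I P y` is an equivalence relation on `P` (symmetry of the steps). Choose one element with
`gd` in every component with more than `M` elements which contains an element with `gd` (the choice
is a function of the set `cmp I P y`); the components are disjoint. -/
def T_ROT : Prop := ∀ (V : Type) [Fintype V] (I : V → Finset V) (P : Finset V) (M : ℕ)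
  (gd : V → Prop), (∀ y ∈ P, ∀ z ∈ P, z ∈ I y → y ∈ I z) →
  ∃ Q ⊆ P, M * Q.card ≤ Fintype.card V ∧ (∀ r ∈ Q, gd r) ∧
    ∀ y ∈ P, M < (cmp I P y).card → (∃ y' ∈ cmp I P y, gd y') → ∃ r ∈ Q, r ∈ cmp I P y

/-! ## C. one level of the graph -/

/-- ARR. PROOF. `z ∈ dset G y u`: `z ≠ y`, `z ≠ u`, and `z ∉ T0` since `y, u ∉ T0` have the same
neighbours in `T0`; so `z ∉ A ∪ EE`. `u ∈ cl G A y`, so `z ∉ EE` (with the witnesses `y, u`) gives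
`|side z y| ≤ g` or `|side z u| ≤ g`. `u ∈ PL`: `u ∉ T0`, and `cl G (A ∪ EE) u = cl G (A ∪ EE) y`
has more than `q` elements. -/
def T_ARR : Prop := ∀ (V : Type) [Fintype V] (G : SimpleGraph V) (g q : ℕ)
  (A T0 : Finset V), A ∪ EE G g A ⊆ T0 → ∀ y ∈ PL G g q A T0, ∀ u ∈ cl G T0 y,
  u ∈ PL G g q A T0 ∧ dset G y u ⊆ IN G (2 * g) A y ∪ IN G (2 * g) A u

/-- SYS (from ARR): every level is a system. PROOF. `mono`, `anti`, `pos`, `hL` (`1 ≤ h ≤ q`),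
`le`, `hq`: clear. `free`: if `z ∈ T0` then `insert z T = T`; otherwise `z ∉ A ∪ EE` and `z ∉
LA`, so `|cl G (A ∪ EE) z| ≤ q`, step with `C = A ∪ EE`, `k = q`. `arrow`: step with `C = insert
z A`, `k = q ≥ 2 g` (`A ⊆ T0`). `sym`: `Pool.Agent.NRC.p_SYM`. `deg` and `dom`: it suffices that
`cl G (insert z T0) y ⊆ In z` (it contains `y`, so `k = |In z| ≥ 1`). Let `u` be in it. `u ∈ cl G
T0 y`, so `u ∈ PL` by ARR. `u ∈ side z y` and `u ≠ z`, so `side z u = side z y` has at most `2 g`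
elements and `z ∈ In u`. By symmetry `u ∈ In z`. -/
def T_SYS : Prop := ∀ (V : Type) [Fintype V] (G : SimpleGraph V) (g q h : ℕ)
  (A T0 : Finset V), Lv G g q h A T0 →
  Sy (Co G) (kc G) (IN G (2 * g) A) (PL G g q A T0) T0 (1 + Real.logb 2 q) h q

/-- LEV (from CNX, ROT, SYS): terminals on one level. PROOF. `I = In`, `P = PL`,
`gd y := 1 + log (kc G T0 y) ≤ ρ`; `Q` from ROT, `s = |Q|`. Add the elements of `Q` to `T0` (step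
with `C = T0`, `k = kc G T0 y ≥ 1`, cost at most `ρ`): `T`, cost `c + ρ s + Ph ms`. `Mk` by
antitonicity; `Fr` for `T`, as the marks on `P` are `0` or more than `q`. Suppose there is no
`Sc` set. Let `t ∈ P`, `K = cmp I P t ⊆ P`. Claim `Rch I P T t`. If some `y ∈ K` has `z ∈ I y`,
`z ∉ P`: done. Otherwise `I y ⊆ K` for `y ∈ K`, `K` is closed and connected (the walks from `t`
stay in `K`), so it has more than `M` elements, by hypothesis it contains some `y` with `gd y`,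
so it contains a root `r ∈ Q ⊆ T`. CNX gives `T', ms'`. `Cz`: let `Q1 ⊆ P` be closed, `y ∈ Q1`;
`cmp I P y ⊆ Q1`; by `Rch I P T y` some `y1 ∈ Q1` is in `T` or has `z ∈ I y1 ⊆ Q1 ⊆ P`, `z ∈ T`. -/
def T_LEV : Prop := ∀ (V : Type) [Fintype V] (G : SimpleGraph V) (g q h M : ℕ)
  (A T0 R : Finset V) (ms : V → ℕ) (c ρ : ℝ), Lv G g q h A T0 → Mk (kc G) T0 ms →
  (∀ y ∈ PL G g q A T0, ms y = 0 ∨ q < ms y) → Co G T0 (c + Ph ms) →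
  (∀ Q : Finset V, Q ⊆ PL G g q A T0 → M < Q.card → (∀ y ∈ Q, IN G (2 * g) A y ⊆ Q) →
    ∃ y ∈ Q, 1 + Real.logb 2 (kc G T0 y) ≤ ρ) →
  (∃ Q, Sc (IN G (2 * g) A) (PL G g q A T0) M Q) ∨
  ∃ (T' : Finset V) (ms' : V → ℕ) (s : ℕ), T0 ⊆ T' ∧ R ⊆ T' ∧ M * s ≤ Fintype.card V ∧
    Mk (kc G) T' ms' ∧ Nw (IN G (2 * g) A) (PL G g q A T0) ms ms' ∧
    Cz (IN G (2 * g) A) (PL G g q A T0) T' ∧
    Co G T' (c + ρ * s + 4 * (1 + Real.logb 2 q) * R.card + Ph ms')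

/-- SLR. PROOF. Edit `Pool/Agent/NRC/P_SEL.lean`. `exists_seq` (Lib/Recon/Average.lean) with `J`
= the `y ∈ PL` with `d ≤ 2 |In y|`, sets `In y`, and `J'` = the pairs with `Pq` and `d ≤ |dset G
u v|`, sets `dset G u v`. `|J| ≤ n`, `|J'| ≤ n q + n h (2 g)`: for `v ∉ T0 ∪ PL` the set
`cl G T0 v ⊆ cl G (A ∪ EE) v` has at most `q` elements (`v ∉ LA`, `v ∉ A ∪ EE`). -/
def T_SLR : Prop := ∀ (V : Type) [Fintype V] (G : SimpleGraph V) (g q h d k : ℕ)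
  (A T0 : Finset V), 1 ≤ Fintype.card V → d ≤ Fintype.card V → Lv G g q h A T0 →
  ∃ R X : Finset V, R.card ≤ k ∧
    (X.card : ℝ) ≤ ((Fintype.card V : ℝ) * (1 + q + h * (2 * g))) *
      (1 - (d : ℝ) / (2 * Fintype.card V)) ^ k ∧
    (∀ y ∈ PL G g q A T0, d ≤ 2 * (IN G (2 * g) A y).card → y ∉ X →
      ∃ r ∈ R, r ∈ IN G (2 * g) A y) ∧
    ∀ u v, u ∉ X → Pq G g q A T0 u v → d ≤ (dset G u v).card → ∃ r ∈ R, r ∈ dset G u v

/-- NRD (from ARR). PROOF. Let `u, v ∉ T'`, `u ≠ v`, with the same neighbours in `T'`, and suppose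
`d ≤ |dset G u v|`. `u ∈ cl G T0 v`. If `v ∉ PL`: `Pq u v`, so some `r ∈ R ⊆ T'` is in `dset G u
v`, a contradiction. If `v ∈ PL`: by ARR `u ∈ PL` and `|In u| + |In v| ≥ d`; by symmetry let
`d ≤ 2 |In v|`. There is `r ∈ R`, `r ∈ In v`; `r ∈ T'`, so `r ≠ u` and `u ∈ side r v` (`A ⊆ T'`),
so `Pq u v` (second case) and again a contradiction. -/
def T_NRD : Prop := ∀ (V : Type) [Fintype V] (G : SimpleGraph V) (g q d : ℕ)
  (A T0 R X T' : Finset V), A ∪ EE G g A ⊆ T0 → T0 ⊆ T' → R ⊆ T' → X ⊆ T' →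
  (∀ y ∈ PL G g q A T0, d ≤ 2 * (IN G (2 * g) A y).card → y ∉ X →
    ∃ r ∈ R, r ∈ IN G (2 * g) A y) →
  (∀ u v, u ∉ X → Pq G g q A T0 u v → d ≤ (dset G u v).card → ∃ r ∈ R, r ∈ dset G u v) →
  Nr G d T'

/-- RMK: small marks are replaced by `K`. PROOF. `ms'' y = 0` if `ms' y = 0`, else `max (ms' y) K`.
The `y` with `0 < ms' y < K` have `ms' y ≠ ms y`, so `ms' y = |I x|`, `y ∈ I x`, `x ∈ P`,
`|I x| < K`: at most `K * |{x ∈ P : |I x| < K}|` such `y`, and each term changes by at most `6`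
(`0 ≤ pw ≤ 1`). -/
def T_RMK : Prop := ∀ (V : Type) [Fintype V] (kz : Finset V → V → ℕ) (I : V → Finset V)
  (P T : Finset V) (ms ms' : V → ℕ) (K : ℕ), 1 ≤ K → (∀ y, ms y = 0 ∨ K ≤ ms y) →
  Nw I P ms ms' → Mk kz T ms' →
  ∃ ms'' : V → ℕ, Mk kz T ms'' ∧ (∀ y, ms'' y = 0 ∨ K ≤ ms'' y) ∧
    Ph ms' ≤ Ph ms'' + 6 * K * (P.filter (fun x => (I x).card < K)).card

/-- LVS (from LEV, SLR, NRD, RMK): one level. PROOF. `R0, X` from SLR with `k`, `R = R0 ∪ X` in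
LEV, then NRD for `T'` and RMK with `K = KH`. By `Pool.Agent.NRC.p_ELO` (`d = KK = 2 KH`):
`q * |{y ∈ PL : |In y| < KH}| ≤ n`. `|R| ≤ k + x`, `x = |X|`; `e` = the number of these `y`. -/
def T_LVS : Prop := ∀ (V : Type) [Fintype V] (G : SimpleGraph V) (g q h M d k : ℕ)
  (A T0 : Finset V) (ms : V → ℕ) (c ρ : ℝ), 1 ≤ Fintype.card V → d ≤ Fintype.card V →
  (∀ u v, u ≠ v → KK ≤ (dset G u v).card) →
  Lv G g q h A T0 → Mk (kc G) T0 ms → (∀ y, ms y = 0 ∨ KH ≤ ms y) →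
  (∀ y ∈ PL G g q A T0, ms y = 0 ∨ q < ms y) → Co G T0 (c + Ph ms) →
  (∀ Q : Finset V, Q ⊆ PL G g q A T0 → M < Q.card → (∀ y ∈ Q, IN G (2 * g) A y ⊆ Q) →
    ∃ y ∈ Q, 1 + Real.logb 2 (kc G T0 y) ≤ ρ) →
  (∃ Q, Sc (IN G (2 * g) A) (PL G g q A T0) M Q) ∨
  ∃ (T' : Finset V) (ms' : V → ℕ) (s x e : ℕ), T0 ⊆ T' ∧ Nr G d T' ∧
    M * s ≤ Fintype.card V ∧ q * e ≤ Fintype.card V ∧
    (x : ℝ) ≤ ((Fintype.card V : ℝ) * (1 + q + h * (2 * g))) *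
      (1 - (d : ℝ) / (2 * Fintype.card V)) ^ k ∧
    Mk (kc G) T' ms' ∧ (∀ y, ms' y = 0 ∨ KH ≤ ms' y) ∧
    Cz (IN G (2 * g) A) (PL G g q A T0) T' ∧
    Co G T' (c + ρ * s + 4 * (1 + Real.logb 2 q) * (k + x) + 6 * KH * e + Ph ms')

/-! ## D. the levels after the first -/

/-- IND: base `T`. PROOF. `C = cl G (T ∪ EE) y`, `|C| > q ≥ 4 g + 2`, `C ⊆ cl G T y`. For
`z ∈ IN G (2 * g) T y`: the `u ∈ C`, `u ≠ z`, with `G.Adj z u ↔ G.Adj z y` are in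
`cl G (insert z T) y`, at most `2 g`; so `z ∈ dset G y u` for at least `|C| - 1 - 2 g ≥ |C| / 2` of
the `u ∈ C \ {y}`. For each such `u` at most `d` vertices `z` (`Nr`). So
`|IN| * |C| / 2 ≤ d |C|`. -/
def T_IND : Prop := ∀ (V : Type) [Fintype V] (G : SimpleGraph V) (g q d : ℕ) (T : Finset V),
  4 * g + 2 ≤ q → Nr G d T → ∀ y ∈ LA G g q T, (IN G (2 * g) T y).card ≤ 2 * d

/-- ECN. PROOF. For `y ∉ T` let `r y` be an element of `cl G T y` chosen as a function of this set;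
`r` is constant on the classes. Let `z ∈ EE`, with `y, y'` as in the definition. If `z ≠ r y`,
one of the sides of `z` in `cl G T y` does not contain `r y`; all its more than `g` elements `u`
have `z ∈ dset G u (r u)`. The number of the pairs `(u, z)`, `u ∉ T`, `u ≠ r u`, `z ∈ dset G u (r
u)` is at most `d n`; so at most `d n / g` such `z`. The `z` with `z = r y`: `z` is determined by
its own class, which has at least `2 g + 2` elements, so at most `n / g` such `z`. Together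
`g |EE| ≤ (d + 1) n ≤ 2 d n`. -/
def T_ECN : Prop := ∀ (V : Type) [Fintype V] (G : SimpleGraph V) (g d : ℕ) (T : Finset V),
  1 ≤ d → Nr G d T → g * (EE G g T).card ≤ 2 * d * Fintype.card V

/-- EFR. PROOF. Let `z ∈ EE`, `C = cl G T y` with two sides with more than `g` elements each;
choose disjoint pairs `(u_i, u'_i)`, `i < g`, `u_i` from the first side, `u'_i` from the second.
Let `z' ∈ cl G T z`, `z' ≠ z`. Fewer than `d` vertices `w ≠ z, z'` have `¬ (G.Adj w z' ↔ G.Adj w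
z)`, and `z'` may be one of the `u_i, u'_i`; so for at least `g - d` of the `i` both `u_i, u'_i`
are `≠ z'` and have the same adjacency to `z'` as to `z`, and `z' ∈ dset G u_i u'_i`. Each `i`
has fewer than `d` such `z'`. So `(|cl G T z| - 1) (g - d) ≤ g d`, and `2 (g - d) ≥ g` gives
`|cl G T z| ≤ 2 d + 1`. -/
def T_EFR : Prop := ∀ (V : Type) [Fintype V] (G : SimpleGraph V) (g d : ℕ) (T : Finset V),
  2 * d + 2 ≤ g → Nr G d T → ∀ z ∈ EE G g T, (cl G T z).card ≤ 2 * d + 1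

/-- LVT (from IND): PROOF. `g = d^2`, `q = d^4`, `h = 2 d`, `d ≥ KK ≥ 100`: `4 d^2 + 2 d + 2 ≤
d^4`, `32 d ≤ d^4`; `ind` from IND (`PL ⊆ LA`). -/
def T_LVT : Prop := ∀ (V : Type) [Fintype V] (G : SimpleGraph V) (d : ℕ) (T : Finset V),
  KK ≤ d → Nr G d T → Lv G (d ^ 2) (d ^ 4) (2 * d) T (T ∪ EE G (d ^ 2) T)

/-- ECO (from ECN, EFR). PROOF. All `z ∈ EE = EE G (d^2) T` have `|cl G T z| ≤ 2 d + 1 ≤ d^4`;
add them with `C = T`, `k = d^4`: cost `(1 + log (d^4)) |EE|`, `|EE| ≤ 2 n / d` (ECN), and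
`1 + log (d^4) ≤ lam d`. -/
def T_ECO : Prop := ∀ (V : Type) [Fintype V] (G : SimpleGraph V) (d : ℕ) (T : Finset V)
  (c : ℝ), KK ≤ d → Nr G d T → Co G T c →
  Co G (T ∪ EE G (d ^ 2) T) (c + lam d * (2 * Fintype.card V / d))

/-- CBN: as CBS: add the elements of `T' \ T` with `C = ∅`, `k = n`. -/
def T_CBN : Prop := ∀ (V : Type) [Fintype V] (G : SimpleGraph V) (T T' : Finset V) (c : ℝ),
  T ⊆ T' → Co G T c → Co G T' (c + (1 + Real.logb 2 (Fintype.card V)) * (T' \ T).card)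

/-- CLO: a closed set of vertices in classes with more than `qq` elements is closed on level one.
PROOF. `g = d^2`, `T0 = T ∪ EE G g T`. Let `y ∈ Q`: `y ∉ T0 ⊇ T ⊇ T1 ⊇ T01 ⊇ A ∪ EE G g1 A` and
`|cl G (A ∪ EE G g1 A) y| ≥ |cl G T0 y| > qq`, so `y ∈ PL G g1 qq A T01`. Let
`z ∈ IN G (2 * g1) A y`. If `z ∈ T0` then `cl G T0 y ⊆ cl G (insert z A) y` has at most `2 g1 < qq`
elements, a contradiction. So `z ∉ T`, `z ∉ EE G g T`. If `z ∉ IN G (2 * g) T y` then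
`|cl G (insert z T) y| > 2 g ≥ g`, and `cl G T y` (more than `qq` elements) has, besides `z` and
the at most `2 g1` elements of `cl G (insert z T) y ⊆ cl G (insert z A) y`, at least
`qq - 2 g1 ≥ g + 2` elements `y'`, all on the other side; so `z ∈ EE G g T`, a contradiction. So
`z ∈ IN G (2 * g) T y ⊆ Q`. -/
def T_CLO : Prop := ∀ (V : Type) [Fintype V] (G : SimpleGraph V) (A T01 T1 T Q : Finset V)
  (g1 qq h1 g q : ℕ), 1 ≤ g → 2 * g1 + g + 2 ≤ qq → Cx G A T01 T1 g1 qq h1 → T1 ⊆ T →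
  Q ⊆ PL G g q T (T ∪ EE G g T) → (∀ y ∈ Q, IN G (2 * g) T y ⊆ Q) →
  (∀ y ∈ Q, qq < kc G (T ∪ EE G g T) y) →
  Q ⊆ PL G g1 qq A T01 ∧ ∀ y ∈ Q, IN G (2 * g1) A y ⊆ Q

/-- NUM. PROOF. `e = Nat.log 2 d ≥ 10000`, `lam d = 4 e + 5`, `2^e ≤ d < 2^(e+1)`.
`nx d = 16 (4 e + 5)^3 ≤ 2^(11) e^3`, `lam (nx d) ≤ 4 (11 + 3 log e) + 5 ≤ 2 e`; `2^12 e^3 ≤ 2^e`;
`8 (4 e + 5)^2 ≤ 2^e`; `log (d^4) < 4 e + 4`; `1 + d^4 + 4 d^3 ≤ 2 d^4 ≤ 2^(4 e + 5)`;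
`6 KH lam d ≤ d * d`. -/
def T_NUM : Prop := ∀ d : ℕ, KK ≤ d → 2 * lam (nx d) ≤ lam d ∧ 2 * nx d ≤ d ∧
  8 * lam d ^ 2 ≤ d ∧ 1 + Real.logb 2 ((d ^ 4 : ℕ) : ℝ) ≤ lam d ∧
  1 + d ^ 4 + 2 * d * (2 * d ^ 2) ≤ 2 ^ (2 * lam d + 2) ∧ 6 * KH * lam d ≤ d ^ 4 ∧
  40005 ≤ lam d

/-- XBD. PROOF. `k = n / m^2 ≥ n / (2 m^2)` (as real numbers, `n ≥ 16 m^3 ≥ 2 m^2`),
`(1 - 16 m^3 / (2 n))^k ≤ exp (- 8 m^3 k / n) ≤ exp (- 4 m)`, and
`2^(2 m + 2) * m^2 ≤ exp (1.39 m + 1.39) * m^2 ≤ exp (4 m)` for `m ≥ 1` (`m ≤ exp (m - 1)`, and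
`1.39 m + 1.39 + 2 (m - 1) ≤ 4 m`). -/
def T_XBD : Prop := ∀ n m Q : ℕ, 1 ≤ m → 16 * m ^ 3 ≤ n → Q ≤ 2 ^ (2 * m + 2) →
  ((n : ℝ) * Q) * (1 - ((16 * m ^ 3 : ℕ) : ℝ) / (2 * n)) ^ (n / m ^ 2) * (m : ℝ) ^ 2 ≤ n

/-- there is a small closed connected set on the level `d` with base `T` -/
def Al {V : Type} [Fintype V] (G : SimpleGraph V) (d M : ℕ) (T : Finset V) : Prop :=
  ∃ Q, Sc (IN G (2 * d ^ 2) T) (PL G (d ^ 2) (d ^ 4) T (T ∪ EE G (d ^ 2) T)) M Q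

/-- STP (from LVS, LVT, ECO, CLO, NUM, XBD, CBN): one step. `hR` is `Pool.Agent.NRQ.T_RIC` for
this graph. PROOF. Replace `T` by the set `T2 ⊇ T` of `hR`: by CBN it costs at most
`(1 + log n) (4 g1 n / qq)` more, `Nr` and `Mk` remain, `Rich`. `g = d^2`, `q = d^4`, `h = 2 d`,
`T0 = T2 ∪ EE G g T2`, `m = lam d`, LVT; ECO gives `Co G T0 (.. + 2 m n / d + Ph ms)`; `Mk T0`;
`y ∈ PL` with `ms y ≠ 0` has `ms y ≥ kc G T0 y > q`. `ρ = 1 + log qq`: let `Q ⊆ PL` be closed,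
`M < Q.card`; if all `y ∈ Q` had `kc G T0 y > qq` then by CLO (for `T2`) `Q` would be closed on
level one and `Cx.cls` gives `y ∈ Q`, `y ∈ T1 ⊆ T0`, a contradiction to `Q ⊆ PL`; so some `y ∈ Q`
has `1 ≤ kc G T0 y ≤ qq`. LVS with `nx d = 16 m^3` for `d` (`≤ d ≤ n`) and `k = n / m^2`. The first
alternative is `Al`. In the second one `ρ s ≤ ρ n / M`, `x ≤ n / m^2` (XBD, NUM),
`4 (1 + log q) (k + x) ≤ 4 m (2 n / m^2) = 8 n / m`, `6 KH e ≤ 6 KH n / d^4 ≤ n / m`,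
`2 m n / d ≤ n / m`. Sum at most `10 n / m`. -/
def T_STP : Prop := ∀ (V : Type) [Fintype V] (G : SimpleGraph V) (A T01 T1 T : Finset V)
  (g1 qq h1 d M : ℕ) (ms : V → ℕ) (c : ℝ),
  (∀ T : Finset V, A ∪ EE G g1 A ⊆ T → ∃ T' : Finset V, T ⊆ T' ∧ Rich G g1 qq A T' ∧
    qq * (T' \ T).card ≤ 4 * g1 * Fintype.card V) →
  KK ≤ d → d ≤ Fintype.card V → 2 * g1 + d ^ 2 + 2 ≤ qq → 1 ≤ M →
  Cx G A T01 T1 g1 qq h1 → T1 ⊆ T →
  (∀ u v, u ≠ v → KK ≤ (dset G u v).card) → Nr G d T → Mk (kc G) T ms →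
  (∀ y, ms y = 0 ∨ KH ≤ ms y) → Co G T (c + Ph ms) →
  (∃ T2 : Finset V, T ⊆ T2 ∧ Rich G g1 qq A T2 ∧ Nr G d T2 ∧ Al G d M T2) ∨
  ∃ (T' : Finset V) (ms' : V → ℕ), T ⊆ T' ∧ Nr G (nx d) T' ∧
    Mk (kc G) T' ms' ∧ (∀ y, ms' y = 0 ∨ KH ≤ ms' y) ∧
    Co G T' (c + (1 + Real.logb 2 (Fintype.card V)) * (4 * g1 * Fintype.card V / qq) +
      18 * Fintype.card V / lam d + (1 + Real.logb 2 qq) * (Fintype.card V / M) + Ph ms')

/-- ITR (from STP, NUM, PW): all steps. PROOF. Strong induction on `d`: the claim with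
`c + (36 / 40005 - 18 / lam d) n + (1 + log d) ρ + 6 n pw KH`,
`ρ = (1 + log n) (4 g1 n / qq) + (1 + log qq) (n / M)`, which is at most the bound of the
statement. Apply STP (`hR` is the same hypothesis). If `nx d ≤ KK`: `Dst G T'` (mates `u ≠ v` would
have `KK ≤ |dset| < nx d`); `Ph ms' ≤ 6 n pw KH` (PW), `18 / lam d ≤ 36 / 40005 - 18 / lam d` as
`lam d ≥ 40005`. Otherwise `KK ≤ nx d < d`, use the induction hypothesis for `nx d`, `T'`, `ms'`,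
`c + 18 n / lam d + ρ`: `18 / lam (nx d) ≥ 36 / lam d` and `log (nx d) + 1 ≤ log d`; the
first alternative is passed on. -/
def T_ITR : Prop := ∀ (V : Type) [Fintype V] (G : SimpleGraph V) (A T01 T1 T : Finset V)
  (g1 qq h1 d M : ℕ) (ms : V → ℕ) (c : ℝ),
  (∀ T : Finset V, A ∪ EE G g1 A ⊆ T → ∃ T' : Finset V, T ⊆ T' ∧ Rich G g1 qq A T' ∧
    qq * (T' \ T).card ≤ 4 * g1 * Fintype.card V) →
  KK ≤ d → d ≤ Fintype.card V → 2 * g1 + d ^ 2 + 2 ≤ qq → 1 ≤ M →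
  Cx G A T01 T1 g1 qq h1 → T1 ⊆ T →
  (∀ u v, u ≠ v → KK ≤ (dset G u v).card) → Nr G d T → Mk (kc G) T ms →
  (∀ y, ms y = 0 ∨ KH ≤ ms y) → Co G T (c + Ph ms) →
  (∃ (d' : ℕ) (T' : Finset V), KK ≤ d' ∧ d' ≤ d ∧ T ⊆ T' ∧ Rich G g1 qq A T' ∧
    Nr G d' T' ∧ Al G d' M T') ∨
  ∃ T' : Finset V, Dst G T' ∧ Co G T' (c + Fintype.card V / 1000 + (1 + Real.logb 2 d) *
    ((1 + Real.logb 2 (Fintype.card V)) * (4 * g1 * Fintype.card V / qq) +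
      (1 + Real.logb 2 qq) * (Fintype.card V / M)) + 6 * Fintype.card V * pw KH)

/-! ## E. the first level and the theorem for one graph -/

/-- LV1 (from LVS, CBS, XBD): the first level. `hZ` is `Pool.Agent.NRQ.T_ZZC`. PROOF. `L = pL n`,
`g = h = pg n = 4 L^6`, `q = q1 n = 64 g L^3`, `T01 = A ∪ EE G g A ∪ X1 ∪ X2`, `X1` = the
`y ∈ LA G g q A` with `h < |In y|`, `X2` = the `y` with `h < (ZZ G A y).card`. `Lv`:
`4 g + h + 2 ≤ q`, `16 h ≤ q`. `g |EE| ≤ sm G A` (`NRC.p_ESM`), `h |X1| ≤ sm G A` (`NRC.p_EHI`),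
`h |X2| ≤ sm G A` (`hZ`), so all three are at most `4 n L^3 / (4 L^6) = n / L^3`, `|A| ≤ n / L^2`;
CBS: `T01` costs at most `2 L (4 n / L^2) = 8 n / L`. `ms = 0`, `Ph 0 = 0`. LVS with
`ρ = 1 + log n`, `M = M1 n`, `d = d1 n = 16 m^3`, `m = lam1 n`, `k = n / m^2`: `x ≤ n / m^2` (XBD:
`1 + q + 2 g^2 ≤ q^2 ≤ 2^(2 m)`). Costs: `ρ s ≤ 2 L n / (10^6 L)`,
`4 (1 + log q) (k + x) ≤ 8 m (2 n / m^2) = 16 n / m`, `6 KH e ≤ 6 KH n / q`. The sum is at most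
`n / 1000` for `n ≥ n0`. `Cx`: by construction and `Cz` of LVS. -/
def T_LV1 : Prop := ∃ n0 : ℕ, ∀ (V : Type) [Fintype V] (G : SimpleGraph V) (A : Finset V),
  n0 ≤ Fintype.card V → (∀ u v, u ≠ v → KK ≤ (dset G u v).card) →
  A.card ≤ pN (Fintype.card V) →
  (sm G A : ℝ) ≤ 4 * (Fintype.card V : ℝ) * (pL (Fintype.card V) : ℝ) ^ 3 →
  (∃ (T01 Q : Finset V), Sc (IN G (2 * pg (Fintype.card V)) A)
    (PL G (pg (Fintype.card V)) (q1 (Fintype.card V)) A T01) (M1 (Fintype.card V)) Q) ∨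
  ∃ (T01 T1 : Finset V) (ms : V → ℕ),
    Cx G A T01 T1 (pg (Fintype.card V)) (q1 (Fintype.card V)) (pg (Fintype.card V)) ∧
    Nr G (d1 (Fintype.card V)) T1 ∧ Mk (kc G) T1 ms ∧ (∀ y, ms y = 0 ∨ KH ≤ ms y) ∧
    Co G T1 (Fintype.card V / 1000 + Ph ms)

/-- NLV: numbers. PROOF. `L = pL n → ∞`, `l = pl n = Nat.log 2 L + 1 → ∞`, `L < 2^l`;
`q1 n = 256 L^9`, `lam1 n ≤ 9 + 9 l ≤ 18 l`, `d1 n ≤ 16 (18 l)^3 ≤ 10^5 l^3`, so
`8 (d1 n)^4 ≤ L` for `n ≥ n0`; `KK ≤ d1 n` for `n ≥ n0`; `1 + log (d1 n) ≤ 18 + 3 log l ≤ l / 10^5`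
for `n ≥ n0`, `1 + log (q1 n) ≤ 9 + 9 l ≤ 18 l`, `M2 n = l^3`;
`(1 + log n) (4 pg n * n / q1 n) ≤ 2 L n / (16 L^3)`; `6 pw KH ≤ 60000 / 2^9999 ≤ 1 / 1000`. -/
def T_NLV : Prop := (6 * pw KH ≤ 1 / 1000) ∧ ∃ n0 : ℕ, ∀ n : ℕ, n0 ≤ n →
  KK ≤ d1 n ∧ d1 n ≤ n ∧ 2 * pg n + d1 n ^ 2 + 2 ≤ q1 n ∧ 1 ≤ M2 n ∧ 1 ≤ pg n ∧
  2 * d1 n ^ 2 + 1 ≤ 3 * pg n ∧ 3 * pg n + 1 ≤ q1 n ∧
  (1 + Real.logb 2 (d1 n)) * ((1 + Real.logb 2 n) * (4 * pg n * n / q1 n) +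
    (1 + Real.logb 2 (q1 n)) * (n / M2 n)) ≤ n / 1000

end Pool.Agent.NRP
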