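import Pool.Agent.NRP.Targets
import Pool.Agent.NRQ.TargetsC

/-!
# NRP, final part: exact targets with complete proofs in the docstrings

One file per target: `Pool/Agent/NRP/P_X.lean`, theorem
`Pool.Agent.NRP.p_X (other targets) : T_X`; the targets after `from` are the hypotheses.
-/

set_option autoImplicit false

open Finset Classical

namespace Pool.Agent.NRP

open Pool.Agent.Lib.Recon Pool.Agent.RNB Pool.Agent.NRC Pool.Agent.NRQ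

/-- the codes of both kinds -/
def Gq {V : Type} [Fintype V] (G : SimpleGraph V) (A : Finset V) (v : V) : Prop :=
  Gd1 G (pg (Fintype.card V)) (M1 (Fintype.card V)) A v ∨
    Cd G (pg (Fintype.card V)) (pg (Fintype.card V)) (q2 (Fintype.card V))
      (d1 (Fintype.card V)) (M2 (Fintype.card V)) A v

/-- MAI (from LV1, ITR, NLV, DON, NRQ.T_AL1, NRQ.T_BET, NRQ.T_RIC): the theorem for one graph.
PROOF. LV1; the first alternative and AL1 (`3 g + 1 ≤ q`) give `Gd1`. In the second one ITR with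
`T = T1`, `d = d1 n`, `M = M2 n`, `c = n / 1000` (`hR` from RIC, `A ∪ EE ⊆ T`): a set `T'` with
`Dst G T'` and `Co G T' c'`, `c' ≤ 4 n / 1000` (NLV), contradicts the hypothesis on `H` by DON. So
there are `d'`, `T' ⊇ T1 ⊇ T01`; `Nr G (d1 n) T'` as `d' ≤ d1 n`; `Bs G (pg n) (pg n) A T'` from
`Cx`; BET with `e = d'^2`, `qe = d'^4`, `q2 n`, `d = d1 n`, `T0 = T' ∪ EE G e T'`:
`2 e + 1 ≤ 3 pg n`, `8 e ≤ qe` as `d' ≥ KK ≥ 8`. -/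
def T_MAI : Prop := ∃ n0 : ℕ, ∀ (V : Type) [Fintype V] (G H : SimpleGraph V),
  n0 ≤ Fintype.card V → (∀ v, CardIso G H v v) →
  (¬ ∃ α : V ≃ V, ∀ x y, G.Adj x y ↔ H.Adj (α x) (α y)) →
  (∀ u v, u ≠ v → KK ≤ (dset G u v).card) →
  ∀ A : Finset V, A.card ≤ pN (Fintype.card V) →
  (sm G A : ℝ) ≤ 4 * (Fintype.card V : ℝ) * (pL (Fintype.card V) : ℝ) ^ 3 →
  ∃ v, Gq G A v

/-- HLQ (from MAI). PROOF. Copy of `Pool/Agent/NRC/P_HLF.lean`: `NRC.p_RSQ` with `N = pN n`,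
`B = 4 n L^3` and `NRC.p_NPA`; for the `p` counted there MAI applies to `A = Bi ∅ p.2 p.1`. -/
def T_HLQ : Prop := ∃ n0 : ℕ, ∀ (V : Type) [Fintype V] (G H : SimpleGraph V),
  n0 ≤ Fintype.card V → (∀ v, CardIso G H v v) →
  (¬ ∃ α : V ≃ V, ∀ x y, G.Adj x y ↔ H.Adj (α x) (α y)) →
  (∀ u v, u ≠ v → KK ≤ (dset G u v).card) →
  Fintype.card (Fin (pN (Fintype.card V)) × (Fin (pN (Fintype.card V)) → V)) ≤
    2 * (univ.filter (fun p : Fin (pN (Fintype.card V)) × (Fin (pN (Fintype.card V)) → V) =>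
      ∃ v, Gq G (Bi ∅ p.2 p.1) v)).card

/-- the number of graphs with a code -/
def NN (n : ℕ) : ℕ := 4 * n ^ 2 * 2 ^ (M1 n) + 2 * n ^ 2 *
  (2 * (pg n + pg n * (2 * pg n) * d1 n + q2 n * d1 n + 1) ^ (M2 n) + 1) ^ (d1 n)

/-- NBQ. PROOF. `L = pL n`, `l = pl n`, `L < 2^l`, `d1 n ≤ 10^5 l^3` (see NLV), `M2 n = l^3`;
`pg n, q2 n, d1 n ≤ 2^(C l)`, so `D = pg + 2 pg^2 d1 + q2 d1 + 1 ≤ 2^(C l)`,
`(2 D^(l^3) + 1)^(d1) ≤ 2^(C l^7) ≤ 2^L ≤ n^2` for `n ≥ n0` (`l^7 = o(L)`, `L ≤ log n + 1`);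
`2^(M1 n) = 2^(10^6 L) ≤ n^(2 * 10^6)`; `2, 4 ≤ n^2`. -/
def T_NBQ : Prop := ∃ C n0 : ℕ, ∀ n : ℕ, n0 ≤ n → NN n ≤ n ^ C

/-- BIQ (from HLQ, NBQ, NRQ.T_AVQ, NRQ.T_DCQ, NRQ.T_EQQ, NRQ.T_DC1, NRQ.T_EQ1). PROOF. Edit
`Pool/Agent/NRC/P_BIG.lean`. `ι1` = the `i` such that some `u ≠ v` have
`|dset (H i) u v| < KK`: `|ι1| ≤ 2 n^(KK + 2)` (`exists_cd`, `card_le_codes`). For the other `i`
(if `|ι| ≥ 2`) HLQ, and AVQ with `P K A v = Gq K A v`, `B = NN n` (DC1 + DCQ; EQ1, EQQ) gives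
`|ι2| ≤ 2 n^2 NN n ≤ 2 n^(C + 2)`. -/
def T_BIQ : Prop := ∃ C n0 : ℕ, ∀ (V ι : Type) [Fintype V] [Fintype ι] (G : SimpleGraph V)
  (H : ι → SimpleGraph V), n0 ≤ Fintype.card V → (∀ i v, CardIso G (H i) v v) →
  (∀ i j, i ≠ j → ¬ ∃ α : V ≃ V, ∀ x y, (H i).Adj x y ↔ (H j).Adj (α x) (α y)) →
  Fintype.card ι ≤ Fintype.card V ^ C

/-- ALQ (from BIQ): all `n ≥ 2`. PROOF. For `n < n0`: `ι` injects into `SimpleGraph V`, which has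
at most `2^(n0^2)` elements (see `Pool/Agent/NRC/P_ALL.lean`), and `n^C ≥ 2^C`; take
`C = max C' (n0^2)`. -/
def T_ALQ : Prop := ∃ C : ℕ, ∀ (V ι : Type) [Fintype V] [Fintype ι] (G : SimpleGraph V)
  (H : ι → SimpleGraph V), 2 ≤ Fintype.card V → (∀ i v, CardIso G (H i) v v) →
  (∀ i j, i ≠ j → ¬ ∃ α : V ≃ V, ∀ x y, (H i).Adj x y ↔ (H j).Adj (α x) (α y)) →
  Fintype.card ι ≤ Fintype.card V ^ C

end Pool.Agent.NRP
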